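import Pool.Agent.NH3.XE.Stm
import Pool.Agent.NH3.XD.Asy
import Pool.Agent.NH3.XD.LOW

/-!
# Project XE: the final asymptotics and the translation to numbers (helper95; templates XD/Asy, XD/LOW)
-/

set_option autoImplicit false

open scoped Classical
open Finset Filter

namespace Pool.Agent.NH3.XE

open Pool.Agent.Y703.CX (sm la jj XX eL zz kk S_SIE eL_tendsto logX_eq rpow_eL HH NN ev_eL one_le_exp
  HH_ge HH_le HH_pos kk_ge kk_le X_pos one_add_log lin_le kap zz_ge zz_pos kap_nonneg kap_pow kap_le)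
open Pool.Agent.Y703.CQ (nr sg prs HB S_EQ S_MER)
open Pool.Agent.NH5.PR (eta S_BIL S_ETA)
open Pool.Agent.NH5.PR.AsyP (sml_of sml_add sml_rpow cmp)
open Pool.Agent.NH3.XD (Cl SS AA RR Nd HD CntP S_XFEW S_ISO)
open Pool.Agent.NH4.XJ (OkJ S_XPRB S_XJLOW)

namespace AsyE

/-- the class is contained in the set of all sets of primes -/
theorem SS_sub {m r : ℕ} (hO : OkJ m r) (X : ℕ) : SS m r X ⊆ AA X := by
  intro S hS
  unfold Pool.Agent.NH3.XD.SS at hS
  unfold Pool.Agent.NH3.XD.AA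
  rw [mem_filter] at hS ⊢
  refine ⟨hS.1, fun p hp => ?_, hS.2.2⟩
  obtain ⟨h1, h2⟩ := hS.2.1.1 p hp
  refine ⟨h1, ?_⟩
  rintro rfl
  exact h2 ((show (2 : ℕ) ∣ 4 by norm_num).trans hO.2.1)

/-- the sets outside the regular part -/
theorem out_sub {m r : ℕ} (hO : OkJ m r) (X z H k R : ℕ) :
    SS m r X \ ((RR m r X z H k R).filter fun S => Nd (insert 2 (sm z S)) (la z S)) ⊆
      (((((AA X).filter fun S => k < S.card) ∪
      ((AA X).filter fun S => S.card ≤ k ∧
        X < (∏ p ∈ sm z S, p) * ∏ p ∈ la z S, XX H (jj H p))) ∪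
      ((AA X).filter fun S => ¬ Set.InjOn (jj H) (la z S : Set ℕ))) ∪
      ((AA X).filter fun S => ((la z S).filter fun p => p % 4 = 3).card <
        2 * (sm z S).card + R)) ∪
      ((AA X).filter fun S => S.card ≤ k ∧ ¬ Nd (insert 2 (sm z S)) (la z S)) := by
  intro S hS
  rw [Finset.mem_sdiff, Finset.mem_filter] at hS
  obtain ⟨h1, h2⟩ := hS
  have h1' := SS_sub hO X h1
  simp only [mem_union, mem_filter]
  by_contra hc
  push Not at hc
  obtain ⟨⟨⟨⟨c1, c2⟩, c3⟩, c4⟩, c5⟩ := hc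
  have d1 : S.card ≤ k := c1 h1'
  have d2 := c2 h1' d1
  have d3 := c3 h1'
  have d4 := c4 h1'
  have d5 := c5 h1' d1
  apply h2
  refine ⟨?_, d5⟩
  unfold Pool.Agent.NH3.XD.RR
  rw [mem_filter]
  exact ⟨h1, d3, d1, d2, d4⟩

end AsyE

open AsyE in
theorem t_EASY : S_EASY := by
  intro hBIL hEQ hXLA hETA hBOX hKEY hC hSIE hHAL hBAD hMER hFEW hLOW
  intro θ m r hO
  obtain ⟨CB, XB, hbad⟩ := hBAD hSIE hHAL hMER
  obtain ⟨c, X₀, hc, hlow⟩ := hLOW m r hO.1
  rw [Metric.tendsto_nhds]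
  intro ε hε
  obtain ⟨R, C, hC1, hkey⟩ := hKEY hBIL hEQ hXLA hETA hBOX (ε / 4) (by linarith)
  obtain ⟨CF, XF, hfew⟩ := hFEW hSIE hMER R
  have s1 := Pool.Agent.NH3.XD.AsyX.sml_many hC
  have s2 := Pool.Agent.NH3.XD.AsyX.sml_cut hC
  have s3 := Pool.Agent.NH3.XD.AsyX.sml_coll hC
  have s4 := sml_rpow (by norm_num) hfew
  have s5 := sml_rpow (by norm_num) hbad
  have s6 := Pool.Agent.NH3.XD.AsyX.sml_main hC1 m
  have s := sml_add (sml_add (sml_add (sml_add (sml_add s1 s2) s3) s4) s5) s6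
  have hδ : (0 : ℝ) < c * ε / 4 := by positivity
  filter_upwards [s (c * ε / 4) hδ, ev_eL 1, eventually_ge_atTop X₀] with X hX hl hX0
  have hl0 : 0 < eL X := by linarith
  have hlo := hlow X hX0
  have hXp := X_pos hl0
  have hXp' : (0 : ℝ) < X := by exact_mod_cast hXp
  have hsq : 1 ≤ Real.sqrt (eL X) := Real.one_le_sqrt.2 hl
  have hSpos : (0 : ℝ) < ((SS m r X).card : ℝ) := by
    refine lt_of_lt_of_le ?_ hlo
    positivity
  have hN : (HH X : ℝ) * Real.log X < NN X := by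
    unfold NN
    push_cast
    exact Nat.lt_floor_add_one _
  have hz2 : 2 ≤ zz X := by
    unfold Pool.Agent.Y703.CX.zz
    apply Nat.le_floor
    have h3 : (1 : ℝ) ≤ (eL X) ^ 3 := one_le_pow₀ hl
    have h4 := Real.add_one_le_exp ((eL X) ^ 3)
    push_cast
    linarith
  have hmain := hkey θ m r X (zz X) (HH X) (kk X) (NN X) (kap C X) hO hXp (HH_pos hl0) hz2
    (kap_nonneg hC1 X) (kap_pow hC1 hl) hN
  set T := (RR m r X (zz X) (HH X) (kk X) R).filter fun S => Nd (insert 2 (sm (zz X) S)) (la (zz X) S) with hT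
  have hTG : (RR m r X (zz X) (HH X) (kk X) R).filter
      (fun S => Nd (insert 2 (sm (zz X) S)) (la (zz X) S) ∧ Gd θ S) = T.filter (Gd θ) := by
    rw [hT, filter_filter]
  rw [hTG] at hmain
  have hTS : T ⊆ SS m r X := (filter_subset _ _).trans (filter_subset _ _)
  have hRS : ((RR m r X (zz X) (HH X) (kk X) R).card : ℝ) ≤ ((SS m r X).card : ℝ) := by
    exact_mod_cast card_le_card (filter_subset _ _)
  have hcmp := cmp (Gd θ) T (SS m r X) hTS eta hETA.2.1.le hETA.2.2.1.le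
  have hout : ((SS m r X \ T).card : ℝ) ≤
      ((((AA X).filter fun S => kk X < S.card).card : ℝ) +
      (((AA X).filter fun S => S.card ≤ kk X ∧
        X < (∏ p ∈ sm (zz X) S, p) * ∏ p ∈ la (zz X) S, XX (HH X) (jj (HH X) p)).card : ℝ) +
      (((AA X).filter fun S => ¬ Set.InjOn (jj (HH X)) (la (zz X) S : Set ℕ)).card : ℝ) +
      (((AA X).filter fun S => ((la (zz X) S).filter fun p => p % 4 = 3).card <
        2 * (sm (zz X) S).card + R).card : ℝ)) +
      (((AA X).filter fun S => S.card ≤ kk X ∧ ¬ Nd (insert 2 (sm (zz X) S)) (la (zz X) S)).card : ℝ) := by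
    have g := card_le_card (out_sub hO.1 X (zz X) (HH X) (kk X) R)
    rw [← hT] at g
    have g2 := (g.trans (card_union_le _ _)).trans (Nat.add_le_add_right ((card_union_le _ _).trans
      (Nat.add_le_add_right ((card_union_le _ _).trans
      (Nat.add_le_add_right (card_union_le _ _) _)) _)) _)
    exact_mod_cast g2
  have htot : |(((SS m r X).filter (Gd θ)).card : ℝ) - eta * ((SS m r X).card : ℝ)| ≤
      ε / 4 * ((SS m r X).card : ℝ) + c * ε / 4 * (X / Real.sqrt (eL X)) := by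
    have g1 : ε / 4 * ((RR m r X (zz X) (HH X) (kk X) R).card : ℝ) ≤
        ε / 4 * ((SS m r X).card : ℝ) := mul_le_mul_of_nonneg_left hRS (by linarith)
    linarith
  rw [Real.dist_eq]
  have e3 : (((SS m r X).filter (Gd θ)).card : ℝ) / ((SS m r X).card : ℝ) - eta =
      ((((SS m r X).filter (Gd θ)).card : ℝ) - eta * ((SS m r X).card : ℝ)) /
        ((SS m r X).card : ℝ) := by
    field_simp
  rw [e3, abs_div, abs_of_pos hSpos, div_lt_iff₀ hSpos]
  refine lt_of_le_of_lt htot ?_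
  have g2 : c * ε / 4 * (X / Real.sqrt (eL X)) ≤ ε / 4 * ((SS m r X).card : ℝ) := by
    have g3 : (X : ℝ) / Real.sqrt (eL X) ≤ X := div_le_self hXp'.le hsq
    calc c * ε / 4 * (X / Real.sqrt (eL X)) ≤ c * ε / 4 * X :=
          mul_le_mul_of_nonneg_left g3 (by positivity)
      _ = ε / 4 * (c * X) := by ring
      _ ≤ _ := mul_le_mul_of_nonneg_left hlo (by linarith)
  have g4 : 0 < ε * ((SS m r X).card : ℝ) := by positivity
  linarith

/-- the translation to numbers -/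
theorem t_ENS : S_ENS := by
  intro hdq θ m r hOk
  refine (hdq θ m r hOk).congr fun X => ?_
  have e1 := Pool.Agent.NH3.XD.LowX.card_eq m r hOk.1.2.2.2 X (Gd θ)
  have e2 := Pool.Agent.NH3.XD.LowX.card_eq m r hOk.1.2.2.2 X (fun _ => True)
  rw [Finset.filter_true] at e2
  simp only [and_true] at e2
  rw [← e1, ← e2]

end Pool.Agent.NH3.XE
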