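import Mathlib
import Pool.Agent.NH3.XD.Stm
import Pool.Agent.NH4.XJ.Stm

/-!
# Project XE (helper3): the natural density of the even discriminants `D < 0` of a residue class with
`4`-rank zero

`N` runs over the odd squarefree numbers congruent to `r` modulo `m` (`4 ∣ m`), `D = -4 N` with `N = 1`
modulo `4` (`θ = 0`) or `D = -8 N` (`θ = 1`). The Redei matrix of `D` over `𝔽₂` has the rows `p ∣ N` and the
columns `q ∣ N` and `2`: it is the Laplacian of the quadratic symbols `[q / p]` with a further column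
`[2 / p]` (and, for `θ = 1`, `[2 / p]` on the diagonal). Its kernel contains the vector with all `x_p = 1`,
`w = θ`; it has no other nonzero vector for exactly the proportion `∏ (1 - 2^{-i}) = 0.28878…` of
these `N`. Statements of the parts. The templates are the projects XD (`Pool.Agent.NH3.XD`) and XJ
(`Pool.Agent.NH4.XJ`).
-/

set_option autoImplicit false
set_option linter.unusedVariables false

open scoped Classical

namespace Pool.Agent.NH3.XE

open Finset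
open Pool.Agent.Y703.CX (sm la jj XX eL zz kk S_SIE)
open Pool.Agent.Y703.CQ (nr sg prs HB S_EQ S_MER)
open Pool.Agent.NH5.PR (eta S_BIL S_ETA ex2)
open Pool.Agent.NH4.PJ (inj rs)
open Pool.Agent.NH3.XD (Cl SS AA RR Nd HD CntP S_XFEW S_ISO)
open Pool.Agent.NH4.XJ (OkJ S_XPRB S_XJLOW)

/-! ### the class and the event -/

/-- the parameters -/
def OkE (θ : ZMod 2) (m r : ℕ) : Prop := OkJ m r ∧ (θ = 0 → r % 4 = 1)

/-- the kernel of the Redei matrix -/
def Sol (θ : ZMod 2) (S : Finset ℕ) (w : ZMod 2) (x : ℕ → ZMod 2) : Prop :=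
  ∀ p ∈ S, ∑ q ∈ S, nr p q * (x q + x p) + nr p 2 * (w + θ * x p) = 0

/-- the good sets: the kernel is as small as possible -/
def Gd (θ : ZMod 2) (S : Finset ℕ) : Prop :=
  ∀ w x, Sol θ S w x → ∃ c : ZMod 2, w = θ * c ∧ ∀ p ∈ S, x p = c

/-- FINAL, for sets of primes -/
def S_EDQ : Prop := ∀ (θ : ZMod 2) (m r : ℕ), OkE θ m r → Filter.Tendsto
  (fun X : ℕ => (((SS m r X).filter (Gd θ)).card : ℝ) / ((SS m r X).card : ℝ))
  Filter.atTop (nhds eta)

/-- FINAL, for numbers -/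
def S_EDEN : Prop := ∀ (θ : ZMod 2) (m r : ℕ), OkE θ m r → Filter.Tendsto
  (fun X : ℕ => (((Icc 1 X).filter fun N => Squarefree N ∧ N % m = r ∧ Gd θ N.primeFactors).card : ℝ) /
    (((Icc 1 X).filter fun N => Squarefree N ∧ N % m = r).card : ℝ))
  Filter.atTop (nhds eta)

/-! ### the linear algebra -/

/-- the data: symbols between the small primes `U`, between small and large primes, the classes modulo
`4` of the primes, the symbols of `2` -/
structure Dat (U J : Type) where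
  A : U → U → ZMod 2
  B : U → J → ZMod 2
  C : J → U → ZMod 2
  bU : U → ZMod 2
  bJ : J → ZMod 2
  cU : U → ZMod 2
  cJ : J → ZMod 2

section dat

variable {U J : Type} [Fintype U] [Fintype J] [LinearOrder J]

/-- the reciprocity law, the product is `1` modulo `4` for `θ = 0`, the labels are not degenerate -/
structure Dat.Good (θ : ZMod 2) (d : Dat U J) : Prop where
  rA : ∀ u v, u ≠ v → d.A u v + d.A v u = d.bU u * d.bU v
  rB : ∀ u l, d.B u l + d.C l u = d.bU u * d.bJ l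
  par : θ = 0 → ∑ u, d.bU u + ∑ l, d.bJ l = 0
  nd : ∀ (w : U → ZMod 2) (w₀ : ZMod 2), ((∃ u, w u ≠ 0) ∨ w₀ ≠ 0) →
    ∃ k, d.bJ k = 0 ∧ ∑ u, w u * d.C k u + w₀ * d.cJ k ≠ 0

/-- the small rows, for the vector `z = (w, x, y)` -/
def Sml (θ : ZMod 2) (d : Dat U J) (z : ZMod 2 × (U → ZMod 2) × (J → ZMod 2)) : Prop :=
  ∀ u, ∑ v, d.A u v * (z.2.1 v + z.2.1 u) + ∑ l, d.B u l * (z.2.2 l + z.2.1 u) +
    d.cU u * (z.1 + θ * z.2.1 u) = 0

/-- the correction of the reciprocity law -/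
def tt (d : Dat U J) : J → J → ZMod 2 := fun k l => d.bJ k * d.bJ l

/-- the large rows for a set of indices -/
def Lrg (θ : ZMod 2) (d : Dat U J) (JR : Finset J) (α : prs (univ : Finset J) → ZMod 2)
    (z : ZMod 2 × (U → ZMod 2) × (J → ZMod 2)) : Prop :=
  ∀ k ∈ JR, ∑ u, d.C k u * (z.2.1 u + z.2.2 k) + ∑ l, ex2 (tt d) α k l * (z.2.2 l + z.2.2 k) +
    d.cJ k * (z.1 + θ * z.2.2 k) = 0

/-- only the trivial solutions -/
def GdL (θ : ZMod 2) (d : Dat U J) (α : prs (univ : Finset J) → ZMod 2) : Prop :=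
  ∀ z, Sml θ d z → Lrg θ d univ α z →
    ∃ c : ZMod 2, z.1 = θ * c ∧ (∀ u, z.2.1 u = c) ∧ ∀ l, z.2.2 l = c

/-- the sum `b · x` -/
def bx (d : Dat U J) (z : ZMod 2 × (U → ZMod 2) × (J → ZMod 2)) : ZMod 2 :=
  ∑ u, d.bU u * z.2.1 u + ∑ l, d.bJ l * z.2.2 l

/-- the sum `c · x` -/
def cx (d : Dat U J) (z : ZMod 2 × (U → ZMod 2) × (J → ZMod 2)) : ZMod 2 :=
  ∑ u, d.cU u * z.2.1 u + ∑ l, d.cJ l * z.2.2 l

/-- the sum of all the rows -/
def sr (θ : ZMod 2) (d : Dat U J) (z : ZMod 2 × (U → ZMod 2) × (J → ZMod 2)) : ZMod 2 :=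
  (∑ u, d.bU u + ∑ l, d.bJ l + 1) * bx d z + (∑ u, d.cU u + ∑ l, d.cJ l) * z.1 + θ * cx d z

/-- the alternating form of the system -/
def om (d : Dat U J) (v w : ZMod 2 × (U → ZMod 2) × (J → ZMod 2)) : ZMod 2 :=
  bx d v * bx d w + (∑ u, d.bU u * (v.2.1 u * w.2.1 u) + ∑ l, d.bJ l * (v.2.2 l * w.2.2 l)) +
    v.1 * cx d w + w.1 * cx d v

/-- the space of the solutions of the small rows and of the sum of all the rows which vanish at `i` -/
noncomputable def KK (θ : ZMod 2) (d : Dat U J) (i : J) :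
    Finset (ZMod 2 × (U → ZMod 2) × (J → ZMod 2)) :=
  univ.filter fun z => Sml θ d z ∧ z.2.2 i = 0 ∧ sr θ d z = 0

/-- the number of the solutions which vanish at `i` -/
noncomputable def nk (θ : ZMod 2) (d : Dat U J) (i : J) (α : prs (univ : Finset J) → ZMod 2) : ℕ :=
  ((KK θ d i).filter fun z => Lrg θ d (univ.erase i) α z).card

end dat

/-- XE-1: facts on the system: the row `i` follows from the others; the number of solutions is a power
of two; good means one solution -/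
def S_ESYS : Prop := ∀ (θ : ZMod 2) (U J : Type) [Fintype U] [Fintype J] [LinearOrder J] (d : Dat U J),
  d.Good θ → ∀ i j : J, d.bJ i = 1 → d.bJ j = 1 → i ≠ j →
  (∀ α, (∃ κ : ℕ, nk θ d i α = 2 ^ κ) ∧ (nk θ d i α = 1 ↔ GdL θ d α)) ∧
    (KK θ d i).card = 2 ^ (Fintype.card J - 1)

/-- XE-2: the probability that a family of vectors with independent large parts solves the large rows -/
def S_EPRB : Prop := S_XPRB → ∀ (θ : ZMod 2) (U J : Type) [Fintype U] [Fintype J] [LinearOrder J]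
  (d : Dat U J), d.Good θ →
  ∀ (i : J) (n : ℕ) (z : Fin n → ZMod 2 × (U → ZMod 2) × (J → ZMod 2)),
  (∀ s, z s ∈ KK θ d i) → LinearIndependent (ZMod 2) (fun s => (z s).2.2) →
  (univ.filter fun α : prs (univ : Finset J) → ZMod 2 =>
      ∀ s, Lrg θ d (univ.erase i) α (z s)).card * 2 ^ ((Fintype.card J - 1) * n) =
    if ∀ s t, om d (z s) (z t) = 0 then
      2 ^ (prs (univ : Finset J)).card * 2 ^ (n * (n - 1) / 2) else 0

/-- XE-3: the radical of the form on the space -/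
def S_ERAD : Prop := ∀ (θ : ZMod 2) (U J : Type) [Fintype U] [Fintype J] [LinearOrder J] (d : Dat U J),
  d.Good θ → ∀ i : J, d.bJ i = 1 →
  (((KK θ d i).filter fun v => ∀ w ∈ KK θ d i, om d v w = 0).card : ℝ) ≤
    2 ^ (2 * Fintype.card U + 6) * 2 ^ (Fintype.card J - 1) /
      2 ^ (univ.filter fun l => d.bJ l = 1).card

/-- XE-4: the moments -/
def S_EMOM : Prop := S_ESYS → S_EPRB → S_XPRB → S_ERAD → S_ISO → ∀ k : ℕ, ∃ C : ℝ, 0 < C ∧
  ∀ (θ : ZMod 2) (U J : Type) [Fintype U] [Fintype J] [LinearOrder J] (d : Dat U J), d.Good θ →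
  ∀ i : J, d.bJ i = 1 → 2 ≤ (univ.filter fun l => d.bJ l = 1).card →
  |(∑ α : prs (univ : Finset J) → ZMod 2, inj k (nk θ d i α)) /
      2 ^ (prs (univ : Finset J)).card - 1| ≤
    C * 2 ^ (2 * Fintype.card U) / 2 ^ (univ.filter fun l => d.bJ l = 1).card

/-- XE-LA: the probability that a random completion is good -/
def S_ELA : Prop := ∀ ε : ℝ, 0 < ε → ∃ R : ℕ,
  ∀ (θ : ZMod 2) (U J : Type) [Fintype U] [Fintype J] [LinearOrder J] (d : Dat U J), d.Good θ →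
  2 * Fintype.card U + R ≤ (univ.filter fun l => d.bJ l = 1).card →
  |((univ.filter fun α : prs (univ : Finset J) → ZMod 2 => GdL θ d α).card : ℝ) /
      2 ^ (prs (univ : Finset J)).card - eta| ≤ ε

/-! ### the boxes -/

/-- XE-BOX: the count in a box (the labels include the symbol of `2`) -/
def S_EBOX : Prop := S_EQ → S_ELA → S_ETA → ∀ ε : ℝ, 0 < ε → ∃ R : ℕ,
  ∀ (θ : ZMod 2) (ι : Type) [Fintype ι] [LinearOrder ι] (J3 : Finset ι) (C : ι → Finset ℕ) (X : ι → ℕ)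
  (κ : ℝ) (S₀ : Finset ℕ), 0 ≤ κ → (∀ i, (C i).card ≤ X i) → HB (univ : Finset ι) C X κ →
  (∀ u ∈ S₀, u.Prime ∧ u ≠ 2) →
  (∀ i, ∀ p ∈ C i, p.Prime ∧ p ≠ 2 ∧ p ∉ S₀ ∧ (i ∈ J3 ↔ p % 4 = 3)) →
  (∀ i l, i ≠ l → Disjoint (C i) (C l)) →
  (θ = 0 → ((S₀.filter fun u => u % 4 = 3).card + J3.card) % 2 = 0) →
  2 * S₀.card + R ≤ J3.card →
  |(((Fintype.piFinset C).filter fun p => Nd (insert 2 S₀) (univ.image p) ∧
      Gd θ (S₀ ∪ univ.image p)).card : ℝ) -
      eta * (((Fintype.piFinset C).filter fun p => Nd (insert 2 S₀) (univ.image p)).card : ℝ)| ≤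
    ε * (((Fintype.piFinset C).filter fun p => Nd (insert 2 S₀) (univ.image p)).card : ℝ) +
    2 ^ ((2 * S₀.card + 2) * Fintype.card ι + (prs (univ : Finset ι)).card) *
      (κ * ∏ j, (X j : ℝ))

/-- XE-KEY: the sum over the boxes -/
def S_EKEY : Prop := S_BIL → S_EQ → S_ELA → S_ETA → S_EBOX → ∀ ε : ℝ, 0 < ε →
  ∃ (R : ℕ) (C : ℝ), 1 ≤ C ∧ ∀ (θ : ZMod 2) (m r X z H k N : ℕ) (κ : ℝ), OkE θ m r →
  1 ≤ X → 1 ≤ H → 2 ≤ z → 0 ≤ κ → C ≤ κ ^ 12 * z → (H : ℝ) * Real.log X < N →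
  |(((RR m r X z H k R).filter fun S => Nd (insert 2 (sm z S)) (la z S) ∧ Gd θ S).card : ℝ) -
      eta * (((RR m r X z H k R).filter fun S => Nd (insert 2 (sm z S)) (la z S)).card : ℝ)| ≤
    ε * ((RR m r X z H k R).card : ℝ) +
    (m * N + m : ℝ) ^ k * (3 ^ (6 * k ^ 2) * κ) * (X * (1 + Real.log X))

/-! ### the exceptional sets -/

/-- XE-HAL: the logarithmic density for a nontrivial quadratic character (the prime `2` is allowed
in `W`) -/
def S_EHAL : Prop := ∃ C : ℝ, 1 ≤ C ∧ ∀ (W : Finset ℕ) (T : ℕ), W.Nonempty →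
  (∀ u ∈ W, u.Prime) → 2 ≤ T →
  ∑ S ∈ HD W T, (1 : ℝ) / ((∏ p ∈ S, p : ℕ) : ℝ) ≤
    C * (Real.log ((∏ u ∈ W, u : ℕ) : ℝ)) ^ (1 / 2 : ℝ) * (Real.log T) ^ (1 / 4 : ℝ)

/-- XE-BAD: few sets have degenerate labels -/
def S_EBAD : Prop := S_SIE → S_EHAL → S_MER → ∃ (C : ℝ) (X₀ : ℕ), ∀ X : ℕ, X₀ ≤ X →
  (((AA X).filter fun S => S.card ≤ kk X ∧
    ¬ Nd (insert 2 (sm (zz X) S)) (la (zz X) S)).card : ℝ) ≤
    C * X * (Real.log X) ^ (-1 / 8 : ℝ)

/-- XE-ASY: the final asymptotics -/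
def S_EASY : Prop := S_BIL → S_EQ → S_ELA → S_ETA → S_EBOX → S_EKEY → CntP → S_SIE → S_EHAL →
  S_EBAD → S_MER → S_XFEW → S_XJLOW → S_EDQ

/-- XE-NS: the translation -/
def S_ENS : Prop := S_EDQ → S_EDEN

end Pool.Agent.NH3.XE
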