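import Pool.Agent.NH3.XE.Stm
import Pool.Agent.NH4.XJ.BOX

/-! XE-BOX: the count in a box (adapted from `Pool.Agent.NH3.XD.BOX` and `Pool.Agent.NH4.XJ.BOX`). -/

set_option autoImplicit false

open scoped Classical

namespace Pool.Agent.NH3.XE.BX

open Finset
open Pool.Agent.Y703.CQ (nr prs HB S_EQ)
open Pool.Agent.NH5.PR (ex2)
open Pool.Agent.NH3.XD (Nd)
open Pool.Agent.NH3.XD.BX (b4 two_self recip HB_sub odd_cases cast_card_filter)
open Pool.Agent.NH4.XJ.BX (sh sh_eq card_sh b4_eq)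

/-- the type of the labels -/
abbrev Lb (S₀ : Finset ℕ) : Type := (S₀ → ZMod 2) × (S₀ → ZMod 2) × ZMod 2

/-- the label of a prime with respect to the small primes -/
noncomputable def lb (S₀ : Finset ℕ) (x : ℕ) : Lb S₀ :=
  (fun u => nr u x, fun u => nr x u, nr x 2)

/-- the good labels -/
def LN {ι : Type} (S₀ : Finset ℕ) (J3 : Finset ι) (β : ι → Lb S₀) : Prop :=
  ∀ (w : S₀ → ZMod 2) (w₀ : ZMod 2), ((∃ u : S₀, w u ≠ 0) ∨ w₀ ≠ 0) →
    ∃ i, i ∉ J3 ∧ ∑ u, w u * (β i).2.1 u + w₀ * (β i).2.2 ≠ 0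

section one
variable {ι : Type} [Fintype ι] [LinearOrder ι] {J3 : Finset ι} {S₀ : Finset ℕ} {p : ι → ℕ}

/-- extension -/
noncomputable def ez {S₀ : Finset ℕ} (v : S₀ → ZMod 2) (w₀ : ZMod 2) (n : ℕ) : ZMod 2 :=
  if h : n ∈ S₀ then v ⟨n, h⟩ else w₀

theorem ez_coe {S₀ : Finset ℕ} (v : S₀ → ZMod 2) (w₀ : ZMod 2) (u : S₀) : ez v w₀ u = v u := by
  unfold ez
  rw [dif_pos u.2]

theorem sum_ins (h2 : 2 ∉ S₀) (w : ℕ → ZMod 2) (x : ℕ) :
    ∑ u ∈ insert 2 S₀, w u * nr x u = ∑ u : S₀, w u * nr x u + w 2 * nr x 2 := by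
  rw [Finset.sum_insert h2, ← Finset.sum_coe_sort S₀, add_comm]

omit [LinearOrder ι] in
theorem nd_iff (h2 : 2 ∉ S₀) (hJ : ∀ i, p i % 4 = 1 ↔ i ∉ J3) :
    Nd (insert 2 S₀) (univ.image p) ↔ LN S₀ J3 (fun i => lb S₀ (p i)) := by
  unfold Nd LN
  constructor
  · intro h w w₀ hw
    have hw' : ∃ u ∈ insert 2 S₀, ez w w₀ u ≠ 0 := by
      rcases hw with ⟨u, hu⟩ | hw
      · exact ⟨u, Finset.mem_insert_of_mem u.2, by rw [ez_coe]; exact hu⟩
      · refine ⟨2, Finset.mem_insert_self _ _, ?_⟩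
        unfold ez
        rw [dif_neg h2]
        exact hw
    obtain ⟨x, hx, hx1, hx2⟩ := h (ez w w₀) hw'
    rw [Finset.mem_image] at hx
    obtain ⟨i, -, rfl⟩ := hx
    refine ⟨i, (hJ i).1 hx1, ?_⟩
    rw [sum_ins h2] at hx2
    intro h0
    apply hx2
    rw [← h0]
    have e1 : ez w w₀ 2 = w₀ := by
      unfold ez
      rw [dif_neg h2]
    rw [e1]
    congr 1
    refine Finset.sum_congr rfl fun u _ => ?_
    rw [ez_coe]
    rfl
  · intro h w hw
    obtain ⟨u, hu0, hu2⟩ := hw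
    obtain ⟨i, hi, hi2⟩ := h (fun u => w u) (w 2) (by
      rw [Finset.mem_insert] at hu0
      rcases hu0 with rfl | hu0
      · exact Or.inr hu2
      · exact Or.inl ⟨⟨u, hu0⟩, hu2⟩)
    refine ⟨p i, Finset.mem_image_of_mem _ (Finset.mem_univ _), (hJ i).2 hi, ?_⟩
    rw [sum_ins h2]
    exact hi2

omit [LinearOrder ι] in
theorem sum_un (hp : Function.Injective p) (hd : ∀ i, p i ∉ S₀) (f : ℕ → ZMod 2) :
    ∑ x ∈ S₀ ∪ univ.image p, f x = ∑ u : S₀, f u + ∑ l, f (p l) := by
  rw [Finset.sum_union, Finset.sum_image (fun a _ b _ h => hp h), ← Finset.sum_coe_sort S₀]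
  rw [Finset.disjoint_left]
  intro x hx hx'
  rw [Finset.mem_image] at hx'
  obtain ⟨i, -, rfl⟩ := hx'
  exact hd i hx

/-- the data of labels -/
noncomputable def dt (S₀ : Finset ℕ) (J3 : Finset ι) (β : ι → Lb S₀) : Dat S₀ ι where
  A u v := nr u v
  B u l := (β l).1 u
  C k u := (β k).2.1 u
  bU u := b4 u
  bJ l := if l ∈ J3 then 1 else 0
  cU u := nr u 2
  cJ k := (β k).2.2

theorem ex2_eq (hp : Function.Injective p) (hpr : ∀ i, (p i).Prime ∧ p i ≠ 2)
    (h3 : ∀ i, i ∈ J3 ↔ p i % 4 = 3) {k l : ι} (hkl : k ≠ l) :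
    ex2 (tt (dt S₀ J3 (fun i => lb S₀ (p i))))
      (fun e : prs (univ : Finset ι) => nr (p e.1.2) (p e.1.1)) k l = nr (p k) (p l) := by
  unfold ex2
  by_cases h : (l, k) ∈ prs (univ : Finset ι)
  · rw [dif_pos h]
  · rw [dif_neg h]
    have h1 : ¬ l < k := by
      intro hlt
      apply h
      unfold prs
      exact Finset.mem_filter.2 ⟨Finset.mem_univ _, Finset.mem_univ _, hkl, fun _ => hlt⟩
    have h2 : (k, l) ∈ prs (univ : Finset ι) := by
      unfold prs
      exact Finset.mem_filter.2 ⟨Finset.mem_univ _, Finset.mem_univ _, fun h => hkl h.symm,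
        fun _ => lt_of_le_of_ne (not_lt.1 h1) hkl⟩
    rw [dif_pos h2]
    have e1 : tt (dt S₀ J3 (fun i => lb S₀ (p i))) k l = b4 (p k) * b4 (p l) := by
      rw [← b4_eq h3 k, ← b4_eq h3 l]
      rfl
    rw [e1, ← recip (hpr k).1 (hpr k).2 (hpr l).1 (hpr l).2 fun h => hkl (hp h)]
    show nr (p l) (p k) + (nr (p k) (p l) + nr (p l) (p k)) = nr (p k) (p l)
    rw [add_comm (nr (p k) (p l)), ← add_assoc, two_self, zero_add]

theorem gd_iff (θ : ZMod 2) (hp : Function.Injective p) (hpr : ∀ i, (p i).Prime ∧ p i ≠ 2)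
    (hd : ∀ i, p i ∉ S₀) (h3 : ∀ i, i ∈ J3 ↔ p i % 4 = 3) :
    Gd θ (S₀ ∪ univ.image p) ↔ GdL θ (dt S₀ J3 (fun i => lb S₀ (p i)))
      (fun e : prs (univ : Finset ι) => nr (p e.1.2) (p e.1.1)) := by
  have hsum : ∀ (k : ι) (y : ι → ZMod 2),
      ∑ l, ex2 (tt (dt S₀ J3 (fun i => lb S₀ (p i))))
        (fun e : prs (univ : Finset ι) => nr (p e.1.2) (p e.1.1)) k l * (y l + y k) =
      ∑ l, nr (p k) (p l) * (y l + y k) := by
    intro k y
    refine Finset.sum_congr rfl fun l _ => ?_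
    by_cases hkl : k = l
    · subst hkl
      rw [two_self, mul_zero, mul_zero]
    · rw [ex2_eq hp hpr h3 hkl]
  have hsol : ∀ (w : ZMod 2) (x : ℕ → ZMod 2), Sol θ (S₀ ∪ univ.image p) w x ↔
      Sml θ (dt S₀ J3 (fun i => lb S₀ (p i))) (w, fun u => x u, fun l => x (p l)) ∧
      Lrg θ (dt S₀ J3 (fun i => lb S₀ (p i))) univ
        (fun e : prs (univ : Finset ι) => nr (p e.1.2) (p e.1.1))
        (w, fun u => x u, fun l => x (p l)) := by
    intro w x
    unfold Sol Sml Lrg
    constructor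
    · intro h
      refine ⟨fun u => ?_, fun k _ => ?_⟩
      · have := h u (Finset.mem_union_left _ u.2)
        rw [sum_un hp hd] at this
        exact this
      · have := h (p k) (Finset.mem_union_right _ (Finset.mem_image_of_mem _ (Finset.mem_univ _)))
        rw [sum_un hp hd] at this
        rw [hsum k (fun l => x (p l))]
        exact this
    · rintro ⟨h1, h2⟩ y hy
      rw [sum_un hp hd]
      rw [Finset.mem_union, Finset.mem_image] at hy
      rcases hy with hy | ⟨k, -, rfl⟩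
      · exact h1 ⟨y, hy⟩
      · have := h2 k (Finset.mem_univ _)
        rw [hsum k (fun l => x (p l))] at this
        exact this
  unfold Gd GdL
  constructor
  · rintro h ⟨w, c, d⟩ h1 h2
    set c' : ℕ → ZMod 2 := fun n => if h : n ∈ S₀ then c ⟨n, h⟩ else
      if h : ∃ l, p l = n then d h.choose else 0 with hc'
    have e1 : (fun u : S₀ => c' u) = c := by
      funext u
      simp only [hc']
      rw [dif_pos u.2]
    have e2 : (fun l => c' (p l)) = d := by
      funext l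
      have hex : ∃ l', p l' = p l := ⟨l, rfl⟩
      simp only [hc']
      rw [dif_neg (hd l), dif_pos hex]
      exact congrArg d (hp hex.choose_spec)
    have hs : Sol θ (S₀ ∪ univ.image p) w c' := by
      rw [hsol, e1, e2]
      exact ⟨h1, h2⟩
    obtain ⟨t, ht1, ht2⟩ := h w c' hs
    refine ⟨t, ht1, fun u => ?_, fun l => ?_⟩
    · have h4 := ht2 u (Finset.mem_union_left _ u.2)
      have h5 := congrFun e1 u
      show c u = t
      rw [← h5]
      exact h4
    · have h4 := ht2 (p l) (Finset.mem_union_right _ (Finset.mem_image_of_mem _ (Finset.mem_univ _)))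
      have h5 := congrFun e2 l
      show d l = t
      rw [← h5]
      exact h4
  · intro h w x hx
    rw [hsol] at hx
    obtain ⟨c, ht0, ht1, ht2⟩ := h _ hx.1 hx.2
    refine ⟨c, ht0, fun y hy => ?_⟩
    rw [Finset.mem_union, Finset.mem_image] at hy
    rcases hy with hy | ⟨k, -, rfl⟩
    · exact ht1 ⟨y, hy⟩
    · exact ht2 k

end one

end Pool.Agent.NH3.XE.BX

namespace Pool.Agent.NH3.XE

open Finset
open Pool.Agent.NH5.PR (eta S_ETA ex2)
open Pool.Agent.Y703.CQ (nr prs HB S_EQ)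
open Pool.Agent.NH3.XD (Nd)
open Pool.Agent.NH3.XD.BX (b4 two_self recip HB_sub odd_cases cast_card_filter)
open Pool.Agent.NH4.XJ.BX (sh sh_eq card_sh b4_eq)
open BX

/-- **The count in a box.** -/
theorem t_EBOX : S_EBOX := by
  intro hEQ hLA _ ε hε
  obtain ⟨R0, hLA⟩ := hLA ε hε
  refine ⟨R0, ?_⟩
  intro θ ι _ _ J3 C X κ S₀ hκ hCX hHB hS₀ hC hdis hpar hcard
  have h2S : 2 ∉ S₀ := fun h => (hS₀ 2 h).2 rfl
  set R : ℝ := 2 ^ (prs (univ : Finset ι)).card * (κ * ∏ j, (X j : ℝ)) with hR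
  have hR0 : 0 ≤ R := mul_nonneg (by positivity)
    (mul_nonneg hκ (Finset.prod_nonneg fun j _ => by positivity))
  -- facts on tuples
  have hinj : ∀ p ∈ Fintype.piFinset C, Function.Injective p := by
    intro p hp i j hij
    rw [Fintype.mem_piFinset] at hp
    by_contra hne
    have h1 := Finset.disjoint_left.1 (hdis i j hne) (hp i)
    rw [hij] at h1
    exact h1 (hp j)
  have hJ3 : ∀ p ∈ Fintype.piFinset C, ∀ i, i ∈ J3 ↔ p i % 4 = 3 := by
    intro p hp i
    rw [Fintype.mem_piFinset] at hp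
    exact (hC i _ (hp i)).2.2.2
  have hd : ∀ p ∈ Fintype.piFinset C, ∀ i, p i ∉ S₀ := by
    intro p hp i
    rw [Fintype.mem_piFinset] at hp
    exact (hC i _ (hp i)).2.2.1
  have hpr : ∀ p ∈ Fintype.piFinset C, ∀ i, (p i).Prime ∧ p i ≠ 2 := by
    intro p hp i
    rw [Fintype.mem_piFinset] at hp
    exact ⟨(hC i _ (hp i)).1, (hC i _ (hp i)).2.1⟩
  have hJ : ∀ p ∈ Fintype.piFinset C, ∀ i, p i % 4 = 1 ↔ i ∉ J3 := by
    intro p hp i
    rw [hJ3 p hp i]
    have := odd_cases (hpr p hp i).1 (hpr p hp i).2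
    omega
  -- the part with given labels
  have h1 : ∀ β : ι → Lb S₀, LN S₀ J3 β →
      |(((Fintype.piFinset C).filter fun p => (fun i => lb S₀ (p i)) = β ∧
          Gd θ (S₀ ∪ univ.image p)).card : ℝ) -
        eta * (((Fintype.piFinset C).filter fun p => (fun i => lb S₀ (p i)) = β).card : ℝ)| ≤
      ε * (((Fintype.piFinset C).filter fun p => (fun i => lb S₀ (p i)) = β).card : ℝ) + R := by
    intro β hβ
    by_cases hemp : ((Fintype.piFinset C).filter fun p => (fun i => lb S₀ (p i)) = β) = ∅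
    · have he2 : ((Fintype.piFinset C).filter fun p => (fun i => lb S₀ (p i)) = β ∧
          Gd θ (S₀ ∪ univ.image p)) = ∅ := by
        rw [← Finset.filter_filter, hemp, Finset.filter_empty]
      rw [he2, hemp]
      simpa using hR0
    obtain ⟨p₀, hp₀⟩ := Finset.nonempty_iff_ne_empty.2 hemp
    rw [Finset.mem_filter] at hp₀
    obtain ⟨hp₀, hp₀β⟩ := hp₀
    set C' : ι → Finset ℕ := fun i => (C i).filter fun q => lb S₀ q = β i with hC'
    have hpi : (Fintype.piFinset C).filter (fun p => (fun i => lb S₀ (p i)) = β) =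
        Fintype.piFinset C' := by
      ext p
      simp only [Finset.mem_filter, Fintype.mem_piFinset, hC']
      constructor
      · rintro ⟨h2, h3⟩ i
        exact ⟨h2 i, congrFun h3 i⟩
      · intro h2
        exact ⟨fun i => (h2 i).1, funext fun i => (h2 i).2⟩
    have hgood : (dt S₀ J3 β).Good θ := by
      refine ⟨?_, ?_, ?_, ?_⟩
      · intro u v huv
        exact recip (hS₀ u u.2).1 (hS₀ u u.2).2 (hS₀ v v.2).1 (hS₀ v v.2).2
          fun h => huv (Subtype.ext h)
      · intro u l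
        rw [← hp₀β]
        show nr u (p₀ l) + nr (p₀ l) u = b4 u * (if l ∈ J3 then 1 else 0)
        rw [b4_eq (hJ3 p₀ hp₀) l]
        exact recip (hS₀ u u.2).1 (hS₀ u u.2).2 (hpr p₀ hp₀ l).1 (hpr p₀ hp₀ l).2
          fun h => hd p₀ hp₀ l (by rw [← h]; exact u.2)
      · intro hθ
        show ∑ u : S₀, b4 u + ∑ l : ι, (if l ∈ J3 then (1 : ZMod 2) else 0) = 0
        rw [cast_card_filter, Finset.sum_ite_mem, Finset.univ_inter, Finset.sum_const,
          nsmul_eq_mul, mul_one, ← Nat.cast_add]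
        rw [ZMod.natCast_eq_zero_iff_even]
        exact Nat.even_iff.2 (hpar hθ)
      · intro w w₀ hw
        obtain ⟨k, hk, hk2⟩ := hβ w w₀ hw
        exact ⟨k, if_neg hk, hk2⟩
    have hc3 : (univ.filter fun l => (dt S₀ J3 β).bJ l = 1).card = J3.card := by
      have : (univ.filter fun l => (dt S₀ J3 β).bJ l = 1) = J3 := by
        ext l
        rw [Finset.mem_filter]
        show l ∈ univ ∧ (if l ∈ J3 then (1 : ZMod 2) else 0) = 1 ↔ l ∈ J3
        by_cases h : l ∈ J3
        · simp [h]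
        · simp [h]
      rw [this]
    have h2 := hLA θ S₀ ι (dt S₀ J3 β) hgood (by rw [hc3, Fintype.card_coe]; omega)
    set Q : (prs (univ : Finset ι) → ZMod 2) → Prop := fun α => GdL θ (dt S₀ J3 β) α with hQ
    have h3 := hEQ ι univ C' X κ hκ
      (fun i => (Finset.card_le_card (Finset.filter_subset _ _)).trans (hCX i))
      (HB_sub hHB fun i q => lb S₀ q = β i) (fun α => Q (α + sh J3))
    rw [card_sh] at h3
    have h4 : ((Fintype.piFinset C).filter fun p => (fun i => lb S₀ (p i)) = β ∧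
        Gd θ (S₀ ∪ univ.image p)) = ((Fintype.piFinset C').filter fun p =>
          Q ((fun e => nr (p e.1.1) (p e.1.2)) + sh J3)) := by
      rw [← hpi, Finset.filter_filter]
      refine Finset.filter_congr fun p hp => ?_
      refine and_congr_right fun hl => ?_
      rw [gd_iff θ (hinj p hp) (hpr p hp) (hd p hp) (hJ3 p hp),
        ← sh_eq (hinj p hp) (hpr p hp) (hJ3 p hp)]
      subst hl
      exact Iff.rfl
    have h5 : (((Fintype.piFinset C').card : ℕ) : ℝ) = ∏ j, ((C' j).card : ℝ) := by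
      rw [Fintype.card_piFinset]
      push_cast
      rfl
    rw [h4, hpi, h5]
    set n : ℝ := (((Fintype.piFinset C').filter fun p =>
          Q ((fun e => nr (p e.1.1) (p e.1.2)) + sh J3)).card : ℝ) with hn
    set q : ℝ := ((univ.filter Q).card : ℝ) / 2 ^ (prs (univ : Finset ι)).card with hq
    set P : ℝ := ∏ j, ((C' j).card : ℝ) with hP
    have h2' : |q - eta| ≤ ε := h2
    have hP0 : 0 ≤ P := Finset.prod_nonneg fun j _ => by positivity
    have h6 : |n - eta * P| ≤ |n - q * P| + |q - eta| * P := by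
      have h7 : n - eta * P = (n - q * P) + (q - eta) * P := by ring
      have h8 : |(q - eta) * P| = |q - eta| * P := by rw [abs_mul, abs_of_nonneg hP0]
      rw [h7, ← h8]
      exact abs_add_le _ _
    have h7 : |q - eta| * P ≤ ε * P := mul_le_mul_of_nonneg_right h2' hP0
    have h8 : |n - q * P| ≤ R := h3
    linarith
  -- sum over the labels
  set LL := univ.filter (fun β : ι → Lb S₀ => LN S₀ J3 β) with hLL
  have hfib : ∀ T : (ι → ℕ) → Prop,
      (((Fintype.piFinset C).filter fun p => Nd (insert 2 S₀) (univ.image p) ∧ T p).card : ℝ) =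
      ∑ β ∈ LL, (((Fintype.piFinset C).filter fun p =>
        (fun i => lb S₀ (p i)) = β ∧ T p).card : ℝ) := by
    intro T
    rw [Finset.card_eq_sum_card_fiberwise (f := fun (p : ι → ℕ) (i : ι) => lb S₀ (p i))
      (t := LL) (by
        intro p hp
        rw [Finset.mem_coe, Finset.mem_filter] at hp
        rw [Finset.mem_coe, hLL, Finset.mem_filter]
        exact ⟨Finset.mem_univ _, (nd_iff h2S (hJ p hp.1)).1 hp.2.1⟩)]
    push_cast
    refine Finset.sum_congr rfl fun β hβ => ?_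
    rw [hLL, Finset.mem_filter] at hβ
    congr 2
    ext p
    simp only [Finset.mem_filter]
    constructor
    · rintro ⟨⟨h3, h4, h4'⟩, h5⟩
      exact ⟨h3, h5, h4'⟩
    · rintro ⟨h3, h4, h5⟩
      refine ⟨⟨h3, ?_, h5⟩, h4⟩
      rw [nd_iff h2S (hJ p h3), h4]
      exact hβ.2
  have hf1 := hfib fun p => Gd θ (S₀ ∪ univ.image p)
  have hf2 := hfib fun _ => True
  simp only [and_true] at hf2
  rw [hf1, hf2, Finset.mul_sum, ← Finset.sum_sub_distrib]
  refine (Finset.abs_sum_le_sum_abs _ _).trans ?_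
  refine (Finset.sum_le_sum fun β hβ => h1 β (Finset.mem_filter.1 hβ).2).trans ?_
  rw [Finset.sum_add_distrib, ← Finset.mul_sum, Finset.sum_const, nsmul_eq_mul]
  have h5 : ((LL.card : ℕ) : ℝ) ≤ 2 ^ ((2 * S₀.card + 2) * Fintype.card ι) := by
    have h6 : LL.card ≤ Fintype.card (ι → Lb S₀) := Finset.card_le_univ _
    rw [Fintype.card_fun, Fintype.card_prod, Fintype.card_prod, Fintype.card_fun, ZMod.card,
      Fintype.card_coe, ← pow_succ, ← pow_add, ← pow_mul] at h6
    have h7 : 2 ^ ((S₀.card + (S₀.card + 1)) * Fintype.card ι) ≤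
        2 ^ ((2 * S₀.card + 2) * Fintype.card ι) := by
      refine Nat.pow_le_pow_right (by norm_num) (Nat.mul_le_mul_right _ (by omega))
    exact_mod_cast h6.trans h7
  have h6 := mul_le_mul_of_nonneg_right h5 hR0
  rw [pow_add, mul_assoc]
  linarith

end Pool.Agent.NH3.XE
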