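import Pool.Agent.NH3.XE.Stm
import Pool.Agent.NH3.XD.HAL

/-!
# XE-HAL: the logarithmic density for a quadratic character, the prime `2` allowed (helper73)

Adaptation of `Pool.Agent.NH3.XD.HAL`: for `2 ∈ W` the second character is the product of the character
modulo `8` and of the Jacobi symbol of the odd primes of `W`.
-/

set_option autoImplicit false

open scoped Classical

namespace Pool.Agent.NH3.XE.HAL

open Finset
open Pool.Agent.Y703.CQ (nr)
open Pool.Agent.Y475.CQ (c0 c1 cJ c0_mod c1_mod cJ_mod leg main_le sum_zero tsum_le part_le zeta_le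
  pow_small)

/-- the two characters -/
noncomputable def ee (Q : ℕ) : Fin 2 → (ℕ →* ℝ) := ![c0, c1 * cJ Q]

theorem ee_zero (Q n : ℕ) : ee Q 0 n = c0 n := rfl

theorem ee_one (Q n : ℕ) : ee Q 1 n = c1 n * cJ Q n := rfl

theorem c1_val (n : ℕ) : c1 n = 0 ∨ c1 n = 1 ∨ c1 n = -1 := by
  have : ∀ z : ZMod 8, ZMod.χ₈ z = 0 ∨ ZMod.χ₈ z = 1 ∨ ZMod.χ₈ z = -1 := by decide
  rcases this (n : ZMod 8) with h | h | h
  · left; show ((ZMod.χ₈ (n : ZMod 8) : ℤ) : ℝ) = 0; rw [h]; simp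
  · right; left; show ((ZMod.χ₈ (n : ZMod 8) : ℤ) : ℝ) = 1; rw [h]; simp
  · right; right; show ((ZMod.χ₈ (n : ZMod 8) : ℤ) : ℝ) = -1; rw [h]; simp

theorem cJ_val (M n : ℕ) : cJ M n = 0 ∨ cJ M n = 1 ∨ cJ M n = -1 := by
  rcases jacobiSym.trichotomy (n : ℤ) M with h | h | h
  · left; show ((jacobiSym (n : ℤ) M : ℤ) : ℝ) = 0; rw [h]; simp
  · right; left; show ((jacobiSym (n : ℤ) M : ℤ) : ℝ) = 1; rw [h]; simp
  · right; right; show ((jacobiSym (n : ℤ) M : ℤ) : ℝ) = -1; rw [h]; simp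

theorem ee_val (Q : ℕ) (i : Fin 2) (n : ℕ) : ee Q i n = 0 ∨ ee Q i n = 1 ∨ ee Q i n = -1 := by
  fin_cases i
  · show ((ZMod.χ₄ (n : ZMod 4) : ℤ) : ℝ) = 0 ∨ _ = 1 ∨ _ = -1
    have : ∀ z : ZMod 4, ZMod.χ₄ z = 0 ∨ ZMod.χ₄ z = 1 ∨ ZMod.χ₄ z = -1 := by decide
    rcases this (n : ZMod 4) with h | h | h
    · left; rw [h]; simp
    · right; left; show ((ZMod.χ₄ (n : ZMod 4) : ℤ) : ℝ) = 1; rw [h]; simp
    · right; right; show ((ZMod.χ₄ (n : ZMod 4) : ℤ) : ℝ) = -1; rw [h]; simp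
  · show c1 n * cJ Q n = 0 ∨ c1 n * cJ Q n = 1 ∨ c1 n * cJ Q n = -1
    rcases c1_val n with h | h | h <;> rcases cJ_val Q n with h' | h' | h' <;> rw [h, h'] <;> norm_num

/-- congruent modulo the period -/
theorem ee_mod (Q : ℕ) (V : Finset (Fin 2)) (a b : ℕ) (h4 : a ≡ b [MOD 4])
    (hM : (1 : Fin 2) ∈ V → a ≡ b [MOD 8] ∧ a ≡ b [MOD Q]) :
    (∏ i ∈ V, ee Q i) a = (∏ i ∈ V, ee Q i) b := by
  rw [MonoidHom.finsetProd_apply, MonoidHom.finsetProd_apply]
  refine prod_congr rfl fun i hi => ?_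
  fin_cases i
  · exact c0_mod a b h4
  · show c1 a * cJ Q a = c1 b * cJ Q b
    rw [c1_mod a b (hM hi).1, cJ_mod Q a b (hM hi).2]

theorem abs_ee (Q : ℕ) (V : Finset (Fin 2)) (n : ℕ) : |(∏ i ∈ V, ee Q i) n| ≤ 1 := by
  rw [MonoidHom.finsetProd_apply, abs_prod]
  refine prod_le_one (fun _ _ => abs_nonneg _) fun i _ => ?_
  rcases ee_val Q i n with h | h | h <;> rw [h] <;> norm_num

/-- the product is `-1` if one character is `-1` and the others are one -/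
theorem prod_neg (Q : ℕ) (V : Finset (Fin 2)) (j : Fin 2) (hj : j ∈ V) (k : ℕ)
    (h1 : ee Q j k = -1) (h2 : ∀ i ∈ V, i ≠ j → ee Q i k = 1) : (∏ i ∈ V, ee Q i) k = -1 := by
  rw [MonoidHom.finsetProd_apply, prod_eq_single_of_mem j hj h2, h1]

/-- a number congruent to five modulo 8 and to one modulo `Q` -/
theorem exE (Q : ℕ) (h8 : Nat.Coprime 8 Q) :
    ∃ k : ℕ, k ≡ 5 [MOD 8] ∧ k ≡ 1 [MOD Q] ∧ Nat.Coprime k (8 * Q) := by
  obtain ⟨k, hk1, hk2⟩ := Nat.chineseRemainder h8 5 1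
  refine ⟨k, hk1, hk2, Nat.Coprime.mul_right ?_ ?_⟩
  · have := hk1.gcd_eq
    exact this.trans (by norm_num)
  · have := hk2.gcd_eq
    rw [Nat.gcd_one_left] at this
    exact this

/-- the bounds of the L-functions -/
theorem L_le (Q : ℕ) (hQ : 1 ≤ Q) (h8 : Nat.Coprime 8 Q)
    (V : Finset (Fin 2)) (hV : V.Nonempty) (σ : ℝ) (hσ : 1 < σ) :
    ∑' n : ℕ, (∏ i ∈ V, ee Q i) n * (n : ℝ) ^ (-σ) ≤
      if (1 : Fin 2) ∈ V then 20 * Real.log ((2 * Q : ℕ) : ℝ) else 10 := by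
  have hl4 : Real.log ((4 : ℕ) : ℝ) ≤ 2 := by
    have h2 : Real.log ((4 : ℕ) : ℝ) = 2 * Real.log 2 := by
      rw [← Real.log_rpow (by norm_num)]
      norm_num
    have h3 := Real.log_two_lt_d9
    linarith
  obtain ⟨k, hk1, hk2, hk3⟩ := exE Q h8
  split_ifs with h3
  · have hq : 1 ≤ 8 * Q := by omega
    have hper : ∀ n, (∏ i ∈ V, ee Q i) (8 * Q + n) = (∏ i ∈ V, ee Q i) n := by
      intro n
      have e8 : 8 * Q + n ≡ n [MOD 8] := by
        show (8 * Q + n) % 8 = n % 8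
        rw [Nat.mul_add_mod]
      refine ee_mod Q V _ _ (e8.of_dvd (by norm_num)) fun _ => ⟨e8, ?_⟩
      show (8 * Q + n) % Q = n % Q
      rw [mul_comm 8 Q, Nat.mul_add_mod]
    have hkneg : (∏ i ∈ V, ee Q i) k = -1 := by
      refine prod_neg Q V 1 h3 k ?_ fun i hi h => ?_
      · rw [ee_one, c1_mod k 5 hk1, cJ_mod Q k 1 hk2, map_one, mul_one]
        show ((ZMod.χ₈ ((5 : ℕ) : ZMod 8) : ℤ) : ℝ) = -1
        have a1 : ZMod.χ₈ ((5 : ℕ) : ZMod 8) = -1 := by decide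
        rw [a1]; simp
      · fin_cases i
        · show c0 k = 1
          have hk4 : k ≡ 1 [MOD 4] := (hk1.of_dvd (by norm_num : 4 ∣ 8)).trans (show 5 % 4 = 1 % 4 by norm_num)
          rw [c0_mod k 1 hk4, map_one]
        · exact absurd rfl h
    have hz := sum_zero (∏ i ∈ V, ee Q i) (8 * Q) hq hper k hk3 hkneg
    have h5 := tsum_le (fun n => (∏ i ∈ V, ee Q i) n) (8 * Q) hq (abs_ee Q V)
      (part_le _ (8 * Q) hq (abs_ee Q V) hper hz) σ hσ
    refine h5.trans ?_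
    have hQ0 : (2 : ℝ) ≤ ((2 * Q : ℕ) : ℝ) := by exact_mod_cast (by omega : 2 ≤ 2 * Q)
    have e8 : ((8 * Q : ℕ) : ℝ) = ((4 : ℕ) : ℝ) * ((2 * Q : ℕ) : ℝ) := by push_cast; ring
    rw [e8, Real.log_mul (by norm_num) (by linarith)]
    have h6 : Real.log 2 ≤ Real.log ((2 * Q : ℕ) : ℝ) := Real.log_le_log (by norm_num) hQ0
    have h7 := Real.log_two_gt_d9
    linarith
  · have hV0 : (0 : Fin 2) ∈ V := by
      obtain ⟨j, hj⟩ := hV
      fin_cases j
      · exact hj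
      · exact absurd hj h3
    have hper : ∀ n, (∏ i ∈ V, ee Q i) (4 + n) = (∏ i ∈ V, ee Q i) n := by
      intro n
      refine ee_mod Q V _ _ ?_ fun h => absurd h h3
      show (4 + n) % 4 = n % 4
      rw [Nat.add_mod_left]
    have hkneg : (∏ i ∈ V, ee Q i) 3 = -1 := by
      refine prod_neg Q V 0 hV0 3 ?_ fun i hi h => ?_
      · show ((ZMod.χ₄ ((3 : ℕ) : ZMod 4) : ℤ) : ℝ) = -1
        have a1 : ZMod.χ₄ ((3 : ℕ) : ZMod 4) = -1 := by decide
        rw [a1]; simp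
      · fin_cases i
        · exact absurd rfl h
        · exact absurd hi h3
    have hz := sum_zero (∏ i ∈ V, ee Q i) 4 (by norm_num) hper 3 (by norm_num) hkneg
    have h5 := tsum_le (fun n => (∏ i ∈ V, ee Q i) n) 4 (by norm_num) (abs_ee Q V)
      (part_le _ 4 (by norm_num) (abs_ee Q V) hper hz) σ hσ
    refine h5.trans ?_
    linarith

/-- the Jacobi symbol of a split prime -/
theorem jac (p : ℕ) (h1 : p.Prime) (h4 : p % 4 = 1) (W' : Finset ℕ)
    (hp : ∀ u ∈ W', u.Prime ∧ u ≠ 2) (hpW : p ∉ W') :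
    jacobiSym (p : ℤ) (∏ u ∈ W', u) = if ∑ u ∈ W', nr p u = 0 then 1 else -1 := by
  have hpf : Fact p.Prime := ⟨h1⟩
  induction W' using Finset.induction_on with
  | empty => simp
  | insert a s ha ih =>
    have hap := (hp a (mem_insert_self a s)).1
    have ha2 := (hp a (mem_insert_self a s)).2
    have ihs := ih (fun u hu => hp u (mem_insert_of_mem hu)) fun h => hpW (mem_insert_of_mem h)
    have haf : Fact a.Prime := ⟨hap⟩
    have : NeZero a := ⟨hap.ne_zero⟩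
    have : NeZero (∏ u ∈ s, u) := ⟨by
      rw [prod_ne_zero_iff]
      intro u hu
      exact (hp u (mem_insert_of_mem hu)).1.ne_zero⟩
    rw [prod_insert ha, sum_insert ha, jacobiSym.mul_right, ihs]
    have hodd : Odd a := hap.odd_of_ne_two ha2
    have hrec : jacobiSym (p : ℤ) a = jacobiSym (a : ℤ) p :=
      jacobiSym.quadratic_reciprocity_one_mod_four (by omega) hodd
    have hne : ((a : ℤ) : ZMod p) ≠ 0 := by
      intro h0
      rw [Int.cast_natCast, ZMod.natCast_eq_zero_iff] at h0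
      have := (Nat.prime_dvd_prime_iff_eq h1 hap).1 h0
      exact hpW (this ▸ mem_insert_self a s)
    have hval : jacobiSym (p : ℤ) a = if nr p a = 0 then 1 else -1 := by
      rw [hrec, leg]
      unfold nr
      by_cases hsq : IsSquare (a : ZMod p)
      · rw [if_pos hsq, if_pos rfl]
        exact (legendreSym.eq_one_iff p hne).2 (by rwa [Int.cast_natCast])
      · rw [if_neg hsq, if_neg (by decide)]
        exact (legendreSym.eq_neg_one_iff p).2 (by rwa [Int.cast_natCast])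
    rw [hval]
    have hz : ∀ x y : ZMod 2, (if x = 0 then (1 : ℤ) else -1) * (if y = 0 then 1 else -1) =
        if x + y = 0 then 1 else -1 := by decide
    exact hz _ _

/-- the character modulo 8 of a prime which is one modulo 4 -/
theorem two_val (p : ℕ) (h1 : p.Prime) (h4 : p % 4 = 1) :
    c1 p = if nr p 2 = 0 then 1 else -1 := by
  have hpf : Fact p.Prime := ⟨h1⟩
  have hp2 : p ≠ 2 := by omega
  have hiff := ZMod.exists_sq_eq_two_iff (p := p) hp2
  have e2 : ((2 : ℕ) : ZMod p) = 2 := by norm_num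
  unfold nr
  rw [e2]
  rcases (by omega : p % 8 = 1 ∨ p % 8 = 5) with h | h
  · rw [if_pos (hiff.2 (Or.inl h)), if_pos rfl, c1_mod p 1 (show p % 8 = 1 % 8 by omega), map_one]
  · have hn : ¬ IsSquare (2 : ZMod p) := by
      intro h'
      rcases hiff.1 h' with h'' | h'' <;> omega
    rw [if_neg hn, if_neg (by decide), c1_mod p 5 (show p % 8 = 5 % 8 by omega)]
    show ((ZMod.χ₈ ((5 : ℕ) : ZMod 8) : ℤ) : ℝ) = -1
    have a1 : ZMod.χ₈ ((5 : ℕ) : ZMod 8) = -1 := by decide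
    rw [a1]; simp

/-- the symbols of a split prime -/
theorem ee_split (W' : Finset ℕ) (hp : ∀ u ∈ W', u.Prime ∧ u ≠ 2) (p : ℕ) (h1 : p.Prime)
    (h4 : p % 4 = 1) (hpW : p ∉ W') (hs : nr p 2 + ∑ u ∈ W', nr p u = 0) (i : Fin 2) :
    ee (∏ u ∈ W', u) i p = 1 := by
  fin_cases i
  · show c0 p = 1
    rw [c0_mod p 1 (show p % 4 = 1 % 4 by omega), map_one]
  · show c1 p * cJ (∏ u ∈ W', u) p = 1
    have e1 : cJ (∏ u ∈ W', u) p = ((jacobiSym (p : ℤ) (∏ u ∈ W', u) : ℤ) : ℝ) := rfl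
    rw [two_val p h1 h4, e1, jac p h1 h4 W' hp hpW]
    generalize nr p 2 = x at hs
    generalize ∑ u ∈ W', nr p u = y at hs
    have hz : ∀ x y : ZMod 2, x + y = 0 → x = y := by decide
    rw [hz x y hs]
    split_ifs <;> norm_num

/-- the case `2 ∈ W` -/
theorem two_case (W : Finset ℕ) (T : ℕ) (h2W : 2 ∈ W) (hp : ∀ u ∈ W, u.Prime) (hT : 2 ≤ T) :
    ∑ S ∈ Pool.Agent.NH3.XD.HD W T, (1 : ℝ) / ((∏ p ∈ S, p : ℕ) : ℝ) ≤
    1000 * (Real.log ((∏ u ∈ W, u : ℕ) : ℝ)) ^ (1 / 2 : ℝ) * (Real.log T) ^ (1 / 4 : ℝ) := by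
  obtain ⟨W', hW'⟩ : ∃ W' : Finset ℕ, W' = W.erase 2 := ⟨_, rfl⟩
  have hp' : ∀ u ∈ W', u.Prime ∧ u ≠ 2 := by
    intro u hu
    rw [hW', mem_erase] at hu
    exact ⟨hp u hu.2, hu.1⟩
  have hsub' : W' ⊆ W := by rw [hW']; exact erase_subset _ _
  obtain ⟨Q, hQ⟩ : ∃ Q : ℕ, Q = ∏ u ∈ W', u := ⟨_, rfl⟩
  have hMQ : ∏ u ∈ W, u = 2 * Q := by
    rw [hQ, hW']
    exact (mul_prod_erase W (fun u => u) h2W).symm
  have hsW : ∀ p : ℕ, ∑ u ∈ W, nr p u = nr p 2 + ∑ u ∈ W', nr p u := by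
    intro p
    rw [hW']
    exact (add_sum_erase W (fun u => nr p u) h2W).symm
  have hQ1 : 1 ≤ Q := by
    rw [hQ]
    exact prod_pos fun u hu => (hp' u hu).1.pos
  have h8 : Nat.Coprime 8 Q := by
    rw [hQ, Nat.coprime_prod_right_iff]
    intro u hu
    have h2u : Nat.Coprime 2 u :=
      (Nat.coprime_primes Nat.prime_two (hp' u hu).1).2 (hp' u hu).2.symm
    exact Nat.Coprime.pow_left 3 h2u
  rw [hMQ]
  have lT : 0 < Real.log T := Real.log_pos (by exact_mod_cast (by omega : 1 < T))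
  obtain ⟨σ, hσd⟩ : ∃ σ : ℝ, σ = 1 + 1 / Real.log T := ⟨_, rfl⟩
  have hσ : 1 < σ := by
    rw [hσd]
    have : 0 < 1 / Real.log T := by positivity
    linarith
  obtain ⟨P, hPd⟩ : ∃ P : Finset ℕ, P = (range (T + 1)).filter
    (fun p => p.Prime ∧ p % 4 = 1 ∧ p ∉ W ∧ ∑ u ∈ W, nr p u = 0) := ⟨_, rfl⟩
  have hP : ∀ p ∈ P, p.Prime ∧ p % 4 = 1 ∧ p ∉ W ∧ ∑ u ∈ W, nr p u = 0 := by
    intro p hp'
    rw [hPd, mem_filter] at hp'
    exact hp'.2
  have hmain := main_le (ee Q) (univ : Finset (Fin 2)) (fun i _ n => ee_val Q i n) σ hσ P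
    (fun p h => (hP p h).1) (fun i _ p h => by
      rw [hQ]
      exact ee_split W' hp' p (hP p h).1 (hP p h).2.1 (fun h' => (hP p h).2.2.1 (hsub' h'))
        ((hsW p).symm.trans (hP p h).2.2.2) i)
  -- the product of the values
  have hM1 : 0 < Real.log ((2 * Q : ℕ) : ℝ) :=
    Real.log_pos (by exact_mod_cast (by omega : 1 < 2 * Q))
  have hlog2 := Real.log_two_gt_d9
  have lT2 : Real.log 2 ≤ Real.log T := Real.log_le_log (by norm_num) (by exact_mod_cast hT)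
  have hprod : ∏ V ∈ (univ : Finset (Fin 2)).powerset,
      ∑' n : ℕ, (∏ i ∈ V, ee Q i) n * (n : ℝ) ^ (-σ) ≤
      3 * Real.log T * 4000 * (Real.log ((2 * Q : ℕ) : ℝ)) ^ 2 := by
    have h1 : ∏ V ∈ (univ : Finset (Fin 2)).powerset,
        ∑' n : ℕ, (∏ i ∈ V, ee Q i) n * (n : ℝ) ^ (-σ) ≤
        ∏ V ∈ (univ : Finset (Fin 2)).powerset, (if V = ∅ then 3 * Real.log T else
          if (1 : Fin 2) ∈ V then 20 * Real.log ((2 * Q : ℕ) : ℝ) else 10) := by
      refine prod_le_prod (fun V hV => hmain.2 V hV) fun V _ => ?_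
      by_cases hVe : V = ∅
      · rw [if_pos hVe, hVe]
        have e : ∑' n : ℕ, (∏ i ∈ (∅ : Finset (Fin 2)), ee Q i) n * (n : ℝ) ^ (-σ) =
            ∑' n : ℕ, (1 : ℝ) * (n : ℝ) ^ (-σ) := by
          refine tsum_congr fun n => ?_
          rw [prod_empty]
          rfl
        rw [e]
        refine (zeta_le σ hσ).trans ?_
        have e2 : 1 / (σ - 1) = Real.log T := by
          rw [hσd]
          field_simp
          ring
        rw [e2]
        linarith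
      · rw [if_neg hVe]
        exact L_le Q hQ1 h8 V (nonempty_iff_ne_empty.2 hVe) σ hσ
    refine h1.trans (le_of_eq ?_)
    rw [prod_ite, prod_ite, prod_const, prod_const, prod_const]
    have c1 : (filter (fun V : Finset (Fin 2) => V = ∅) univ.powerset).card = 1 := by decide
    have c2 : (filter (fun V : Finset (Fin 2) => (1 : Fin 2) ∈ V)
      (filter (fun V : Finset (Fin 2) => ¬ V = ∅) univ.powerset)).card = 2 := by decide
    have c3 : (filter (fun V : Finset (Fin 2) => (1 : Fin 2) ∉ V)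
      (filter (fun V : Finset (Fin 2) => ¬ V = ∅) univ.powerset)).card = 1 := by decide
    rw [c1, c2, c3]
    ring
  have hbig := hmain.1.trans hprod
  have hc : 2 ^ (univ : Finset (Fin 2)).card = 4 := by decide
  rw [hc] at hbig
  -- the sum
  have hx : ∀ p ∈ P, 0 < (p : ℝ) ^ (-σ) ∧ (p : ℝ) ^ (-σ) < 1 := fun p h =>
    pow_small p (hP p h).1.two_le σ hσ
  have hsum : ∑ S ∈ Pool.Agent.NH3.XD.HD W T, (1 : ℝ) / ((∏ p ∈ S, p : ℕ) : ℝ) ≤
      3 * ∏ p ∈ P, (1 - (p : ℝ) ^ (-σ))⁻¹ := by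
    have s1 : ∑ S ∈ Pool.Agent.NH3.XD.HD W T, (1 : ℝ) / ((∏ p ∈ S, p : ℕ) : ℝ) ≤
        ∑ S ∈ P.powerset, 3 * ∏ p ∈ S, (p : ℝ) ^ (-σ) := by
      have hsub : Pool.Agent.NH3.XD.HD W T ⊆ P.powerset := by
        intro S hS
        unfold Pool.Agent.NH3.XD.HD at hS
        rw [mem_filter, mem_powerset] at hS
        rw [mem_powerset]
        intro p hpS
        rw [hPd, mem_filter]
        exact ⟨hS.1 hpS, hS.2.1 p hpS⟩
      refine le_trans (sum_le_sum fun S hS => ?_) (sum_le_sum_of_subset_of_nonneg hsub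
        fun S hS _ => ?_)
      · have hSP := hsub hS
        rw [mem_powerset] at hSP
        unfold Pool.Agent.NH3.XD.HD at hS
        rw [mem_filter] at hS
        have hle := hS.2.2
        have hpos : 0 < ∏ p ∈ S, p := prod_pos fun p h => (hP p (hSP h)).1.pos
        have e : ∏ p ∈ S, (p : ℝ) ^ (-σ) = ((∏ p ∈ S, p : ℕ) : ℝ) ^ (-σ) := by
          rw [Nat.cast_prod, Real.finsetProd_rpow]
          intro p _
          exact Nat.cast_nonneg p
        rw [e]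
        generalize ∏ p ∈ S, p = N at hle hpos ⊢
        have hN : (0 : ℝ) < (N : ℝ) := by exact_mod_cast hpos
        have hNT : (N : ℝ) ≤ (T : ℝ) := by exact_mod_cast hle
        have h2 : (N : ℝ) ^ (σ - 1) ≤ 3 := by
          have a1 : (N : ℝ) ^ (σ - 1) = Real.exp (Real.log N * (σ - 1)) :=
            Real.rpow_def_of_pos hN _
          have a2 : Real.log N * (σ - 1) ≤ 1 := by
            have a3 : σ - 1 = 1 / Real.log T := by rw [hσd]; ring
            rw [a3, mul_one_div, div_le_one lT]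
            exact Real.log_le_log hN hNT
          rw [a1]
          exact (Real.exp_le_exp.2 a2).trans (Real.exp_one_lt_d9.le.trans (by norm_num))
        have h3 : (N : ℝ) ^ (σ - 1) * (N : ℝ) ^ (-σ) = 1 / N := by
          rw [← Real.rpow_add hN]
          have : σ - 1 + -σ = -1 := by ring
          rw [this, Real.rpow_neg_one, one_div]
        rw [← h3]
        exact mul_le_mul_of_nonneg_right h2 (Real.rpow_nonneg hN.le _)
      · refine mul_nonneg (by norm_num) (prod_nonneg fun p _ => Real.rpow_nonneg (Nat.cast_nonneg _) _)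
    refine s1.trans ?_
    rw [← mul_sum, ← prod_one_add]
    refine mul_le_mul_of_nonneg_left (prod_le_prod (fun p h => ?_) fun p h => ?_) (by norm_num)
    · have := (hx p h).1
      positivity
    · obtain ⟨a1, a2⟩ := hx p h
      rw [← one_div, le_div_iff₀ (by linarith)]
      nlinarith
  generalize ∏ p ∈ P, (1 - (p : ℝ) ^ (-σ))⁻¹ = R at hbig hsum
  have hH0 : 0 ≤ ∑ S ∈ Pool.Agent.NH3.XD.HD W T, (1 : ℝ) / ((∏ p ∈ S, p : ℕ) : ℝ) :=
    sum_nonneg fun S _ => by positivity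
  generalize ∑ S ∈ Pool.Agent.NH3.XD.HD W T, (1 : ℝ) / ((∏ p ∈ S, p : ℕ) : ℝ) = H at hsum hH0 ⊢
  generalize Real.log ((2 * Q : ℕ) : ℝ) = Y at hbig hM1 ⊢
  apply le_of_pow_le_pow_left₀ (n := 4) (by norm_num) (by positivity)
  have e1 : (1000 * Y ^ (1 / 2 : ℝ) * Real.log T ^ (1 / 4 : ℝ)) ^ 4 =
      1000 ^ 4 * Y ^ 2 * Real.log T := by
    rw [mul_pow, mul_pow, ← Real.rpow_natCast (Y ^ (1 / 2 : ℝ)), ← Real.rpow_mul hM1.le,
      ← Real.rpow_natCast (Real.log T ^ (1 / 4 : ℝ)), ← Real.rpow_mul lT.le]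
    have e2 : Y ^ ((1 / 2 : ℝ) * ((4 : ℕ) : ℝ)) = Y ^ 2 := by
      rw [← Real.rpow_natCast Y 2]
      norm_num
    rw [e2]
    norm_num
  rw [e1]
  calc H ^ 4 ≤ (3 * R) ^ 4 := pow_le_pow_left₀ hH0 hsum 4
    _ = 3 ^ 4 * R ^ 4 := by ring
    _ ≤ 3 ^ 4 * (3 * Real.log T * 4000 * Y ^ 2) := by
        exact mul_le_mul_of_nonneg_left hbig (by norm_num)
    _ = (3 ^ 5 * 4000) * (Y ^ 2 * Real.log T) := by ring
    _ ≤ 1000 ^ 4 * (Y ^ 2 * Real.log T) := by
        apply mul_le_mul_of_nonneg_right (by norm_num) (by positivity)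
    _ = 1000 ^ 4 * Y ^ 2 * Real.log T := by ring

end Pool.Agent.NH3.XE.HAL

namespace Pool.Agent.NH3.XE

open Finset

theorem t_EHAL : S_EHAL := by
  obtain ⟨C, hC1, hC⟩ := Pool.Agent.NH3.XD.t_XHAL
  refine ⟨max C 1000, le_max_of_le_left hC1, fun W T hW hp hT => ?_⟩
  have hlM : 0 ≤ Real.log ((∏ u ∈ W, u : ℕ) : ℝ) := Real.log_natCast_nonneg _
  have hlT : 0 ≤ Real.log (T : ℝ) := Real.log_natCast_nonneg _
  have hA : 0 ≤ (Real.log ((∏ u ∈ W, u : ℕ) : ℝ)) ^ (1 / 2 : ℝ) := Real.rpow_nonneg hlM _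
  have hB : 0 ≤ (Real.log (T : ℝ)) ^ (1 / 4 : ℝ) := Real.rpow_nonneg hlT _
  by_cases h2 : 2 ∈ W
  · refine (HAL.two_case W T h2 hp hT).trans ?_
    exact mul_le_mul_of_nonneg_right (mul_le_mul_of_nonneg_right (le_max_right _ _) hA) hB
  · refine (hC W T hW (fun u hu => ⟨hp u hu, fun h => h2 (h ▸ hu)⟩) hT).trans ?_
    exact mul_le_mul_of_nonneg_right (mul_le_mul_of_nonneg_right (le_max_left _ _) hA) hB

end Pool.Agent.NH3.XE
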