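import Pool.Agent.NH3.XE.Gen
import Pool.Agent.NH3.XD.Dens
import Pool.Agent.NH4.XJ.LOW
import Pool.Agent.XW.Odd
import Pool.Agent.XW.T.Stm

/-!
# The natural density of `4`-rank zero among the imaginary quadratic fields in which `3` splits and `5`
is inert: the three types of discriminants together

`D = -N`, `-4 N`, `-8 N`, `N` odd. The law for the weighted union (the type `j` up to `X / w j`).
-/

set_option autoImplicit false

open scoped Classical

namespace Pool.Agent.NH3.XE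

open Finset Filter Topology
open Pool.Agent.NH5.PR (eta t_ETA)
open Pool.Agent.NH3.XD (cZ cZ_mono cZ_congr ratio_sum card_iff dens f_XDEN low_class Ok t_SQF cop_mod dens_60)
open Pool.Agent.NH4.XJ (OkJ)

/-! ### one residue class -/

/-- the event for the type `j` -/
def Gj (j : Fin 3) (N : ℕ) : Prop :=
  if j = 0 then XD.Gd N.primeFactors else if j = 1 then Gd 0 N.primeFactors else Gd 1 N.primeFactors

/-- the parameters for the type `j` -/
def Okj (j : Fin 3) (M r : ℕ) : Prop := OkJ M r ∧ (j = 0 → r % 4 = 3) ∧ (j = 1 → r % 4 = 1)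

/-- the squarefree numbers in a class -/
noncomputable def cl (M r X : ℕ) : ℕ := ((Icc 1 X).filter fun N => Squarefree N ∧ N % M = r).card

/-- the good squarefree numbers in a class -/
noncomputable def gl (j : Fin 3) (M r X : ℕ) : ℕ :=
  ((Icc 1 X).filter fun N => Squarefree N ∧ N % M = r ∧ Gj j N).card

theorem law_j (hE : S_EDEN) {j : Fin 3} {M r : ℕ} (h : Okj j M r) :
    Tendsto (fun X : ℕ => (gl j M r X : ℝ) / (cl M r X : ℝ)) atTop (𝓝 eta) := by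
  obtain ⟨h1, h2, h3⟩ := h
  unfold gl cl
  fin_cases j
  · have := f_XDEN M r ⟨h1.1, h1.2.1, h1.2.2.1, h1.2.2.2, h2 rfl⟩
    refine this.congr fun X => ?_
    congr 2
  · have := hE 0 M r ⟨h1, fun _ => h3 rfl⟩
    refine this.congr fun X => ?_
    congr 2
  · have := hE 1 M r ⟨h1, fun h => absurd h (by decide)⟩
    refine this.congr fun X => ?_
    congr 2

theorem low_j {j : Fin 3} {M r : ℕ} (h : Okj j M r) : ∃ (c : ℝ) (X₀ : ℕ), 0 < c ∧ ∀ X : ℕ, X₀ ≤ X →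
    c * X ≤ (cl M r X : ℝ) := by
  obtain ⟨c, X₀, hc, g⟩ := Pool.Agent.NH4.XJ.t_XJLOW M r h.1
  refine ⟨c, X₀, hc, fun X hX => (g X hX).trans (le_of_eq ?_)⟩
  have e2 := XD.LowX.card_eq M r h.1.2.2.2 X (fun _ => True)
  rw [Finset.filter_true] at e2
  simp only [and_true] at e2
  rw [← e2]
  rfl

theorem pos_j {j : Fin 3} {M r : ℕ} (h : Okj j M r) : ∀ᶠ X : ℕ in atTop, (0 : ℝ) < (cl M r X : ℝ) := by
  obtain ⟨c, X₀, hc, g⟩ := low_j h
  filter_upwards [eventually_ge_atTop (max X₀ 1)] with X hX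
  refine lt_of_lt_of_le ?_ (g X ((le_max_left _ _).trans hX))
  have : (1 : ℝ) ≤ X := by exact_mod_cast (le_max_right X₀ 1).trans hX
  positivity

theorem dens_j {j : Fin 3} {M r : ℕ} (h : Okj j M r) :
    Tendsto (fun X : ℕ => (cl M r X : ℝ) / X) atTop (𝓝 (dens M)) := by
  have := t_SQF M r h.1.1 h.1.2.2.2
  simp only [Nat.mod_eq_of_lt h.1.2.2.1] at this
  exact this

/-! ### the weighted unions -/

/-- a union of classes for each type -/
def OkW (M : ℕ) (R : Fin 3 → Finset ℕ) : Prop :=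
  (∀ j, ∀ r ∈ R j, Okj j M r) ∧ ∃ j, (R j).Nonempty

/-- the number of the elements of the weighted union with the property `Q` -/
noncomputable def cW (w : Fin 3 → ℕ) (M : ℕ) (R : Fin 3 → Finset ℕ) (Q : Fin 3 → ℕ → Prop) (X : ℕ) : ℕ :=
  ∑ j, ((Icc 1 (X / w j)).filter fun N => Squarefree N ∧ N % M ∈ R j ∧ Q j N).card

theorem cW_eq (w : Fin 3 → ℕ) (M : ℕ) (R : Fin 3 → Finset ℕ) (Q : Fin 3 → ℕ → Prop) (X : ℕ) :
    cW w M R Q X = ∑ i ∈ (univ : Finset (Fin 3)).sigma R,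
      ((Icc 1 (X / w i.1)).filter fun N => Squarefree N ∧ N % M = i.2 ∧ Q i.1 N).card := by
  unfold cW
  rw [Finset.sum_sigma]
  refine Finset.sum_congr rfl fun j _ => ?_
  exact XD.cN_eq M (R j) (Q j) (X / w j)

theorem tend_div {k : ℕ} (hk : 0 < k) : Tendsto (fun X : ℕ => X / k) atTop atTop :=
  Nat.tendsto_div_const_atTop hk.ne'

/-- **the law for a weighted union** -/
theorem law_W (hE : S_EDEN) {w : Fin 3 → ℕ} (hw : ∀ j, 0 < w j) {M : ℕ} {R : Fin 3 → Finset ℕ}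
    (h : OkW M R) :
    Tendsto (fun X : ℕ => (cW w M R Gj X : ℝ) / (cW w M R (fun _ _ => True) X : ℝ)) atTop (𝓝 eta) := by
  have hne : ((univ : Finset (Fin 3)).sigma R).Nonempty := by
    obtain ⟨j, r, hr⟩ := h.2
    exact ⟨⟨j, r⟩, Finset.mem_sigma.2 ⟨mem_univ _, hr⟩⟩
  have h1 := ratio_sum ((univ : Finset (Fin 3)).sigma R) hne
    (fun i X => (gl i.1 M i.2 (X / w i.1) : ℝ)) (fun i X => (cl M i.2 (X / w i.1) : ℝ)) eta
    (fun i hi => (law_j hE (h.1 i.1 i.2 (Finset.mem_sigma.1 hi).2)).comp (tend_div (hw i.1)))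
    (fun i hi => (tend_div (hw i.1)).eventually (pos_j (h.1 i.1 i.2 (Finset.mem_sigma.1 hi).2)))
  refine h1.congr fun X => ?_
  rw [cW_eq, cW_eq]
  push_cast
  simp only [and_true]
  rfl

theorem div_tend {k : ℕ} (hk : 0 < k) : Tendsto (fun X : ℕ => ((X / k : ℕ) : ℝ) / X) atTop
    (𝓝 (1 / k)) := by
  have h1 : Tendsto (fun X : ℕ => (X : ℝ) / k) atTop atTop :=
    tendsto_natCast_atTop_atTop.atTop_div_const (by exact_mod_cast hk)
  have h2 := (tendsto_nat_floor_div_atTop (R := ℝ)).comp h1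
  have h3 := h2.mul_const (1 / (k : ℝ))
  rw [one_mul] at h3
  refine h3.congr' ?_
  filter_upwards [eventually_ge_atTop 1] with X hX
  have hX' : (X : ℝ) ≠ 0 := by exact_mod_cast (by omega : X ≠ 0)
  have hk' : (k : ℝ) ≠ 0 := by exact_mod_cast hk.ne'
  simp only [Function.comp_apply]
  rw [Nat.floor_div_natCast, Nat.floor_natCast]
  field_simp

/-- the density of the weighted union -/
theorem dens_W {w : Fin 3 → ℕ} (hw : ∀ j, 0 < w j) {M : ℕ} {R : Fin 3 → Finset ℕ}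
    (h : OkW M R) :
    Tendsto (fun X : ℕ => (cW w M R (fun _ _ => True) X : ℝ) / X) atTop
      (𝓝 (∑ j, ((R j).card : ℝ) / w j * dens M)) := by
  have h1 : ∀ i ∈ (univ : Finset (Fin 3)).sigma R, Tendsto (fun X : ℕ =>
      (cl M i.2 (X / w i.1) : ℝ) / X) atTop (𝓝 (dens M * (1 / w i.1))) := by
    intro i hi
    have h2 := (dens_j (h.1 i.1 i.2 (Finset.mem_sigma.1 hi).2)).comp (tend_div (hw i.1))
    have h3 := h2.mul (div_tend (hw i.1))
    refine h3.congr' ?_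
    filter_upwards [eventually_ge_atTop (w i.1)] with X hX
    have h4 : 0 < X / w i.1 := Nat.div_pos hX (hw i.1)
    have h5 : ((X / w i.1 : ℕ) : ℝ) ≠ 0 := by exact_mod_cast h4.ne'
    have h6 : (X : ℝ) ≠ 0 := by
      have := hw i.1
      exact_mod_cast (by omega : X ≠ 0)
    simp only [Function.comp_apply]
    field_simp
  have h2 := tendsto_finsetSum _ h1
  have e : ∑ i ∈ (univ : Finset (Fin 3)).sigma R, dens M * (1 / (w i.1 : ℝ)) =
      ∑ j, ((R j).card : ℝ) / w j * dens M := by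
    rw [Finset.sum_sigma]
    refine Finset.sum_congr rfl fun j _ => ?_
    refine (Finset.sum_const (s := R j) (dens M * (1 / (w j : ℝ)))).trans ?_
    rw [nsmul_eq_mul]
    ring
  rw [e] at h2
  refine h2.congr fun X => ?_
  rw [cW_eq, ← Finset.sum_div]
  push_cast
  simp only [and_true]
  rfl

/-! ### the discriminants -/

/-- the imaginary quadratic fields in which `3` splits and `5` is inert, by the discriminant -/
def FD (D : ℤ) : Prop := D < 0 ∧ ((D % 4 = 1 ∧ Squarefree D) ∨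
  (D % 4 = 0 ∧ Squarefree (D / 4) ∧ ((D / 4) % 4 = 2 ∨ (D / 4) % 4 = 3))) ∧
  D % 3 = 1 ∧ (D % 5 = 2 ∨ D % 5 = 3)

/-- the prime discriminant at `2` -/
def dl (D : ℤ) : ℤ := if (D / 4) % 4 = 3 then -4 else if (D / 8) % 4 = 1 then 8 else -8

/-- the `4`-rank of the class group is zero -/
def KrF (D : ℤ) : Prop := XW.Kr (dl D) D.natAbs.primeFactors

/-- the three types -/
def kj (j : Fin 3) : ℕ := if j = 0 then 1 else if j = 1 then 4 else 8

theorem kj_pos (j : Fin 3) : 0 < kj j := by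
  fin_cases j <;> norm_num [kj]

/-- the type of a discriminant -/
def ty (D : ℤ) : Fin 3 := if D % 4 = 1 then 0 else if D % 16 = 12 then 1 else 2

/-- the residue classes -/
noncomputable def Rj (m : ℕ) (T : Finset ℤ) (j : Fin 3) : Finset ℕ :=
  (range (60 * m)).filter fun r => Nat.Coprime r (60 * m) ∧ (j = 0 → r % 4 = 3) ∧ (j = 1 → r % 4 = 1) ∧
    (j ≠ 0 → m % 2 = 1) ∧ (-((kj j * r : ℕ) : ℤ)) % 3 = 1 ∧
    ((-((kj j * r : ℕ) : ℤ)) % 5 = 2 ∨ (-((kj j * r : ℕ) : ℤ)) % 5 = 3) ∧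
    (-((kj j * r : ℕ) : ℤ)) % m ∈ T

theorem mem_Rj {m : ℕ} {T : Finset ℤ} {j : Fin 3} {r : ℕ} :
    r ∈ Rj m T j ↔ r < 60 * m ∧ Nat.Coprime r (60 * m) ∧ (j = 0 → r % 4 = 3) ∧ (j = 1 → r % 4 = 1) ∧
    (j ≠ 0 → m % 2 = 1) ∧ (-((kj j * r : ℕ) : ℤ)) % 3 = 1 ∧
    ((-((kj j * r : ℕ) : ℤ)) % 5 = 2 ∨ (-((kj j * r : ℕ) : ℤ)) % 5 = 3) ∧
    (-((kj j * r : ℕ) : ℤ)) % m ∈ T := by
  rw [Rj, mem_filter, mem_range]

theorem okj_of {m : ℕ} (hm : 0 < m) {T : Finset ℤ} {j : Fin 3} {r : ℕ} (h : r ∈ Rj m T j) :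
    Okj j (60 * m) r := by
  rw [mem_Rj] at h
  exact ⟨⟨by positivity, Dvd.dvd.mul_right (by norm_num) m, h.1, h.2.1⟩, h.2.2.1, h.2.2.2.1⟩

theorem j3 : ∀ j : Fin 3, j = 0 ∨ j = 1 ∨ j = 2 := by decide

theorem cop60 {N : ℕ} : Nat.Coprime N 60 ↔ N % 2 = 1 ∧ N % 3 ≠ 0 ∧ N % 5 ≠ 0 := by
  rw [← cop_mod]
  have : ∀ a < 60, Nat.Coprime a 60 ↔ a % 2 = 1 ∧ a % 3 ≠ 0 ∧ a % 5 ≠ 0 := by decide
  rw [this _ (Nat.mod_lt _ (by norm_num)), Nat.mod_mod_of_dvd _ (by norm_num),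
    Nat.mod_mod_of_dvd _ (by norm_num), Nat.mod_mod_of_dvd _ (by norm_num)]

theorem sq2 {n : ℕ} (hn : n % 2 = 1) : Squarefree (2 * n) ↔ Squarefree n := by
  have hc : Nat.Coprime 2 n := (Nat.Prime.coprime_iff_not_dvd Nat.prime_two).2 (by omega)
  rw [Nat.squarefree_mul hc]
  exact and_iff_right Nat.prime_two.squarefree

theorem sq2' {n : ℕ} (h : Squarefree (2 * n)) : n % 2 = 1 := by
  by_contra h2
  have h3 : 2 * 2 ∣ 2 * n := Nat.mul_dvd_mul_left 2 (by omega)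
  have := h 2 h3
  rw [Nat.isUnit_iff] at this
  omega

theorem fd0 {N : ℕ} : (FD (-(N : ℤ)) ∧ ty (-(N : ℤ)) = 0) ↔
    (Squarefree N ∧ Nat.Coprime N 60 ∧ N % 4 = 3 ∧ (-(N : ℤ)) % 3 = 1 ∧
      ((-(N : ℤ)) % 5 = 2 ∨ (-(N : ℤ)) % 5 = 3)) := by
  rw [cop60]
  unfold FD ty
  rw [XD.sqf_neg]
  constructor
  · rintro ⟨⟨h1, h2, h3, h4⟩, h5⟩
    have h6 : (-(N : ℤ)) % 4 = 1 := by
      by_contra h
      rw [if_neg h] at h5
      split_ifs at h5 <;> exact absurd h5 (by decide)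
    rcases h2 with h2 | h2
    · exact ⟨h2.2, by omega, by omega, h3, h4⟩
    · omega
  · rintro ⟨h1, h2, h3, h4, h5⟩
    have h6 : (-(N : ℤ)) % 4 = 1 := by omega
    exact ⟨⟨by omega, Or.inl ⟨h6, h1⟩, h4, h5⟩, if_pos h6⟩

theorem fd1 {N : ℕ} : (FD (-((4 * N : ℕ) : ℤ)) ∧ ty (-((4 * N : ℕ) : ℤ)) = 1) ↔
    (Squarefree N ∧ Nat.Coprime N 60 ∧ N % 4 = 1 ∧ (-((4 * N : ℕ) : ℤ)) % 3 = 1 ∧
      ((-((4 * N : ℕ) : ℤ)) % 5 = 2 ∨ (-((4 * N : ℕ) : ℤ)) % 5 = 3)) := by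
  rw [cop60]
  unfold FD ty
  have e : (-((4 * N : ℕ) : ℤ)) / 4 = -(N : ℤ) := by omega
  rw [e]
  have h0 : ¬ (-((4 * N : ℕ) : ℤ)) % 4 = 1 := by omega
  rw [if_neg h0]
  constructor
  · rintro ⟨⟨h1, h2, h3, h4⟩, h5⟩
    have h6 : (-((4 * N : ℕ) : ℤ)) % 16 = 12 := by
      by_contra h
      rw [if_neg h] at h5
      exact absurd h5 (by decide)
    rcases h2 with h2 | h2
    · omega
    · exact ⟨(XD.sqf_neg _).1 h2.2.1, by omega, by omega, h3, h4⟩
  · rintro ⟨h1, h2, h3, h4, h5⟩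
    have h6 : (-((4 * N : ℕ) : ℤ)) % 16 = 12 := by omega
    exact ⟨⟨by omega, Or.inr ⟨by omega, (XD.sqf_neg _).2 h1, by omega⟩, h4, h5⟩, if_pos h6⟩

theorem fd2 {N : ℕ} : (FD (-((8 * N : ℕ) : ℤ)) ∧ ty (-((8 * N : ℕ) : ℤ)) = 2) ↔
    (Squarefree N ∧ Nat.Coprime N 60 ∧ (-((8 * N : ℕ) : ℤ)) % 3 = 1 ∧
      ((-((8 * N : ℕ) : ℤ)) % 5 = 2 ∨ (-((8 * N : ℕ) : ℤ)) % 5 = 3)) := by
  rw [cop60]
  unfold FD ty
  have e : (-((8 * N : ℕ) : ℤ)) / 4 = -((2 * N : ℕ) : ℤ) := by omega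
  rw [e]
  have h0 : ¬ (-((8 * N : ℕ) : ℤ)) % 4 = 1 := by omega
  have h8 : ¬ (-((8 * N : ℕ) : ℤ)) % 16 = 12 := by omega
  rw [if_neg h0, if_neg h8]
  constructor
  · rintro ⟨⟨h1, h2, h3, h4⟩, h5⟩
    rcases h2 with h2 | h2
    · omega
    · have h7 := (XD.sqf_neg _).1 h2.2.1
      have h6 := sq2' h7
      exact ⟨(sq2 h6).1 h7, by omega, h3, h4⟩
  · rintro ⟨h1, h2, h4, h5⟩
    exact ⟨⟨by omega, Or.inr ⟨by omega, (XD.sqf_neg _).2 ((sq2 h2.1).2 h1), by omega⟩, h4, h5⟩, rfl⟩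

/-- `FD` in terms of `N` -/
theorem fd_iff {j : Fin 3} {N : ℕ} :
    (FD (-((kj j * N : ℕ) : ℤ)) ∧ ty (-((kj j * N : ℕ) : ℤ)) = j) ↔
    (Squarefree N ∧ Nat.Coprime N 60 ∧ (j = 0 → N % 4 = 3) ∧ (j = 1 → N % 4 = 1) ∧
      (-((kj j * N : ℕ) : ℤ)) % 3 = 1 ∧
      ((-((kj j * N : ℕ) : ℤ)) % 5 = 2 ∨ (-((kj j * N : ℕ) : ℤ)) % 5 = 3)) := by
  have hj := j3 j
  rcases hj with rfl | rfl | rfl
  · have e : kj 0 * N = N := by
      unfold kj
      rw [if_pos rfl, one_mul]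
    rw [e, fd0]
    simp
  · have e : kj 1 * N = 4 * N := by
      unfold kj
      rw [if_neg (by decide), if_pos rfl]
    rw [e, fd1]
    simp
  · have e : kj 2 * N = 8 * N := by
      unfold kj
      rw [if_neg (by decide), if_neg (by decide)]
    rw [e, fd2]
    simp

theorem kj_cop {m : ℕ} (j : Fin 3) : Nat.Coprime (kj j) m ↔ (j ≠ 0 → m % 2 = 1) := by
  have hj := j3 j
  have h2 : ∀ k : ℕ, 0 < k → (Nat.Coprime (2 ^ k) m ↔ m % 2 = 1) := by
    intro k hk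
    rw [Nat.coprime_pow_left_iff hk, Nat.Prime.coprime_iff_not_dvd Nat.prime_two]
    omega
  rcases hj with rfl | rfl | rfl
  · have e : kj 0 = 1 := rfl
    rw [e]
    simp
  · have e : kj 1 = 2 ^ 2 := rfl
    rw [e, h2 2 (by norm_num)]
    simp
  · have e : kj 2 = 2 ^ 3 := rfl
    rw [e, h2 3 (by norm_num)]
    simp

/-- the family in terms of `N` -/
theorem fam_iff {m : ℕ} (hm : 0 < m) {T : Finset ℤ} {j : Fin 3} {N : ℕ} :
    ((FD (-((kj j * N : ℕ) : ℤ)) ∧ Int.gcd (-((kj j * N : ℕ) : ℤ)) m = 1 ∧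
      (-((kj j * N : ℕ) : ℤ)) % m ∈ T) ∧ ty (-((kj j * N : ℕ) : ℤ)) = j) ↔
      Squarefree N ∧ N % (60 * m) ∈ Rj m T j := by
  have h60 : 60 ∣ 60 * m := dvd_mul_right _ _
  have hmm : m ∣ 60 * m := dvd_mul_left _ _
  have key : ∀ n : ℕ, n ∣ 60 * m → (-((kj j * (N % (60 * m)) : ℕ) : ℤ)) % n =
      (-((kj j * N : ℕ) : ℤ)) % n := by
    intro n hn
    refine Int.ModEq.neg ?_
    push_cast
    refine Int.ModEq.mul_left _ ?_
    exact (Int.mod_modEq _ _).of_dvd (by exact_mod_cast hn)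
  have e3 := key 3 (dvd_trans (by norm_num) h60)
  have e5 := key 5 (dvd_trans (by norm_num) h60)
  have em := key m hmm
  push_cast at e3 e5
  have e2 : Int.gcd (-((kj j * N : ℕ) : ℤ)) m = 1 ↔ (j ≠ 0 → m % 2 = 1) ∧ Nat.Coprime N m := by
    rw [Int.gcd_eq_natAbs_gcd_natAbs, Int.natAbs_neg, Int.natAbs_natCast, Int.natAbs_natCast,
      ← kj_cop]
    exact Nat.coprime_mul_iff_left
  have e4 : N % (60 * m) % 4 = N % 4 := Nat.mod_mod_of_dvd _ (dvd_trans (by norm_num) h60)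
  have ec : Nat.Coprime (N % (60 * m)) (60 * m) ↔ Nat.Coprime N 60 ∧ Nat.Coprime N m := by
    rw [cop_mod, Nat.coprime_mul_iff_right]
  rw [mem_Rj, em, ec, e4, e2]
  push_cast
  rw [e3, e5]
  have hf := @fd_iff j N
  push_cast at hf
  constructor
  · rintro ⟨⟨h1, ⟨h2, h3⟩, h4⟩, h5⟩
    obtain ⟨g1, g2, g3, g4, g5, g6⟩ := hf.1 ⟨h1, h5⟩
    exact ⟨g1, Nat.mod_lt _ (by positivity), ⟨g2, h3⟩, g3, g4, h2, g5, g6, h4⟩
  · rintro ⟨g1, _, ⟨g2, h3⟩, g3, g4, h2, g5, g6, h4⟩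
    obtain ⟨h1, h5⟩ := hf.2 ⟨g1, g2, g3, g4, g5, g6⟩
    exact ⟨⟨h1, ⟨h2, h3⟩, h4⟩, h5⟩

/-! ### the counting -/

/-- the number of the integers `D = - k N`, `|D| ≤ X` -/
theorem cZ_k {k : ℕ} (hk : 0 < k) (Q : ℤ → Prop) (hQ : ∀ D, Q D → D < 0 ∧ (k : ℤ) ∣ D) (X : ℕ) :
    cZ Q X = ((Icc 1 (X / k)).filter fun N : ℕ => Q (-((k * N : ℕ) : ℤ))).card := by
  unfold cZ
  have hk' : (0 : ℤ) < k := by exact_mod_cast hk
  refine Finset.card_bij' (fun D _ => D.natAbs / k) (fun N _ => -((k * N : ℕ) : ℤ)) ?_ ?_ ?_ ?_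
  · intro D hD
    rw [mem_filter, mem_Icc] at hD
    obtain ⟨h1, d, rfl⟩ := hQ D hD.2
    have hd : d < 0 := by
      by_contra h
      have := mul_nonneg hk'.le (not_lt.1 h)
      omega
    have e1 : ((k : ℤ) * d).natAbs = k * d.natAbs := by
      rw [Int.natAbs_mul, Int.natAbs_natCast]
    have e2 : -((k * d.natAbs : ℕ) : ℤ) = k * d := by
      push_cast
      rw [abs_of_neg hd]
      ring
    rw [mem_filter, mem_Icc, e1, Nat.mul_div_cancel_left _ hk, e2]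
    refine ⟨⟨by omega, ?_⟩, hD.2⟩
    rw [Nat.le_div_iff_mul_le hk, mul_comm]
    have := hD.1.1
    rw [← e2] at this
    omega
  · intro N hN
    rw [mem_filter, mem_Icc] at hN ⊢
    have h2 := hN.1.2
    rw [Nat.le_div_iff_mul_le hk, mul_comm] at h2
    exact ⟨⟨by omega, by omega⟩, hN.2⟩
  · intro D hD
    obtain ⟨h1, d, rfl⟩ := hQ D (mem_filter.1 hD).2
    have hd : d < 0 := by
      by_contra h
      have := mul_nonneg hk'.le (not_lt.1 h)
      omega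
    have e1 : ((k : ℤ) * d).natAbs = k * d.natAbs := by
      rw [Int.natAbs_mul, Int.natAbs_natCast]
    show -((k * (((k : ℤ) * d).natAbs / k) : ℕ) : ℤ) = k * d
    rw [e1, Nat.mul_div_cancel_left _ hk]
    push_cast
    rw [abs_of_neg hd]
    ring
  · intro N _
    show (-((k * N : ℕ) : ℤ)).natAbs / k = N
    rw [Int.natAbs_neg, Int.natAbs_natCast, Nat.mul_div_cancel_left _ hk]

theorem cZ_ty (Q : ℤ → Prop) (X : ℕ) : cZ Q X = ∑ j, cZ (fun D => Q D ∧ ty D = j) X := by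
  unfold cZ
  rw [Finset.card_eq_sum_card_fiberwise (f := ty) (t := univ) (fun _ _ => Finset.mem_coe.2 (mem_univ _))]
  refine Finset.sum_congr rfl fun j _ => ?_
  exact (congrArg Finset.card (Finset.filter_filter _ _ _)).trans (card_iff fun _ _ => Iff.rfl)

theorem kj_dvd {D : ℤ} (h : FD D) {j : Fin 3} (hj : ty D = j) : (kj j : ℤ) ∣ D := by
  unfold ty at hj
  unfold kj
  obtain ⟨h1, h2, h3⟩ := h
  split_ifs at hj with h4 h5
  · subst hj
    simp
  · subst hj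
    have : (4 : ℤ) ∣ D := by omega
    simpa using this
  · subst hj
    have h6 : (8 : ℤ) ∣ D := by
      rcases h2 with h2 | h2
      · exact absurd h2.1 h4
      · have : D % 16 = 8 := by omega
        omega
    have h7 : ¬ ((2 : Fin 3) = 0) := by decide
    have h8 : ¬ ((2 : Fin 3) = 1) := by decide
    rw [if_neg h7, if_neg h8]
    exact_mod_cast h6

/-- **the counting of the family** -/
theorem cZ_fam {m : ℕ} (hm : 0 < m) (T : Finset ℤ) (Q : ℤ → Prop) (X : ℕ) :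
    cZ (fun D => (FD D ∧ Int.gcd D m = 1 ∧ D % m ∈ T) ∧ Q D) X =
      cW kj (60 * m) (Rj m T) (fun j N => Q (-((kj j * N : ℕ) : ℤ))) X := by
  rw [cZ_ty]
  unfold cW
  refine Finset.sum_congr rfl fun j _ => ?_
  rw [cZ_k (kj_pos j) _ (fun D hD => ⟨hD.1.1.1.1, kj_dvd hD.1.1.1 hD.2⟩)]
  refine card_iff fun N _ => ?_
  have h := @fam_iff m hm T j N
  constructor
  · rintro ⟨⟨h1, h2⟩, h3⟩
    obtain ⟨h4, h5⟩ := h.1 ⟨h1, h3⟩
    exact ⟨h4, h5, h2⟩
  · rintro ⟨h4, h5, h2⟩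
    obtain ⟨h1, h3⟩ := h.2 ⟨h4, h5⟩
    exact ⟨⟨h1, h2⟩, h3⟩

/-- the `4`-rank in terms of `N` -/
theorem krF_iff {m : ℕ} {T : Finset ℤ} {j : Fin 3} {N : ℕ} (hs : Squarefree N)
    (hN : N % (60 * m) ∈ Rj m T j) : KrF (-((kj j * N : ℕ) : ℤ)) ↔ Gj j N := by
  have h60 : 60 ∣ 60 * m := dvd_mul_right _ _
  rw [mem_Rj] at hN
  obtain ⟨h1, h2, h3, h4, _, _, _, _⟩ := hN
  rw [cop_mod, Nat.coprime_mul_iff_right, cop60] at h2
  have e4 : N % (60 * m) % 4 = N % 4 := Nat.mod_mod_of_dvd _ (dvd_trans (by norm_num) h60)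
  rw [e4] at h3 h4
  have hp : ∀ p ∈ N.primeFactors, p.Prime ∧ p ≠ 2 ∧ p ≠ 3 ∧ p ≠ 5 := by
    intro p hp
    have hd := Nat.dvd_of_mem_primeFactors hp
    refine ⟨Nat.prime_of_mem_primeFactors hp, ?_, ?_, ?_⟩
    · rintro rfl
      omega
    · rintro rfl
      omega
    · rintro rfl
      omega
  have hN0 : N ≠ 0 := hs.ne_zero
  have hj := j3 j
  unfold KrF Gj
  rw [Int.natAbs_neg, Int.natAbs_natCast]
  rcases hj with rfl | rfl | rfl
  · have e : kj 0 * N = N := by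
      unfold kj
      rw [if_pos rfl, one_mul]
    rw [e, if_pos rfl, XW.Od.Kr_odd (fun p h => ⟨(hp p h).1, (hp p h).2.2⟩) (fun h => (hp 2 h).2.1 rfl)]
    exact XD.kr_iff fun p h => ⟨(hp p h).1, (hp p h).2.1⟩
  · have e : kj 1 * N = 2 ^ 2 * N := by
      unfold kj
      rw [if_neg (by decide), if_pos rfl]
      norm_num
    have h5 := h4 rfl
    have e2 : (2 ^ 2 * N).primeFactors = insert 2 N.primeFactors := by
      rw [Nat.primeFactors_mul (by norm_num) hN0, Nat.primeFactors_prime_pow (by norm_num) Nat.prime_two]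
      rfl
    have e3 : dl (-((2 ^ 2 * N : ℕ) : ℤ)) = -4 := by
      unfold dl
      rw [if_pos]
      omega
    rw [e, e2, e3, if_neg (by decide), if_pos rfl, kr_iff_gd (Or.inl rfl) fun p h =>
      ⟨(hp p h).1, (hp p h).2.1⟩]
    unfold tb
    rw [if_pos rfl]
  · have e : kj 2 * N = 2 ^ 3 * N := by
      unfold kj
      rw [if_neg (by decide), if_neg (by decide)]
      norm_num
    have e2 : (2 ^ 3 * N).primeFactors = insert 2 N.primeFactors := by
      rw [Nat.primeFactors_mul (by norm_num) hN0, Nat.primeFactors_prime_pow (by norm_num) Nat.prime_two]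
      rfl
    have e3 : dl (-((2 ^ 3 * N : ℕ) : ℤ)) = 8 ∨ dl (-((2 ^ 3 * N : ℕ) : ℤ)) = -8 := by
      unfold dl
      rw [if_neg (by omega)]
      split_ifs
      · exact Or.inl rfl
      · exact Or.inr rfl
    rw [e, e2, if_neg (by decide), if_neg (by decide), kr_iff_gd (Or.inr e3) fun p h =>
      ⟨(hp p h).1, (hp p h).2.1⟩]
    unfold tb
    rw [if_neg]
    rcases e3 with e3 | e3 <;> rw [e3] <;> norm_num

theorem okW_of {m : ℕ} (hm : 0 < m) {T : Finset ℤ} (h : ∃ D, FD D ∧ Int.gcd D m = 1 ∧ D % m ∈ T) :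
    OkW (60 * m) (Rj m T) := by
  refine ⟨fun j r hr => okj_of hm hr, ?_⟩
  obtain ⟨D, h1⟩ := h
  obtain ⟨d, hd⟩ := kj_dvd h1.1 (rfl : ty D = ty D)
  have h0 : d < 0 := by
    by_contra hn
    have h2 := h1.1.1
    have := mul_nonneg (Int.natCast_nonneg (kj (ty D))) (not_lt.1 hn)
    omega
  have e : D = -((kj (ty D) * d.natAbs : ℕ) : ℤ) := by
    push_cast
    rw [abs_of_neg h0, mul_neg, neg_neg]
    exact hd
  have h2 := (@fam_iff m hm T (ty D) d.natAbs).1 (by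
    rw [← e]
    exact ⟨h1, rfl⟩)
  exact ⟨ty D, _, h2.2⟩

/-- a lower bound for the good elements of the weighted union -/
theorem low_W (hE : S_EDEN) {w : Fin 3 → ℕ} (hw : ∀ j, 0 < w j) {M : ℕ} {R : Fin 3 → Finset ℕ}
    (h : OkW M R) : ∃ (c : ℝ) (X₀ : ℕ), 0 < c ∧ ∀ X : ℕ, X₀ ≤ X → c * X ≤ (cW w M R Gj X : ℝ) := by
  have hd : 0 < ∑ j, ((R j).card : ℝ) / w j * dens M := by
    have hM : 0 < dens M := by
      obtain ⟨j, r, hr⟩ := h.2
      obtain ⟨c, X₀, hc, g⟩ := low_j (h.1 j r hr)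
      have h3 := dens_j (h.1 j r hr)
      refine lt_of_lt_of_le hc (ge_of_tendsto h3 ?_)
      filter_upwards [eventually_ge_atTop (max X₀ 1)] with X hX
      have h4 : (0 : ℝ) < X := by exact_mod_cast (lt_of_lt_of_le one_pos ((le_max_right X₀ 1).trans hX))
      rw [le_div_iff₀ h4]
      exact g X ((le_max_left _ _).trans hX)
    obtain ⟨j, r, hr⟩ := h.2
    refine Finset.sum_pos' (fun i _ => ?_) ⟨j, mem_univ _, ?_⟩
    · positivity
    · have h1 : (0 : ℝ) < (R j).card := by exact_mod_cast Finset.card_pos.2 ⟨r, hr⟩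
      have h2 : (0 : ℝ) < w j := by exact_mod_cast hw j
      positivity
  have h1 := (law_W hE hw h).mul (dens_W hw h)
  have h2 : 0 < eta * ∑ j, ((R j).card : ℝ) / w j * dens M := mul_pos t_ETA.2.1 hd
  have h3 := h1.eventually_const_lt (half_lt_self h2)
  obtain ⟨X₁, h4⟩ := Filter.eventually_atTop.1 h3
  refine ⟨_, max X₁ 1, half_pos h2, fun X hX => ?_⟩
  have g1 := (h4 X ((le_max_left _ _).trans hX)).le
  have g2 : (0 : ℝ) < X := by exact_mod_cast (lt_of_lt_of_le one_pos ((le_max_right X₁ 1).trans hX))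
  have g3 : (cW w M R Gj X : ℝ) / (cW w M R (fun _ _ => True) X : ℝ) *
      ((cW w M R (fun _ _ => True) X : ℝ) / X) ≤ (cW w M R Gj X : ℝ) / X := by
    by_cases h0 : (cW w M R (fun _ _ => True) X : ℝ) = 0
    · rw [h0, div_zero, zero_mul]
      positivity
    · rw [div_mul_div_cancel₀ h0]
  have g4 := g1.trans g3
  rwa [le_div_iff₀ g2] at g4

/-- **The law for the imaginary quadratic fields**, for every set of residue classes modulo `m` prime to
`m`, which contains a discriminant of the family. -/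
theorem law_F (hE : S_EDEN) {m : ℕ} (hm : 0 < m) (T : Finset ℤ)
    (h : ∃ D, FD D ∧ Int.gcd D m = 1 ∧ D % m ∈ T) :
    Tendsto (fun X : ℕ => (cZ (fun D => (FD D ∧ Int.gcd D m = 1 ∧ D % m ∈ T) ∧ KrF D) X : ℝ) /
      (cZ (fun D => FD D ∧ Int.gcd D m = 1 ∧ D % m ∈ T) X : ℝ)) atTop (𝓝 eta) ∧
    ∃ (c : ℝ) (X₀ : ℕ), 0 < c ∧ ∀ X : ℕ, X₀ ≤ X →
      c * X ≤ (cZ (fun D => (FD D ∧ Int.gcd D m = 1 ∧ D % m ∈ T) ∧ KrF D) X : ℝ) := by
  have hO := okW_of hm h
  have e1 : ∀ X : ℕ, cZ (fun D => FD D ∧ Int.gcd D m = 1 ∧ D % m ∈ T) X =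
      cW kj (60 * m) (Rj m T) (fun _ _ => True) X := by
    intro X
    rw [← cZ_fam hm T (fun _ => True)]
    exact cZ_congr (fun D => by rw [and_true]) X
  have e2 : ∀ X : ℕ, cZ (fun D => (FD D ∧ Int.gcd D m = 1 ∧ D % m ∈ T) ∧ KrF D) X =
      cW kj (60 * m) (Rj m T) Gj X := by
    intro X
    rw [cZ_fam hm T]
    unfold cW
    refine Finset.sum_congr rfl fun j _ => card_iff fun N _ => ?_
    refine and_congr_right fun hs => and_congr_right fun hN => ?_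
    exact krF_iff hs hN
  constructor
  · refine (law_W hE kj_pos hO).congr fun X => ?_
    rw [e1, e2]
  · obtain ⟨c, X₀, hc, g⟩ := low_W hE kj_pos hO
    refine ⟨c, X₀, hc, fun X hX => ?_⟩
    rw [e2]
    exact g X hX

/-- the density of the family -/
theorem dens_F {m : ℕ} (hm : 0 < m) (T : Finset ℤ) (h : ∃ D, FD D ∧ Int.gcd D m = 1 ∧ D % m ∈ T) :
    Tendsto (fun X : ℕ => (cZ (fun D => FD D ∧ Int.gcd D m = 1 ∧ D % m ∈ T) X : ℝ) / X) atTop
      (𝓝 (∑ j, ((Rj m T j).card : ℝ) / kj j * XD.dens (60 * m))) := by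
  have hO := okW_of hm h
  have e1 : ∀ X : ℕ, cZ (fun D => FD D ∧ Int.gcd D m = 1 ∧ D % m ∈ T) X =
      cW kj (60 * m) (Rj m T) (fun _ _ => True) X := by
    intro X
    rw [← cZ_fam hm T (fun _ => True)]
    exact cZ_congr (fun D => by rw [and_true]) X
  refine (dens_W kj_pos hO).congr fun X => ?_
  rw [e1]

/-! ### the discriminants prime to `m` -/

theorem all_T {m : ℕ} (hm : 0 < m) (D : ℤ) : D % m ∈ (Finset.range m).image (fun i : ℕ => (i : ℤ)) := by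
  have h1 : 0 ≤ D % (m : ℤ) := Int.emod_nonneg _ (by omega)
  have h2 : D % (m : ℤ) < m := Int.emod_lt_of_pos _ (by omega)
  rw [mem_image]
  exact ⟨(D % (m : ℤ)).toNat, mem_range.2 (by omega), by omega⟩

theorem ex_D {m : ℕ} (hm : 0 < m) : ∃ D, FD D ∧ Int.gcd D m = 1 := by
  obtain ⟨p, hp1, hp2, hp3⟩ := Nat.forall_exists_prime_gt_and_eq_mod
    (show IsUnit ((47 : ℕ) : ZMod 60) by exact (ZMod.isUnit_iff_coprime 47 60).2 (by norm_num)) m
  have hp4 : p % 60 = 47 := by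
    have := (ZMod.natCast_eq_natCast_iff' p 47 60).1 hp3
    simpa using this
  refine ⟨-(p : ℤ), ⟨by have := hp2.pos; omega, Or.inl ⟨by omega, ?_⟩, by omega, by omega⟩, ?_⟩
  · rw [XD.sqf_neg]
    exact hp2.squarefree
  · rw [Int.neg_gcd]
    have : Nat.Coprime p m := (Nat.Prime.coprime_iff_not_dvd hp2).2 fun hd =>
      absurd (Nat.le_of_dvd hm hd) (by omega)
    exact_mod_cast this

/-- the law for the discriminants prime to `m` -/
theorem law_Fm (hE : S_EDEN) {m : ℕ} (hm : 0 < m) :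
    Tendsto (fun X : ℕ => (cZ (fun D => (FD D ∧ Int.gcd D m = 1) ∧ KrF D) X : ℝ) /
      (cZ (fun D => FD D ∧ Int.gcd D m = 1) X : ℝ)) atTop (𝓝 eta) ∧
    ∃ (c : ℝ) (X₀ : ℕ), 0 < c ∧ ∀ X : ℕ, X₀ ≤ X →
      c * X ≤ (cZ (fun D => (FD D ∧ Int.gcd D m = 1) ∧ KrF D) X : ℝ) := by
  have hT := all_T hm
  obtain ⟨D, hD1, hD2⟩ := ex_D hm
  obtain ⟨h1, c, X₀, hc, h2⟩ := law_F hE hm _ ⟨D, hD1, hD2, hT D⟩
  have e1 : ∀ X, cZ (fun D => FD D ∧ Int.gcd D m = 1 ∧
      D % m ∈ (Finset.range m).image (fun i : ℕ => (i : ℤ))) X =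
      cZ (fun D => FD D ∧ Int.gcd D m = 1) X := fun X => cZ_congr (fun D => by
    simp only [hT D, and_true]) X
  have e2 : ∀ X, cZ (fun D => (FD D ∧ Int.gcd D m = 1 ∧
      D % m ∈ (Finset.range m).image (fun i : ℕ => (i : ℤ))) ∧ KrF D) X =
      cZ (fun D => (FD D ∧ Int.gcd D m = 1) ∧ KrF D) X := fun X => cZ_congr (fun D => by
    simp only [hT D, and_true]) X
  constructor
  · refine h1.congr fun X => ?_
    rw [e1, e2]
  · refine ⟨c, X₀, hc, fun X hX => ?_⟩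
    rw [← e2]
    exact h2 X hX

/-- **The law for all imaginary quadratic fields in which `3` splits and `5` is inert.** -/
theorem law_FD (hE : S_EDEN) :
    Tendsto (fun X : ℕ => (cZ (fun D => FD D ∧ KrF D) X : ℝ) / (cZ FD X : ℝ)) atTop (𝓝 eta) := by
  have h := (law_Fm hE one_pos).1
  have e1 : ∀ X, cZ (fun D => FD D ∧ Int.gcd D ((1 : ℕ) : ℤ) = 1) X = cZ FD X := fun X =>
    cZ_congr (fun D => by simp) X
  have e2 : ∀ X, cZ (fun D => (FD D ∧ Int.gcd D ((1 : ℕ) : ℤ) = 1) ∧ KrF D) X =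
      cZ (fun D => FD D ∧ KrF D) X := fun X => cZ_congr (fun D => by simp) X
  simpa only [e1, e2] using h

theorem cop_60 {r : ℕ} (h : r < 60) (h2 : r % 2 = 1) (h3 : r % 3 ≠ 0) (h5 : r % 5 ≠ 0) :
    Nat.Coprime r (60 * 1) := by
  rw [mul_one, cop60]
  exact ⟨h2, h3, h5⟩

theorem R0 : (Rj 1 {0} 0).card = 2 := by
  have : Rj 1 {0} 0 = {23, 47} := by
    ext r
    rw [mem_Rj]
    have e : kj 0 * r = r := by
      unfold kj
      rw [if_pos rfl, one_mul]
    rw [e]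
    simp only [mem_insert, mem_singleton, mul_one, Nat.cast_one, Int.emod_one, and_true, cop60]
    constructor
    · rintro ⟨h1, h2, h3, _, _, h4, h5⟩
      have := h3 trivial
      omega
    · rintro (rfl | rfl) <;> simp
  rw [this]
  rfl

theorem R1 : (Rj 1 {0} 1).card = 2 := by
  have : Rj 1 {0} 1 = {17, 53} := by
    ext r
    rw [mem_Rj]
    have e : kj 1 * r = 4 * r := by
      unfold kj
      rw [if_neg (by decide), if_pos rfl]
    rw [e]
    simp only [mem_insert, mem_singleton, mul_one, Nat.cast_one, Int.emod_one, and_true, cop60]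
    push_cast
    constructor
    · rintro ⟨h1, h2, _, h3, _, h4, h5⟩
      have := h3 trivial
      omega
    · rintro (rfl | rfl) <;> simp
  rw [this]
  rfl

theorem R2 : (Rj 1 {0} 2).card = 4 := by
  have : Rj 1 {0} 2 = {1, 19, 31, 49} := by
    ext r
    rw [mem_Rj]
    have e : kj 2 * r = 8 * r := by
      unfold kj
      rw [if_neg (by decide), if_neg (by decide)]
    rw [e]
    simp only [mem_insert, mem_singleton, mul_one, Nat.cast_one, Int.emod_one, and_true, cop60]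
    push_cast
    constructor
    · rintro ⟨h1, h2, _, _, _, h4, h5⟩
      omega
    · rintro (rfl | rfl | rfl | rfl) <;> simp
  rw [this]
  rfl

/-- **The density of the family.** -/
theorem dens_FD : Tendsto (fun X : ℕ => (cZ FD X : ℝ) / X) atTop (𝓝 (15 / (32 * Real.pi ^ 2))) := by
  obtain ⟨D, hD1, hD2⟩ := ex_D one_pos
  have h1 := dens_F one_pos {0} ⟨D, hD1, hD2, by simp⟩
  rw [Fin.sum_univ_three, R0, R1, R2, mul_one, dens_60] at h1
  have e : ((2 : ℕ) : ℝ) / (kj 0 : ℕ) * (5 / (32 * Real.pi ^ 2)) +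
      ((2 : ℕ) : ℝ) / (kj 1 : ℕ) * (5 / (32 * Real.pi ^ 2)) +
      ((4 : ℕ) : ℝ) / (kj 2 : ℕ) * (5 / (32 * Real.pi ^ 2)) = 15 / (32 * Real.pi ^ 2) := by
    have e0 : kj 0 = 1 := rfl
    have e1 : kj 1 = 4 := rfl
    have e2 : kj 2 = 8 := rfl
    have := Real.pi_ne_zero
    rw [e0, e1, e2]
    push_cast
    field_simp
    norm_num
  rw [e] at h1
  refine h1.congr fun X => ?_
  have e2 : cZ (fun D => FD D ∧ Int.gcd D ((1 : ℕ) : ℤ) = 1 ∧ D % ((1 : ℕ) : ℤ) ∈ ({0} : Finset ℤ)) X =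
      cZ FD X := cZ_congr (fun D => by simp) X
  rw [e2]

/-- **The density of the good discriminants.** -/
theorem dens_FD_Kr (hE : S_EDEN) : Tendsto (fun X : ℕ => (cZ (fun D => FD D ∧ KrF D) X : ℝ) / X) atTop
    (𝓝 (eta * (15 / (32 * Real.pi ^ 2)))) := by
  have h2 := (law_FD hE).mul dens_FD
  have h3 : ∀ᶠ X : ℕ in atTop, (0 : ℝ) < (cZ FD X : ℝ) / X :=
    dens_FD.eventually_const_lt (by positivity)
  refine h2.congr' ?_
  filter_upwards [h3] with X hX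
  have h4 : (cZ FD X : ℝ) ≠ 0 := by
    intro h0
    rw [h0, zero_div] at hX
    exact lt_irrefl _ hX
  field_simp

/-! ### the two kinds of discriminants -/

theorem fd_odd {D : ℤ} : (FD D ∧ D % 2 = 1) ↔ XD.DB D := by
  unfold FD XD.DB
  constructor
  · rintro ⟨⟨h1, h2, h3, h4⟩, h5⟩
    rcases h2 with h2 | h2
    · exact ⟨h1, h2.2, by omega⟩
    · omega
  · rintro ⟨h1, h2, h3⟩
    exact ⟨⟨h1, Or.inl ⟨by omega, h2⟩, by omega, by omega⟩, by omega⟩

theorem krF_odd {D : ℤ} (h : XD.DB D) : KrF D ↔ XD.KrD D := by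
  unfold KrF XD.KrD
  obtain ⟨h1, h2, h3⟩ := h
  have hp : ∀ p ∈ D.natAbs.primeFactors, p.Prime ∧ p ≠ 2 ∧ p ≠ 3 ∧ p ≠ 5 := by
    intro p hp
    have hd := Nat.dvd_of_mem_primeFactors hp
    refine ⟨Nat.prime_of_mem_primeFactors hp, ?_, ?_, ?_⟩
    · rintro rfl
      omega
    · rintro rfl
      omega
    · rintro rfl
      omega
  exact XW.Od.Kr_odd (fun p h => ⟨(hp p h).1, (hp p h).2.2⟩) (fun h => (hp 2 h).2.1 rfl)

theorem pe_ins {δ : ℤ} {S : Finset ℕ} (h : (2 : ℕ) ∉ S) :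
    XW.pe δ (insert 2 S) = δ.natAbs * ∏ p ∈ S, p := by
  unfold XW.pe
  rw [prod_insert h]
  congr 1
  refine prod_congr rfl fun l hl => ?_
  unfold XW.md
  rw [if_neg]
  rintro rfl
  exact h hl

/-- **the even discriminants in the notation of project XW** -/
theorem fd_ev {D : ℤ} (h : FD D) (h2 : D % 2 = 0) :
    XW.T.Ev (dl D) D.natAbs.primeFactors (D / 4) := by
  obtain ⟨h0, h1, h3, h5⟩ := h
  have h4 : D % 4 = 0 ∧ Squarefree (D / 4) ∧ ((D / 4) % 4 = 2 ∨ (D / 4) % 4 = 3) := by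
    rcases h1 with h1 | h1
    · omega
    · exact h1
  obtain ⟨h6, h7, h8⟩ := h4
  have hdt : XW.Dt (dl D) := by
    unfold dl XW.Dt
    split_ifs <;> simp
  -- the odd part
  obtain ⟨k, N, hk, hN, hD, hsq, hdl⟩ : ∃ k N : ℕ, (k = 2 ∨ k = 3) ∧ N % 2 = 1 ∧
      D.natAbs = 2 ^ k * N ∧ Squarefree N ∧ (dl D).natAbs = 2 ^ k := by
    rcases h8 with h8 | h8
    · refine ⟨3, D.natAbs / 8, Or.inr rfl, by omega, by omega, ?_, ?_⟩
      · have e : (D / 4).natAbs = 2 * (D.natAbs / 8) := by omega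
        rw [← Int.squarefree_natAbs, e] at h7
        exact Squarefree.of_mul_right h7
      · unfold dl
        rw [if_neg (by omega)]
        split_ifs <;> rfl
    · refine ⟨2, D.natAbs / 4, Or.inl rfl, by omega, by omega, ?_, ?_⟩
      · have e : (D / 4).natAbs = D.natAbs / 4 := by omega
        rw [← Int.squarefree_natAbs, e] at h7
        exact h7
      · unfold dl
        rw [if_pos h8]
        rfl
  have hN0 : N ≠ 0 := by
    rintro rfl
    omega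
  have hk0 : k ≠ 0 := by
    rcases hk with rfl | rfl <;> norm_num
  have e1 : D.natAbs.primeFactors = insert 2 N.primeFactors := by
    rw [hD, Nat.primeFactors_mul (by positivity) hN0, Nat.primeFactors_prime_pow hk0 Nat.prime_two]
    rfl
  have h2N : (2 : ℕ) ∉ N.primeFactors := fun h => by
    have := Nat.dvd_of_mem_primeFactors h
    omega
  have e2 : XW.pe (dl D) D.natAbs.primeFactors = D.natAbs := by
    rw [e1, pe_ins h2N, hdl, Nat.prod_primeFactors_of_squarefree hsq, ← hD]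
  have hDN : D = -(D.natAbs : ℤ) := by omega
  have hPe : XW.Pe D.natAbs.primeFactors := by
    intro p hp
    have hd := Nat.dvd_of_mem_primeFactors hp
    refine ⟨Nat.prime_of_mem_primeFactors hp, ?_, ?_⟩
    · rintro rfl
      omega
    · rintro rfl
      omega
  refine ⟨hdt, hPe, ?_, ⟨?_, ?_, ?_⟩, ?_⟩
  · rw [e1]
    exact mem_insert_self _ _
  · -- the sign
    unfold XW.sg XW.ch
    rw [e1, prod_insert h2N]
    have e3 : ∏ p ∈ N.primeFactors, XW.sy (dl D) p (-1) = jacobiSym (-1) N := by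
      have : XW.ch (dl D) N.primeFactors (-1) = jacobiSym (-1) (Pool.Agent.Z700.pr N.primeFactors) :=
        XW.Od.ch_odd (fun p hp => hPe p (by rw [e1]; exact mem_insert_of_mem hp)) h2N _
      unfold Pool.Agent.Z700.pr at this
      rw [Nat.prod_primeFactors_of_squarefree hsq] at this
      exact this
    rw [e3]
    have hj := XW.Od.js_neg_one hN
    have e4 : XW.sy (dl D) 2 (-1) = XW.c2 (dl D) (-1) := XW.Od.sy_two _
    rw [e4]
    rcases h8 with h8 | h8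
    · have hN8 : D = -(8 * (N : ℤ)) := by
        rcases hk with rfl | rfl
        · exfalso
          unfold dl at hdl
          rw [if_neg (by omega)] at hdl
          split_ifs at hdl <;> exact absurd hdl (by decide)
        · omega
      have h9 : N % 4 = 1 ∨ N % 4 = 3 := by omega
      unfold dl
      rw [if_neg (by omega)]
      rcases h9 with h9 | h9
      · rw [if_neg (by omega), hj.1.2 h9, XW.Od.c2_m8]
        norm_num
      · rw [if_pos (by omega), hj.2.2 h9, XW.Od.c2_8]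
        norm_num
    · have hN4 : D = -(4 * (N : ℤ)) := by
        rcases hk with rfl | rfl
        · omega
        · exfalso
          unfold dl at hdl
          rw [if_pos h8] at hdl
          exact absurd hdl (by decide)
      unfold dl
      rw [if_pos h8, hj.1.2 (by omega), XW.Od.c2_m4]
      norm_num
  · rw [e2]
    omega
  · rw [e2]
    omega
  · rw [e2]
    omega

end Pool.Agent.NH3.XE
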