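import Pool.Agent.NH3.XE.Stm
import Pool.Agent.NH3.XD.PRB

/-!
# Project XE, XE-2: the probability that a family of vectors solves the large rows
-/

set_option autoImplicit false
set_option linter.unusedSectionVars false
set_option linter.unusedVariables false

open scoped Classical

namespace Pool.Agent.NH3.XE

open Finset
open Pool.Agent.Y703.CQ (prs)
open Pool.Agent.NH5.PR (ex2)
open Pool.Agent.NH4.PJ (rs)
open Pool.Agent.NH4.XJ (S_XPRB)
open Pool.Agent.NH3.XD.PRB (bil left_inv)

namespace PRB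

/-- the rows of an independent family of columns span -/
theorem rs_top {J : Type} [Fintype J] {n : ℕ} (v : Fin n → J → ZMod 2)
    (hv : LinearIndependent (ZMod 2) v) : rs (fun (l : J) (s : Fin n) => v s l) Set.univ = ⊤ := by
  obtain ⟨w, hw⟩ := left_inv v hv
  have h1 : ∀ s, (Pi.single s 1 : Fin n → ZMod 2) ∈ rs (fun (l : J) (s : Fin n) => v s l) Set.univ := by
    intro s
    have h2 : (Pi.single s 1 : Fin n → ZMod 2) = ∑ l, w s l • (fun t => v t l) := by
      funext t
      rw [Finset.sum_apply]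
      simp only [Pi.smul_apply, smul_eq_mul]
      rw [hw s t, Pi.single_apply]
    rw [h2]
    exact Submodule.sum_mem _ fun l _ =>
      Submodule.smul_mem _ _ (Submodule.subset_span ⟨l, trivial, rfl⟩)
  rw [eq_top_iff]
  intro g _
  have h3 : g = ∑ s, g s • (Pi.single s 1 : Fin n → ZMod 2) := by
    funext t
    rw [Finset.sum_apply]
    simp [Pi.single_apply]
  rw [h3]
  exact Submodule.sum_mem _ fun s _ => Submodule.smul_mem _ _ (h1 s)

theorem card_cg {X : Type} (P Q : X → Prop) (i1 : DecidablePred P) (i2 : DecidablePred Q) (s : Finset X)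
    (h : ∀ a, P a ↔ Q a) : (@Finset.filter X P i1 s).card = (@Finset.filter X Q i2 s).card := by
  have e : P = Q := funext fun a => propext (h a)
  subst e
  rw [Subsingleton.elim i1 i2]

theorem ite_cg (P Q : Prop) (i1 : Decidable P) (i2 : Decidable Q) (h : P ↔ Q) (a b : ℕ) :
    @ite ℕ P i1 a b = @ite ℕ Q i2 a b := by
  have e : P = Q := propext h
  subst e
  rw [Subsingleton.elim i1 i2]

theorem card_lt (n : ℕ) : (univ.filter fun p : Fin n × Fin n => p.1 < p.2).card = n * (n - 1) / 2 := by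
  rw [← Pool.Agent.NH3.XD.PRB.card_prs n]
  congr 1
  ext ⟨k, l⟩
  rw [Pool.Agent.NH4.PJ.M1.mem_prs, mem_filter]
  exact ⟨fun h => h.2, fun h => ⟨mem_univ _, h⟩⟩

section form

variable {U J : Type} [Fintype U] [Fintype J] [LinearOrder J]

/-- the constant part of the large rows -/
noncomputable def cc (θ : ZMod 2) (d : Dat U J) (z : ZMod 2 × (U → ZMod 2) × (J → ZMod 2)) (k : J) : ZMod 2 :=
  ∑ u, d.C k u * (z.2.1 u + z.2.2 k) + d.cJ k * (z.1 + θ * z.2.2 k)

theorem cond (θ : ZMod 2) (d : Dat U J) (hd : d.Good θ) (z z' : ZMod 2 × (U → ZMod 2) × (J → ZMod 2))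
    (hz : Sml θ d z) (hz' : Sml θ d z') :
    ∑ k, (z'.2.2 k * cc θ d z k + z.2.2 k * cc θ d z' k) +
      (∑ k, d.bJ k * z.2.2 k) * (∑ k, d.bJ k * z'.2.2 k) + ∑ k, d.bJ k * (z.2.2 k * z'.2.2 k) =
    om d z z' := by
  obtain ⟨w, x, y⟩ := z
  obtain ⟨w', x', y'⟩ := z'
  unfold Sml at hz hz'
  unfold cc om bx cx
  simp only at hz hz' ⊢
  have h2 : (2 : ZMod 2) = 0 := by decide
  have e3 : ∀ a b c : ZMod 2, a + b + c = 0 → a = b + c := by decide
  -- the small rows
  have S1 := bil d.A d.bU hd.rA x x'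
  have r1 : ∀ u, ∑ v, d.A u v * (x v + x u) = ∑ l, d.B u l * (y l + x u) + d.cU u * (w + θ * x u) :=
    fun u => e3 _ _ _ (hz u)
  have r2 : ∀ u, ∑ v, d.A u v * (x' v + x' u) = ∑ l, d.B u l * (y' l + x' u) + d.cU u * (w' + θ * x' u) :=
    fun u => e3 _ _ _ (hz' u)
  simp_rw [r1, r2] at S1
  have S2 : ∑ u, x' u * (∑ l, d.B u l * (y l + x u) + d.cU u * (w + θ * x u)) +
      ∑ u, x u * (∑ l, d.B u l * (y' l + x' u) + d.cU u * (w' + θ * x' u)) =
      ∑ u, ∑ l, d.C l u * (x' u * y l + x u * y' l) +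
        ((∑ u, d.bU u * x' u) * (∑ l, d.bJ l * y l) + (∑ u, d.bU u * x u) * (∑ l, d.bJ l * y' l)) +
        (w * ∑ u, d.cU u * x' u + w' * ∑ u, d.cU u * x u) := by
    rw [← Finset.sum_add_distrib]
    have t1 : ∀ u, x' u * (∑ l, d.B u l * (y l + x u) + d.cU u * (w + θ * x u)) +
        x u * (∑ l, d.B u l * (y' l + x' u) + d.cU u * (w' + θ * x' u)) =
        ∑ l, d.C l u * (x' u * y l + x u * y' l) +
          ((d.bU u * x' u) * (∑ l, d.bJ l * y l) + (d.bU u * x u) * (∑ l, d.bJ l * y' l)) +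
          (w * (d.cU u * x' u) + w' * (d.cU u * x u)) := by
      intro u
      have t2 : ∑ l, d.C l u * (x' u * y l + x u * y' l) +
          ((d.bU u * x' u) * (∑ l, d.bJ l * y l) + (d.bU u * x u) * (∑ l, d.bJ l * y' l)) =
          x' u * ∑ l, d.B u l * (y l + x u) + x u * ∑ l, d.B u l * (y' l + x' u) := by
        rw [Finset.mul_sum, Finset.mul_sum, Finset.mul_sum, Finset.mul_sum, ← Finset.sum_add_distrib,
          ← Finset.sum_add_distrib, ← Finset.sum_add_distrib]
        refine Finset.sum_congr rfl fun l _ => ?_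
        have t3 : d.B u l = d.C l u + d.bU u * d.bJ l := by
          have := hd.rB u l
          have t4 : ∀ a b c : ZMod 2, a + b = c → a = b + c := by decide
          exact t4 _ _ _ this
        rw [t3]
        linear_combination (-(d.C l u + d.bU u * d.bJ l) * (x u * x' u)) * h2
      rw [t2]
      linear_combination (d.cU u * θ * x u * x' u) * h2
    simp_rw [t1]
    rw [Finset.sum_add_distrib, Finset.sum_add_distrib, Finset.sum_add_distrib, Finset.sum_add_distrib,
      ← Finset.sum_mul, ← Finset.sum_mul, ← Finset.mul_sum, ← Finset.mul_sum]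
  rw [S2] at S1
  have L1 : ∑ k, (y' k * (∑ u, d.C k u * (x u + y k) + d.cJ k * (w + θ * y k)) +
      y k * (∑ u, d.C k u * (x' u + y' k) + d.cJ k * (w' + θ * y' k))) =
      ∑ u, ∑ l, d.C l u * (x' u * y l + x u * y' l) +
        (w * ∑ k, d.cJ k * y' k + w' * ∑ k, d.cJ k * y k) := by
    have t1 : ∀ k, y' k * (∑ u, d.C k u * (x u + y k) + d.cJ k * (w + θ * y k)) +
        y k * (∑ u, d.C k u * (x' u + y' k) + d.cJ k * (w' + θ * y' k)) =
        ∑ u, d.C k u * (x' u * y k + x u * y' k) + (w * (d.cJ k * y' k) + w' * (d.cJ k * y k)) := by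
      intro k
      have t2 : ∑ u, d.C k u * (x' u * y k + x u * y' k) =
          y' k * ∑ u, d.C k u * (x u + y k) + y k * ∑ u, d.C k u * (x' u + y' k) := by
        rw [Finset.mul_sum, Finset.mul_sum, ← Finset.sum_add_distrib]
        refine Finset.sum_congr rfl fun u _ => ?_
        linear_combination (-(d.C k u) * (y k * y' k)) * h2
      rw [t2]
      linear_combination (d.cJ k * θ * y k * y' k) * h2
    simp_rw [t1]
    rw [Finset.sum_add_distrib, Finset.sum_add_distrib, ← Finset.mul_sum, ← Finset.mul_sum]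
    congr 1
    exact Finset.sum_comm
  rw [L1]
  linear_combination S1 - ((∑ u, d.bU u * x' u) * (∑ l, d.bJ l * y l) +
    (∑ u, d.bU u * x u) * (∑ l, d.bJ l * y' l) + w * ∑ u, d.cU u * x' u + w' * ∑ u, d.cU u * x u) * h2

theorem om_self (d : Dat U J) (v : ZMod 2 × (U → ZMod 2) × (J → ZMod 2)) : om d v v = 0 := by
  unfold om bx
  have h1 : ∀ a : ZMod 2, a * a = a := by decide
  have h2 : ∀ a b : ZMod 2, a + a + b + b = 0 := by decide
  simp_rw [h1]
  exact h2 _ _

theorem om_comm (d : Dat U J) (v w : ZMod 2 × (U → ZMod 2) × (J → ZMod 2)) : om d v w = om d w v := by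
  unfold om
  rw [mul_comm (bx d v)]
  simp_rw [mul_comm (v.2.1 _), mul_comm (v.2.2 _)]
  ring

end form

end PRB

open PRB

theorem t_EPRB : S_EPRB := by
  intro hp θ U J _ _ _ d hd i n z hz hli
  have hz1 : ∀ s, Sml θ d (z s) := fun s => (mem_filter.1 (hz s)).2.1
  have hz2 : ∀ s, (z s).2.2 i = 0 := fun s => (mem_filter.1 (hz s)).2.2.1
  have key := hp J (Fin n) i d.bJ (fun l s => (z s).2.2 l) (fun k s => cc θ d (z s) k)
    (by funext s; exact hz2 s) (rs_top (fun s => (z s).2.2) hli)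
  rw [Fintype.card_fin, card_lt] at key
  refine (congrArg (fun c : ℕ => c * 2 ^ ((Fintype.card J - 1) * n)) (card_cg _ _ _ _ _ ?_)).trans
    (key.trans (ite_cg _ _ _ _ ?_ _ _))
  · intro α
    unfold Lrg cc tt
    constructor
    · intro h k hk s
      rw [← h s k hk]
      ring
    · intro h s k hk
      rw [← h k hk s]
      ring
  constructor
  · intro h s t
    rcases lt_trichotomy s t with h1 | h1 | h1
    · rw [← cond θ d hd (z s) (z t) (hz1 s) (hz1 t)]
      exact h s t h1
    · rw [h1]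
      exact om_self d _
    · rw [om_comm, ← cond θ d hd (z t) (z s) (hz1 t) (hz1 s)]
      exact h t s h1
  · intro h s t hst
    show ∑ k, ((z t).2.2 k * cc θ d (z s) k + (z s).2.2 k * cc θ d (z t) k) +
      (∑ k, d.bJ k * (z s).2.2 k) * (∑ k, d.bJ k * (z t).2.2 k) + ∑ k, d.bJ k * ((z s).2.2 k * (z t).2.2 k) = 0
    rw [cond θ d hd (z s) (z t) (hz1 s) (hz1 t)]
    exact h s t

end Pool.Agent.NH3.XE
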