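import Pool.Agent.NH3.XE.Stm

/-!
# The radical of the alternating form on the space of the small rows and of the sum of all the rows
-/

set_option autoImplicit false
set_option linter.unusedVariables false
set_option linter.unusedSectionVars false

open scoped Classical

namespace Pool.Agent.NH3.XE

open Finset

namespace Rad50

variable {U J : Type} [Fintype U] [Fintype J] [LinearOrder J]

/-- the space of the vectors -/
abbrev E (U J : Type) := ZMod 2 × (U → ZMod 2) × (J → ZMod 2)

/-- the diagonal form -/
noncomputable def qv (d : Dat U J) (v w : E U J) : ZMod 2 :=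
  ∑ u, d.bU u * (v.2.1 u * w.2.1 u) + ∑ l, d.bJ l * (v.2.2 l * w.2.2 l)

lemma om_eq (d : Dat U J) (v w : E U J) :
    om d v w = bx d v * bx d w + qv d v w + v.1 * cx d w + w.1 * cx d v := rfl

lemma bx_add (d : Dat U J) (v w : E U J) : bx d (v + w) = bx d v + bx d w := by
  unfold bx
  rw [add_add_add_comm, ← sum_add_distrib, ← sum_add_distrib]
  congr 1
  · exact sum_congr rfl (fun _ _ => by simp only [Prod.fst_add, Prod.snd_add, Pi.add_apply]; ring)
  · exact sum_congr rfl (fun _ _ => by simp only [Prod.snd_add, Pi.add_apply]; ring)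

lemma bx_smul (d : Dat U J) (c : ZMod 2) (w : E U J) : bx d (c • w) = c * bx d w := by
  unfold bx
  rw [mul_add, mul_sum, mul_sum]
  congr 1
  · exact sum_congr rfl (fun _ _ => by
      simp only [Prod.smul_fst, Prod.smul_snd, Pi.smul_apply, smul_eq_mul]; ring)
  · exact sum_congr rfl (fun _ _ => by
      simp only [Prod.smul_snd, Pi.smul_apply, smul_eq_mul]; ring)

lemma cx_add (d : Dat U J) (v w : E U J) : cx d (v + w) = cx d v + cx d w := by
  unfold cx
  rw [add_add_add_comm, ← sum_add_distrib, ← sum_add_distrib]
  congr 1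
  · exact sum_congr rfl (fun _ _ => by simp only [Prod.fst_add, Prod.snd_add, Pi.add_apply]; ring)
  · exact sum_congr rfl (fun _ _ => by simp only [Prod.snd_add, Pi.add_apply]; ring)

lemma cx_smul (d : Dat U J) (c : ZMod 2) (w : E U J) : cx d (c • w) = c * cx d w := by
  unfold cx
  rw [mul_add, mul_sum, mul_sum]
  congr 1
  · exact sum_congr rfl (fun _ _ => by
      simp only [Prod.smul_fst, Prod.smul_snd, Pi.smul_apply, smul_eq_mul]; ring)
  · exact sum_congr rfl (fun _ _ => by
      simp only [Prod.smul_snd, Pi.smul_apply, smul_eq_mul]; ring)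

lemma qv_add (d : Dat U J) (z v w : E U J) : qv d z (v + w) = qv d z v + qv d z w := by
  unfold qv
  rw [add_add_add_comm, ← sum_add_distrib, ← sum_add_distrib]
  congr 1
  · exact sum_congr rfl (fun _ _ => by simp only [Prod.fst_add, Prod.snd_add, Pi.add_apply]; ring)
  · exact sum_congr rfl (fun _ _ => by simp only [Prod.snd_add, Pi.add_apply]; ring)

lemma qv_smul (d : Dat U J) (c : ZMod 2) (z w : E U J) : qv d z (c • w) = c * qv d z w := by
  unfold qv
  rw [mul_add, mul_sum, mul_sum]
  congr 1
  · exact sum_congr rfl (fun _ _ => by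
      simp only [Prod.smul_fst, Prod.smul_snd, Pi.smul_apply, smul_eq_mul]; ring)
  · exact sum_congr rfl (fun _ _ => by
      simp only [Prod.smul_snd, Pi.smul_apply, smul_eq_mul]; ring)

/-- the rows as linear functionals; `none` is the coordinate `i`, `some none` the sum of all rows -/
noncomputable def L (θ : ZMod 2) (d : Dat U J) (i : J) :
    Option (Option U) → (E U J →ₗ[ZMod 2] ZMod 2)
  | none => { toFun := fun z => z.2.2 i
              map_add' := fun _ _ => rfl
              map_smul' := fun _ _ => rfl }
  | some none =>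
    { toFun := fun z => sr θ d z
      map_add' := by
        intro a b
        unfold sr
        rw [bx_add, cx_add, Prod.fst_add]
        ring
      map_smul' := by
        intro c a
        unfold sr
        rw [bx_smul, cx_smul, Prod.smul_fst]
        simp only [smul_eq_mul, RingHom.id_apply]
        ring }
  | some (some u) =>
    { toFun := fun z => ∑ v, d.A u v * (z.2.1 v + z.2.1 u) + ∑ l, d.B u l * (z.2.2 l + z.2.1 u) +
        d.cU u * (z.1 + θ * z.2.1 u)
      map_add' := by
        intro a b
        simp only [Prod.fst_add, Prod.snd_add, Pi.add_apply]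
        have e1 : ∑ v, d.A u v * (a.2.1 v + b.2.1 v + (a.2.1 u + b.2.1 u)) =
            ∑ v, d.A u v * (a.2.1 v + a.2.1 u) + ∑ v, d.A u v * (b.2.1 v + b.2.1 u) := by
          rw [← sum_add_distrib]
          exact sum_congr rfl (fun _ _ => by ring)
        have e2 : ∑ l, d.B u l * (a.2.2 l + b.2.2 l + (a.2.1 u + b.2.1 u)) =
            ∑ l, d.B u l * (a.2.2 l + a.2.1 u) + ∑ l, d.B u l * (b.2.2 l + b.2.1 u) := by
          rw [← sum_add_distrib]
          exact sum_congr rfl (fun _ _ => by ring)
        rw [e1, e2]
        ring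
      map_smul' := by
        intro c a
        simp only [Prod.smul_fst, Prod.smul_snd, Pi.smul_apply, smul_eq_mul, RingHom.id_apply]
        have e1 : ∑ v, d.A u v * (c * a.2.1 v + c * a.2.1 u) =
            c * ∑ v, d.A u v * (a.2.1 v + a.2.1 u) := by
          rw [mul_sum]
          exact sum_congr rfl (fun _ _ => by ring)
        have e2 : ∑ l, d.B u l * (c * a.2.2 l + c * a.2.1 u) =
            c * ∑ l, d.B u l * (a.2.2 l + a.2.1 u) := by
          rw [mul_sum]
          exact sum_congr rfl (fun _ _ => by ring)
        rw [e1, e2]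
        ring }

/-- the form as a linear functional in the second variable -/
noncomputable def omL (d : Dat U J) (v : E U J) : E U J →ₗ[ZMod 2] ZMod 2 where
  toFun := fun w => om d v w
  map_add' := by
    intro a b
    rw [om_eq, om_eq, om_eq, bx_add, qv_add, cx_add, Prod.fst_add]
    ring
  map_smul' := by
    intro c a
    rw [om_eq, om_eq, bx_smul, qv_smul, cx_smul, Prod.smul_fst, RingHom.id_apply, smul_eq_mul,
      smul_eq_mul]
    ring

lemma z2_self (a : ZMod 2) : a + a = 0 := CharTwo.add_self_eq_zero a

lemma mem_KK (θ : ZMod 2) (d : Dat U J) (i : J) (z : E U J) : z ∈ KK θ d i ↔ ∀ o, L θ d i o z = 0 := by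
  unfold KK
  rw [mem_filter]
  constructor
  · rintro ⟨-, h1, h2, h3⟩ o
    rcases o with _ | (_ | u)
    · exact h2
    · exact h3
    · exact h1 u
  · intro h
    exact ⟨mem_univ _, fun u => h (some (some u)), h none, h (some none)⟩

/-- the value of the form at a unit vector -/
lemma om_single (d : Dat U J) (v : E U J) (l : J) (hb : d.bJ l = 1) :
    om d v (0, 0, Pi.single l 1) = bx d v + v.2.2 l + v.1 * d.cJ l := by
  have e1 : bx d ((0, 0, Pi.single l 1) : E U J) = d.bJ l := by
    unfold bx
    simp [Pi.single_apply]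
  have e2 : qv d v ((0, 0, Pi.single l 1) : E U J) = d.bJ l * v.2.2 l := by
    unfold qv
    simp [Pi.single_apply]
  have e3 : cx d ((0, 0, Pi.single l 1) : E U J) = d.cJ l := by
    unfold cx
    simp [Pi.single_apply]
  rw [om_eq, e1, e2, e3, hb]
  simp

/-- the number of the vectors vanishing on a set of large indices -/
lemma card_van (b : J → ZMod 2) :
    (univ.filter fun z : E U J => ∀ l, b l = 1 → z.2.2 l = 0).card *
      2 ^ (univ.filter fun l => b l = 1).card = 2 * 2 ^ Fintype.card U * 2 ^ Fintype.card J := by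
  have h1 : (univ.filter fun z : E U J => ∀ l, b l = 1 → z.2.2 l = 0) =
      (univ : Finset (ZMod 2)) ×ˢ ((univ : Finset (U → ZMod 2)) ×ˢ
        Fintype.piFinset (fun l : J => if b l = 1 then ({0} : Finset (ZMod 2)) else univ)) := by
    ext z
    rw [mem_filter, mem_product, mem_product, Fintype.mem_piFinset]
    constructor
    · rintro ⟨-, h⟩
      refine ⟨mem_univ _, mem_univ _, fun l => ?_⟩
      by_cases hb : b l = 1
      · rw [if_pos hb, mem_singleton]
        exact h l hb
      · rw [if_neg hb]
        exact mem_univ _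
    · rintro ⟨-, -, h⟩
      refine ⟨mem_univ _, fun l hb => ?_⟩
      have := h l
      rw [if_pos hb, mem_singleton] at this
      exact this
  rw [h1, card_product, card_product, Fintype.card_piFinset, card_univ, card_univ,
    Fintype.card_fun, ZMod.card]
  have h2 : (∏ l : J, (if b l = 1 then ({0} : Finset (ZMod 2)) else univ).card) *
      2 ^ (univ.filter fun l => b l = 1).card = 2 ^ Fintype.card J := by
    rw [← prod_const, prod_filter, ← prod_mul_distrib, ← card_univ, ← prod_const]
    apply prod_congr rfl
    intro l _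
    by_cases hb : b l = 1
    · rw [if_pos hb, if_pos hb, card_singleton, one_mul]
    · rw [if_neg hb, if_neg hb, mul_one, card_univ, ZMod.card]
  rw [mul_assoc, mul_assoc, h2, mul_assoc]

end Rad50

/-- XE-3: the radical of the form on the space -/
theorem t_ERAD : S_ERAD := by
  intro θ U J _ _ _ d hd i hi
  have hrep : ∀ v : Rad50.E U J, (∀ w ∈ KK θ d i, om d v w = 0) →
      ∃ c : Option (Option U) → ZMod 2, ∀ w, om d v w = ∑ o, c o * Rad50.L θ d i o w := by
    intro v hv
    have h1 : Rad50.omL d v ∈ Submodule.span (ZMod 2) (Set.range (Rad50.L θ d i)) := by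
      apply mem_span_of_iInf_ker_le_ker
      intro w hw
      rw [Submodule.mem_iInf] at hw
      rw [LinearMap.mem_ker]
      exact hv w ((Rad50.mem_KK θ d i w).2 (fun o => LinearMap.mem_ker.1 (hw o)))
    rw [Submodule.mem_span_range_iff_exists_fun] at h1
    obtain ⟨c, hc⟩ := h1
    refine ⟨c, fun w => ?_⟩
    have h2 := congrArg (fun f : Rad50.E U J →ₗ[ZMod 2] ZMod 2 => f w) hc
    simp only [LinearMap.sum_apply, LinearMap.smul_apply, smul_eq_mul] at h2
    exact h2.symm
  choose! c hc using hrep
  set W : Finset (Rad50.E U J) := univ.filter fun z => ∀ l, d.bJ l = 1 → z.2.2 l = 0 with hW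
  have hcard : ((KK θ d i).filter fun v => ∀ w ∈ KK θ d i, om d v w = 0).card ≤
      W.card * (2 ^ (Fintype.card U + 4)) := by
    have h1 := card_le_mul_card_image
      (f := fun v : Rad50.E U J => ((c v, bx d v, v.1) :
        (Option (Option U) → ZMod 2) × ZMod 2 × ZMod 2))
      ((KK θ d i).filter fun v => ∀ w ∈ KK θ d i, om d v w = 0) W.card ?_
    · refine h1.trans (Nat.mul_le_mul_left _ ?_)
      refine (card_le_univ _).trans (le_of_eq ?_)
      rw [Fintype.card_prod, Fintype.card_prod, Fintype.card_fun, ZMod.card, Fintype.card_option,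
        Fintype.card_option, pow_add, pow_add, pow_add]
      norm_num
      ring
    · intro a ha
      rw [mem_image] at ha
      obtain ⟨v0, hv0, hv0a⟩ := ha
      apply card_le_card_of_injOn (fun v => v + v0)
      · intro v hv
        rw [mem_coe, mem_filter] at hv
        obtain ⟨hv, hva⟩ := hv
        rw [mem_filter] at hv hv0
        have hvK := (Rad50.mem_KK θ d i v).1 hv.1
        have hv0K := (Rad50.mem_KK θ d i v0).1 hv0.1
        have hvv := hva.trans hv0a.symm
        have ec : c v = c v0 := congrArg (fun z => z.1) hvv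
        have eb : bx d v = bx d v0 := congrArg (fun z => z.2.1) hvv
        have ew : v.1 = v0.1 := congrArg (fun z => z.2.2) hvv
        rw [mem_coe, hW, mem_filter]
        refine ⟨mem_univ _, fun l hl => ?_⟩
        show v.2.2 l + v0.2.2 l = 0
        have e1 := hc v hv.2 (0, 0, Pi.single l 1)
        have e2 := hc v0 hv0.2 (0, 0, Pi.single l 1)
        rw [Rad50.om_single d v l hl, ec, eb, ew] at e1
        rw [Rad50.om_single d v0 l hl, ← e1] at e2
        have e3 : v0.2.2 l = v.2.2 l := by
          have e4 := add_right_cancel e2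
          exact add_left_cancel e4
        rw [e3]
        exact Rad50.z2_self _
      · intro v _ v' _ h
        exact add_right_cancel h
  have hvan := Rad50.card_van (U := U) d.bJ
  rw [← hW] at hvan
  have hJ : 1 ≤ Fintype.card J := Fintype.card_pos_iff.2 ⟨i⟩
  rw [le_div_iff₀ (by positivity)]
  have e1 : (2:ℝ) ^ (Fintype.card J - 1) * 2 = 2 ^ Fintype.card J := by
    rw [← pow_succ]
    congr 1
    omega
  have e2 : (2:ℝ) ^ (2 * Fintype.card U + 6) * 2 ^ (Fintype.card J - 1) =
      (2 * 2 ^ Fintype.card U * 2 ^ Fintype.card J) * 2 ^ (Fintype.card U + 4) := by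
    rw [← e1, pow_add, pow_add, two_mul, pow_add]
    ring
  rw [e2]
  have h3 : (((KK θ d i).filter fun v => ∀ w ∈ KK θ d i, om d v w = 0).card : ℝ) ≤
      (W.card : ℝ) * 2 ^ (Fintype.card U + 4) := by exact_mod_cast hcard
  have h4 : (W.card : ℝ) * 2 ^ (univ.filter fun l => d.bJ l = 1).card =
      2 * 2 ^ Fintype.card U * 2 ^ Fintype.card J := by exact_mod_cast hvan
  calc (((KK θ d i).filter fun v => ∀ w ∈ KK θ d i, om d v w = 0).card : ℝ) *
        2 ^ (univ.filter fun l => d.bJ l = 1).card
      ≤ ((W.card : ℝ) * 2 ^ (Fintype.card U + 4)) * 2 ^ (univ.filter fun l => d.bJ l = 1).card :=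
        mul_le_mul_of_nonneg_right h3 (by positivity)
    _ = ((W.card : ℝ) * 2 ^ (univ.filter fun l => d.bJ l = 1).card) * 2 ^ (Fintype.card U + 4) := by
        ring
    _ = _ := by rw [h4]

end Pool.Agent.NH3.XE
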