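import Pool.Agent.NH3.XE.Stm

/-!
# XE-1 (helper80): facts on the system
-/

set_option autoImplicit false
set_option linter.unusedVariables false

open scoped Classical

namespace Pool.Agent.NH3.XE

open Finset
open Pool.Agent.Y703.CQ (nr sg prs HB S_EQ S_MER)
open Pool.Agent.NH5.PR (eta S_BIL S_ETA ex2)

namespace SYS

theorem two_self (c : ZMod 2) : c + c = 0 := CharTwo.add_self_eq_zero c

theorem mul_one_add (c : ZMod 2) : c * c = c := by
  revert c; decide

theorem card_filter_sub {V : Type} [AddCommGroup V] [Module (ZMod 2) V] [Fintype V]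
    (P : V → Prop) [DecidablePred P] (D : Submodule (ZMod 2) V) (h : ∀ v, v ∈ D ↔ P v) :
    (univ.filter P).card = 2 ^ Module.finrank (ZMod 2) D := by
  have h1 : Nat.card D = 2 ^ Module.finrank (ZMod 2) D := by
    rw [Module.natCard_eq_pow_finrank (K := ZMod 2), Nat.card_zmod]
  rw [← h1, Nat.card_eq_fintype_card, Fintype.card_subtype]
  congr 1
  ext v
  simp [h]

/-- the abstract sum formula -/
theorem sum_rows {E : Type} [Fintype E] (L : E → E → ZMod 2) (b v : E → ZMod 2)
    (hL : ∀ p q, p ≠ q → L p q + L q p = b p * b q) :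
    ∑ p, ∑ q, L p q * (v q + v p) = (∑ p, b p + 1) * ∑ p, b p * v p := by
  have h1 : ∑ p, ∑ q, L p q * (v q + v p) = ∑ p, v p * ∑ q, (L q p + L p q) := by
    simp only [mul_add, Finset.sum_add_distrib, Finset.mul_sum]
    congr 1
    · rw [Finset.sum_comm]
      exact Finset.sum_congr rfl fun p _ => Finset.sum_congr rfl fun q _ => mul_comm _ _
    · exact Finset.sum_congr rfl fun p _ => Finset.sum_congr rfl fun q _ => mul_comm _ _
  rw [h1, Finset.mul_sum]
  refine Finset.sum_congr rfl fun p _ => ?_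
  have h2 : ∑ q, (L q p + L p q) = b p * (∑ q, b q + b p) := by
    rw [← Finset.add_sum_erase _ _ (Finset.mem_univ p), two_self, zero_add]
    have h3 : ∑ q ∈ univ.erase p, b q = ∑ q, b q + b p := by
      have h4 := Finset.add_sum_erase univ b (Finset.mem_univ p)
      rw [← h4]
      have h5 := two_self (b p)
      linear_combination (-1 : ZMod 2) * h5
    rw [← h3, Finset.mul_sum]
    refine Finset.sum_congr rfl fun q hq => ?_
    rw [hL q p (Finset.ne_of_mem_erase hq), mul_comm]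
  rw [h2]
  have h6 := mul_one_add (b p)
  linear_combination v p * h6

section

set_option linter.unusedSectionVars false

variable {U J : Type} [Fintype U] [Fintype J] [LinearOrder J]

theorem mem_prs {k l : J} : (k, l) ∈ prs (univ : Finset J) ↔ k < l := by
  unfold prs
  rw [Finset.mem_filter]
  constructor
  · rintro ⟨-, -, -, h⟩
    exact h (Finset.mem_univ _)
  · intro h
    exact ⟨Finset.mem_univ _, Finset.mem_univ _, ne_of_gt h, fun _ => h⟩

theorem ex2_rec (d : Dat U J) (α : prs (univ : Finset J) → ZMod 2) {k l : J} (h : k ≠ l) :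
    ex2 (tt d) α k l + ex2 (tt d) α l k = d.bJ k * d.bJ l := by
  have key : ∀ k l : J, k < l → ex2 (tt d) α k l + ex2 (tt d) α l k = d.bJ k * d.bJ l := by
    intro k l hkl
    have h1 : (k, l) ∈ prs (univ : Finset J) := mem_prs.2 hkl
    have h2 : (l, k) ∉ prs (univ : Finset J) := fun h => lt_asymm hkl (mem_prs.1 h)
    unfold ex2
    rw [dif_neg h2, dif_pos h1, dif_pos h1]
    unfold tt
    have := two_self (α ⟨(k, l), h1⟩)
    linear_combination this
  rcases lt_or_gt_of_ne h with h1 | h1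
  · exact key k l h1
  · rw [add_comm, key l k h1, mul_comm]

/-- all symbols -/
noncomputable def LL (d : Dat U J) (α : prs (univ : Finset J) → ZMod 2) : U ⊕ J → U ⊕ J → ZMod 2
  | .inl u, .inl v => d.A u v
  | .inl u, .inr l => d.B u l
  | .inr k, .inl u => d.C k u
  | .inr k, .inr l => ex2 (tt d) α k l

theorem LL_rec {θ : ZMod 2} {d : Dat U J} (hd : d.Good θ)
    (α : prs (univ : Finset J) → ZMod 2) :
    ∀ p q : U ⊕ J, p ≠ q → LL d α p q + LL d α q p =
      Sum.elim d.bU d.bJ p * Sum.elim d.bU d.bJ q := by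
  rintro (u | k) (v | l) h
  · exact hd.rA u v fun h' => h (by rw [h'])
  · exact hd.rB u l
  · show d.C k v + d.B v k = d.bJ k * d.bU v
    rw [add_comm, hd.rB v k, mul_comm]
  · exact ex2_rec d α fun h' => h (by rw [h'])

/-- the small row -/
noncomputable def rS (θ : ZMod 2) (d : Dat U J) (z : ZMod 2 × (U → ZMod 2) × (J → ZMod 2))
    (u : U) : ZMod 2 :=
  ∑ v, d.A u v * (z.2.1 v + z.2.1 u) + ∑ l, d.B u l * (z.2.2 l + z.2.1 u) +
    d.cU u * (z.1 + θ * z.2.1 u)

/-- the large row -/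
noncomputable def rL (θ : ZMod 2) (d : Dat U J) (α : prs (univ : Finset J) → ZMod 2)
    (z : ZMod 2 × (U → ZMod 2) × (J → ZMod 2)) (k : J) : ZMod 2 :=
  ∑ u, d.C k u * (z.2.1 u + z.2.2 k) + ∑ l, ex2 (tt d) α k l * (z.2.2 l + z.2.2 k) +
    d.cJ k * (z.1 + θ * z.2.2 k)

theorem sum_all {θ : ZMod 2} {d : Dat U J} (hd : d.Good θ)
    (α : prs (univ : Finset J) → ZMod 2) (z : ZMod 2 × (U → ZMod 2) × (J → ZMod 2)) :
    ∑ u, rS θ d z u + ∑ k, rL θ d α z k = sr θ d z := by
  have h := sum_rows (LL d α) (Sum.elim d.bU d.bJ) (Sum.elim z.2.1 z.2.2) (LL_rec hd α)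
  simp only [Fintype.sum_sum_type, Sum.elim_inl, Sum.elim_inr] at h
  have e1 : ∀ u : U, ∑ v, LL d α (.inl u) (.inl v) * (z.2.1 v + z.2.1 u) +
      ∑ l, LL d α (.inl u) (.inr l) * (z.2.2 l + z.2.1 u) =
      ∑ v, d.A u v * (z.2.1 v + z.2.1 u) + ∑ l, d.B u l * (z.2.2 l + z.2.1 u) := fun u => rfl
  have e2 : ∀ k : J, ∑ v, LL d α (.inr k) (.inl v) * (z.2.1 v + z.2.2 k) +
      ∑ l, LL d α (.inr k) (.inr l) * (z.2.2 l + z.2.2 k) =
      ∑ u, d.C k u * (z.2.1 u + z.2.2 k) + ∑ l, ex2 (tt d) α k l * (z.2.2 l + z.2.2 k) :=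
    fun k => rfl
  simp only [e1, e2] at h
  have f1 : ∑ u, rS θ d z u =
      ∑ u, (∑ v, d.A u v * (z.2.1 v + z.2.1 u) + ∑ l, d.B u l * (z.2.2 l + z.2.1 u)) +
        ((∑ u, d.cU u) * z.1 + θ * ∑ u, d.cU u * z.2.1 u) := by
    unfold rS
    rw [Finset.sum_add_distrib]
    congr 1
    rw [Finset.sum_mul, Finset.mul_sum, ← Finset.sum_add_distrib]
    exact Finset.sum_congr rfl fun u _ => by ring
  have f2 : ∑ k, rL θ d α z k =
      ∑ k, (∑ u, d.C k u * (z.2.1 u + z.2.2 k) +
        ∑ l, ex2 (tt d) α k l * (z.2.2 l + z.2.2 k)) +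
        ((∑ l, d.cJ l) * z.1 + θ * ∑ l, d.cJ l * z.2.2 l) := by
    unfold rL
    rw [Finset.sum_add_distrib]
    congr 1
    rw [Finset.sum_mul, Finset.mul_sum, ← Finset.sum_add_distrib]
    exact Finset.sum_congr rfl fun u _ => by ring
  rw [f1, f2]
  unfold sr bx cx
  linear_combination h

/-- the condition -/
def PP (θ : ZMod 2) (d : Dat U J) (i : J) (α : prs (univ : Finset J) → ZMod 2)
    (z : ZMod 2 × (U → ZMod 2) × (J → ZMod 2)) : Prop :=
  (Sml θ d z ∧ z.2.2 i = 0 ∧ sr θ d z = 0) ∧ Lrg θ d (univ.erase i) α z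

theorem nk_eq (θ : ZMod 2) (d : Dat U J) (i : J) (α : prs (univ : Finset J) → ZMod 2) :
    nk θ d i α = (univ.filter fun z => PP θ d i α z).card := by
  unfold nk KK
  rw [Finset.filter_filter]
  refine congrArg Finset.card ?_
  ext z
  rw [Finset.mem_filter, Finset.mem_filter]
  exact Iff.rfl

theorem rS_add (θ : ZMod 2) (d : Dat U J) (z z' : ZMod 2 × (U → ZMod 2) × (J → ZMod 2)) (u : U) :
    rS θ d (z + z') u = rS θ d z u + rS θ d z' u := by
  unfold rS
  simp only [Prod.fst_add, Prod.snd_add, Pi.add_apply, mul_add, Finset.sum_add_distrib]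
  ring

theorem rL_add (θ : ZMod 2) (d : Dat U J) (α : prs (univ : Finset J) → ZMod 2)
    (z z' : ZMod 2 × (U → ZMod 2) × (J → ZMod 2)) (k : J) :
    rL θ d α (z + z') k = rL θ d α z k + rL θ d α z' k := by
  unfold rL
  simp only [Prod.fst_add, Prod.snd_add, Pi.add_apply, mul_add, Finset.sum_add_distrib]
  ring

theorem sr_add (θ : ZMod 2) (d : Dat U J) (z z' : ZMod 2 × (U → ZMod 2) × (J → ZMod 2)) :
    sr θ d (z + z') = sr θ d z + sr θ d z' := by
  unfold sr bx cx
  simp only [Prod.fst_add, Prod.snd_add, Pi.add_apply, mul_add, Finset.sum_add_distrib]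
  ring

theorem rS_smul (θ : ZMod 2) (d : Dat U J) (c : ZMod 2)
    (z : ZMod 2 × (U → ZMod 2) × (J → ZMod 2)) (u : U) :
    rS θ d (c • z) u = c * rS θ d z u := by
  unfold rS
  simp only [Prod.smul_fst, Prod.smul_snd, Pi.smul_apply, smul_eq_mul, mul_add, Finset.mul_sum,
    Finset.sum_add_distrib]
  simp only [mul_left_comm]

theorem rL_smul (θ : ZMod 2) (d : Dat U J) (α : prs (univ : Finset J) → ZMod 2) (c : ZMod 2)
    (z : ZMod 2 × (U → ZMod 2) × (J → ZMod 2)) (k : J) :
    rL θ d α (c • z) k = c * rL θ d α z k := by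
  unfold rL
  simp only [Prod.smul_fst, Prod.smul_snd, Pi.smul_apply, smul_eq_mul, mul_add, Finset.mul_sum,
    Finset.sum_add_distrib]
  simp only [mul_left_comm]

theorem sr_smul (θ : ZMod 2) (d : Dat U J) (c : ZMod 2)
    (z : ZMod 2 × (U → ZMod 2) × (J → ZMod 2)) :
    sr θ d (c • z) = c * sr θ d z := by
  have e1 : bx d (c • z) = c * bx d z := by
    unfold bx
    simp only [Prod.smul_snd, Prod.smul_fst, Pi.smul_apply, smul_eq_mul, mul_add,
      Finset.mul_sum]
    simp only [mul_left_comm]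
  have e2 : cx d (c • z) = c * cx d z := by
    unfold cx
    simp only [Prod.smul_snd, Prod.smul_fst, Pi.smul_apply, smul_eq_mul, mul_add,
      Finset.mul_sum]
    simp only [mul_left_comm]
  unfold sr
  rw [e1, e2, Prod.smul_fst, smul_eq_mul]
  ring

/-- the trivial vector -/
def tv (θ c : ZMod 2) : ZMod 2 × (U → ZMod 2) × (J → ZMod 2) := (θ * c, fun _ => c, fun _ => c)

theorem rS_tv (θ : ZMod 2) (d : Dat U J) (c : ZMod 2) (u : U) :
    rS θ d (tv θ c) u = 0 := by
  unfold rS tv
  have h := two_self c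
  have h' := two_self (θ * c)
  simp only [h, h', mul_zero, Finset.sum_const_zero, add_zero]

theorem rL_tv (θ : ZMod 2) (d : Dat U J) (α : prs (univ : Finset J) → ZMod 2) (c : ZMod 2)
    (k : J) : rL θ d α (tv θ c) k = 0 := by
  unfold rL tv
  have h := two_self c
  have h' := two_self (θ * c)
  simp only [h, h', mul_zero, Finset.sum_const_zero, add_zero]

/-- the space of the solutions -/
noncomputable def spc (θ : ZMod 2) (d : Dat U J) (i : J)
    (α : prs (univ : Finset J) → ZMod 2) :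
    Submodule (ZMod 2) (ZMod 2 × (U → ZMod 2) × (J → ZMod 2)) where
  carrier := {z | PP θ d i α z}
  zero_mem' := by
    refine ⟨⟨fun u => ?_, rfl, ?_⟩, fun k _ => ?_⟩
    · simp
    · simp [sr, bx, cx]
    · simp
  add_mem' := by
    rintro z w ⟨⟨h1, h2, h2'⟩, h3⟩ ⟨⟨g1, g2, g2'⟩, g3⟩
    refine ⟨⟨fun u => ?_, ?_, ?_⟩, fun k hk => ?_⟩
    · have h := rS_add θ d z w u
      have e1 : rS θ d z u = 0 := h1 u
      have e2 : rS θ d w u = 0 := g1 u
      rw [e1, e2, add_zero] at h
      exact h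
    · rw [Prod.snd_add, Prod.snd_add, Pi.add_apply, h2, g2, add_zero]
    · rw [sr_add, h2', g2', add_zero]
    · have h := rL_add θ d α z w k
      have e1 : rL θ d α z k = 0 := h3 k hk
      have e2 : rL θ d α w k = 0 := g3 k hk
      rw [e1, e2, add_zero] at h
      exact h
  smul_mem' := by
    rintro c z ⟨⟨h1, h2, h2'⟩, h3⟩
    refine ⟨⟨fun u => ?_, ?_, ?_⟩, fun k hk => ?_⟩
    · have h := rS_smul θ d c z u
      have e1 : rS θ d z u = 0 := h1 u
      rw [e1, mul_zero] at h
      exact h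
    · rw [Prod.smul_snd, Prod.smul_snd, Pi.smul_apply, h2, smul_zero]
    · rw [sr_smul, h2', mul_zero]
    · have h := rL_smul θ d α c z k
      have e1 : rL θ d α z k = 0 := h3 k hk
      rw [e1, mul_zero] at h
      exact h

theorem last_row {θ : ZMod 2} {d : Dat U J} (hd : d.Good θ) (i : J)
    (α : prs (univ : Finset J) → ZMod 2)
    (z : ZMod 2 × (U → ZMod 2) × (J → ZMod 2)) (h1 : Sml θ d z) (h0 : sr θ d z = 0)
    (h2 : Lrg θ d (univ.erase i) α z) : Lrg θ d univ α z := by
  have h := sum_all hd α z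
  have e1 : ∑ u, rS θ d z u = 0 := Finset.sum_eq_zero fun u _ => h1 u
  rw [h0, e1, zero_add, ← Finset.add_sum_erase _ _ (Finset.mem_univ i)] at h
  have e2 : ∑ k ∈ univ.erase i, rL θ d α z k = 0 := Finset.sum_eq_zero fun k hk => h2 k hk
  rw [e2, add_zero] at h
  intro k _
  by_cases hk : k = i
  · rw [hk]
    exact h
  · exact h2 k (Finset.mem_erase.2 ⟨hk, Finset.mem_univ _⟩)

theorem sr_zero {θ : ZMod 2} {d : Dat U J} (hd : d.Good θ)
    (α : prs (univ : Finset J) → ZMod 2)
    (z : ZMod 2 × (U → ZMod 2) × (J → ZMod 2)) (h1 : Sml θ d z)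
    (h2 : Lrg θ d univ α z) : sr θ d z = 0 := by
  rw [← sum_all hd α z]
  have e1 : ∑ u, rS θ d z u = 0 := Finset.sum_eq_zero fun u _ => h1 u
  have e2 : ∑ k, rL θ d α z k = 0 := Finset.sum_eq_zero fun k _ => h2 k (Finset.mem_univ _)
  rw [e1, e2, add_zero]

theorem good_iff {θ : ZMod 2} {d : Dat U J} (hd : d.Good θ) (i : J)
    (α : prs (univ : Finset J) → ZMod 2) :
    nk θ d i α = 1 ↔ GdL θ d α := by
  have h0 : PP θ d i α 0 := (spc θ d i α).zero_mem
  have h1 : nk θ d i α = 1 ↔ ∀ z, PP θ d i α z → z = 0 := by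
    rw [nk_eq, Finset.card_eq_one]
    constructor
    · rintro ⟨a, ha⟩ z hz
      have e1 : z ∈ univ.filter fun z => PP θ d i α z := Finset.mem_filter.2 ⟨Finset.mem_univ _, hz⟩
      have e2 : (0 : ZMod 2 × (U → ZMod 2) × (J → ZMod 2)) ∈ univ.filter fun z => PP θ d i α z :=
        Finset.mem_filter.2 ⟨Finset.mem_univ _, h0⟩
      rw [ha, Finset.mem_singleton] at e1 e2
      rw [e1, e2]
    · intro h
      refine ⟨0, ?_⟩
      ext z
      rw [Finset.mem_filter, Finset.mem_singleton]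
      constructor
      · rintro ⟨-, hz⟩
        exact h z hz
      · rintro rfl
        exact ⟨Finset.mem_univ _, h0⟩
  rw [h1]
  constructor
  · intro h z hs hl
    have hS : Sml θ d (z + tv θ (z.2.2 i)) := by
      intro u
      have g1 := rS_add θ d z (tv θ (z.2.2 i)) u
      have g2 : rS θ d z u = 0 := hs u
      rw [g2, rS_tv, add_zero] at g1
      exact g1
    have hL : Lrg θ d univ α (z + tv θ (z.2.2 i)) := by
      intro k hk
      have g1 := rL_add θ d α z (tv θ (z.2.2 i)) k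
      have g2 : rL θ d α z k = 0 := hl k hk
      rw [g2, rL_tv, add_zero] at g1
      exact g1
    have h2 := h (z + tv θ (z.2.2 i)) ⟨⟨hS, two_self _, sr_zero hd α _ hS hL⟩,
      fun k hk => hL k (Finset.mem_univ _)⟩
    refine ⟨z.2.2 i, ?_, fun u => ?_, fun l => ?_⟩
    · have := congrArg Prod.fst h2
      exact CharTwo.add_eq_zero.1 this
    · have := congrFun (congrArg Prod.fst (congrArg Prod.snd h2)) u
      exact CharTwo.add_eq_zero.1 this
    · have := congrFun (congrArg Prod.snd (congrArg Prod.snd h2)) l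
      exact CharTwo.add_eq_zero.1 this
  · rintro h ⟨w, x, y⟩ ⟨⟨h2, h3, h3'⟩, h4⟩
    obtain ⟨c, hc0, hc1, hc2⟩ := h (w, x, y) h2 (last_row hd i α (w, x, y) h2 h3' h4)
    have hc : c = 0 := by rw [← hc2 i]; exact h3
    refine Prod.ext ?_ (Prod.ext ?_ ?_)
    · have hc0' : w = θ * c := hc0
      show w = 0
      rw [hc0', hc, mul_zero]
    · funext u
      exact (hc1 u).trans hc
    · funext l
      exact (hc2 l).trans hc

/-- the map of the small rows, of the value at `i` and of the sum of the rows -/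
noncomputable def Phi (θ : ZMod 2) (d : Dat U J) (i : J) :
    (ZMod 2 × (U → ZMod 2) × (J → ZMod 2)) →ₗ[ZMod 2] ((U → ZMod 2) × ZMod 2 × ZMod 2) where
  toFun z := (fun u => rS θ d z u, z.2.2 i, sr θ d z)
  map_add' z w := by
    refine Prod.ext ?_ (Prod.ext rfl ?_)
    · funext u
      exact rS_add θ d z w u
    · exact sr_add θ d z w
  map_smul' c z := by
    refine Prod.ext ?_ (Prod.ext rfl ?_)
    · funext u
      exact rS_smul θ d c z u
    · exact sr_smul θ d c z

/-- the unit vectors -/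
noncomputable def ev (k : J) : ZMod 2 × (U → ZMod 2) × (J → ZMod 2) := (0, 0, Pi.single k 1)

theorem rS_single {θ : ZMod 2} {d : Dat U J} (k : J) (u : U) :
    rS θ d (ev k) u = d.B u k := by
  unfold rS ev
  simp only [Pi.zero_apply, add_zero, mul_zero, Finset.sum_const_zero, zero_add]
  rw [Finset.sum_eq_single k]
  · rw [Pi.single_eq_same, mul_one]
  · intro l _ hl
    rw [Pi.single_eq_of_ne hl, mul_zero]
  · intro h
    exact absurd (Finset.mem_univ k) h

theorem sr_single {θ : ZMod 2} {d : Dat U J} (k : J) :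
    sr θ d (ev k) = (∑ u, d.bU u + ∑ l, d.bJ l + 1) * d.bJ k + θ * d.cJ k := by
  have e : ∀ f : J → ZMod 2, ∑ l, f l * (Pi.single k (1 : ZMod 2) : J → ZMod 2) l = f k := by
    intro f
    rw [Finset.sum_eq_single k]
    · rw [Pi.single_eq_same, mul_one]
    · intro l _ hl
      rw [Pi.single_eq_of_ne hl, mul_zero]
    · intro h
      exact absurd (Finset.mem_univ k) h
  unfold sr bx cx ev
  simp only [Pi.zero_apply, add_zero, mul_zero, Finset.sum_const_zero, zero_add]
  rw [e, e]

theorem Phi_surj {θ : ZMod 2} {d : Dat U J} (hd : d.Good θ) (i j : J) (hi : d.bJ i = 1)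
    (hj : d.bJ j = 1) (hij : i ≠ j) :
    LinearMap.range (Phi θ d i) = ⊤ := by
  by_contra hne
  obtain ⟨f, hf0, hf⟩ := Submodule.exists_le_ker_of_lt_top _ (lt_top_iff_ne_top.2 hne)
  set w : U → ZMod 2 := fun u => f (Pi.single u 1, 0, 0) with hw
  set c : ZMod 2 := f (0, 1, 0) with hc
  set m : ZMod 2 := f (0, 0, 1) with hm
  have hfe : ∀ a : U → ZMod 2, ∀ e s : ZMod 2,
      f (a, e, s) = ∑ u, a u * w u + e * c + s * m := by
    intro a e s
    have h1 : ((a, e, s) : (U → ZMod 2) × ZMod 2 × ZMod 2) =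
        ∑ u, a u • ((Pi.single u 1, 0, 0) : (U → ZMod 2) × ZMod 2 × ZMod 2) + e • (0, 1, 0) +
          s • (0, 0, 1) := by
      refine Prod.ext ?_ (Prod.ext ?_ ?_)
      · rw [Prod.fst_add, Prod.fst_add, Prod.fst_sum]
        simp only [Prod.smul_mk, smul_zero, add_zero]
        funext v
        rw [Finset.sum_apply, Finset.sum_eq_single v]
        · simp
        · intro u _ hu
          rw [Pi.smul_apply, Pi.single_eq_of_ne (Ne.symm hu), smul_zero]
        · intro h
          exact absurd (Finset.mem_univ v) h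
      · simp only [Prod.snd_add, Prod.fst_add, Prod.snd_sum, Prod.fst_sum]
        simp
      · simp only [Prod.snd_add, Prod.snd_sum]
        simp
    rw [h1, map_add, map_add, map_sum, map_smul, map_smul]
    simp only [map_smul, smul_eq_mul]
    rfl
  have hker : ∀ z : ZMod 2 × (U → ZMod 2) × (J → ZMod 2),
      ∑ u, rS θ d z u * w u + z.2.2 i * c + sr θ d z * m = 0 := by
    intro z
    rw [← hfe]
    exact hf ⟨z, rfl⟩
  have hw0' : (∀ u, w u = 0) ∧ m * θ = 0 := by
    by_contra hcon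
    have hcon' : (∃ u, w u ≠ 0) ∨ m * θ ≠ 0 := by
      by_contra h
      push Not at h
      exact hcon h
    obtain ⟨k, hk0, hk1⟩ := hd.nd w (m * θ) hcon'
    have hki : i ≠ k := by
      rintro rfl
      rw [hi] at hk0
      exact one_ne_zero hk0
    have h2 := hker (ev k)
    simp only [rS_single, sr_single, hk0] at h2
    have h2' : (ev k : ZMod 2 × (U → ZMod 2) × (J → ZMod 2)).2.2 i = 0 :=
      Pi.single_eq_of_ne hki _
    rw [h2', zero_mul, add_zero, mul_zero, zero_add] at h2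
    apply hk1
    rw [← h2]
    congr 1
    · refine Finset.sum_congr rfl fun u _ => ?_
      have h3 := hd.rB u k
      rw [hk0, mul_zero] at h3
      rw [CharTwo.add_eq_zero.1 h3, mul_comm]
    · ring
  obtain ⟨hw0, hmθ⟩ := hw0'
  have hm0 : m = 0 := by
    have hθ : θ = 0 ∨ θ = 1 := by
      have : ∀ t : ZMod 2, t = 0 ∨ t = 1 := by decide
      exact this θ
    rcases hθ with h | h
    · have hp := hd.par h
      have h2 := hker (ev j)
      have h2' : (ev j : ZMod 2 × (U → ZMod 2) × (J → ZMod 2)).2.2 i = 0 :=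
        Pi.single_eq_of_ne hij _
      simp only [hw0, mul_zero, Finset.sum_const_zero, zero_add, sr_single, h2', zero_mul, hj,
        hp, h, mul_one, add_zero, one_mul] at h2
      exact h2
    · rw [h, mul_one] at hmθ
      exact hmθ
  have hc0 : c = 0 := by
    have h2 := hker (ev i)
    have h2' : (ev i : ZMod 2 × (U → ZMod 2) × (J → ZMod 2)).2.2 i = 1 :=
      Pi.single_eq_same _ _
    simp only [hw0, hm0, mul_zero, Finset.sum_const_zero, zero_add, add_zero, h2', one_mul] at h2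
    exact h2
  apply hf0
  refine LinearMap.ext fun a => ?_
  have h4 := hfe a.1 a.2.1 a.2.2
  simp only [hw0, hc0, hm0, mul_zero, Finset.sum_const_zero, add_zero] at h4
  exact h4

theorem card_KK {θ : ZMod 2} {d : Dat U J} (hd : d.Good θ) (i j : J) (hi : d.bJ i = 1)
    (hj : d.bJ j = 1) (hij : i ≠ j) :
    (KK θ d i).card = 2 ^ (Fintype.card J - 1) := by
  have h1 : (KK θ d i).card = 2 ^ Module.finrank (ZMod 2) (LinearMap.ker (Phi θ d i)) := by
    unfold KK
    refine card_filter_sub (fun z : ZMod 2 × (U → ZMod 2) × (J → ZMod 2) =>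
      Sml θ d z ∧ z.2.2 i = 0 ∧ sr θ d z = 0) (LinearMap.ker (Phi θ d i)) fun z => ?_
    rw [LinearMap.mem_ker]
    constructor
    · intro h
      exact ⟨fun u => congrFun (congrArg Prod.fst h) u,
        congrArg Prod.fst (congrArg Prod.snd h), congrArg Prod.snd (congrArg Prod.snd h)⟩
    · rintro ⟨h2, h3, h4⟩
      refine Prod.ext ?_ (Prod.ext h3 h4)
      funext u
      exact h2 u
  rw [h1]
  congr 1
  have h2 := LinearMap.finrank_range_add_finrank_ker (Phi θ d i)
  rw [Phi_surj hd i j hi hj hij, finrank_top, Module.finrank_prod, Module.finrank_prod,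
    Module.finrank_prod, Module.finrank_prod,
    Module.finrank_fintype_fun_eq_card, Module.finrank_fintype_fun_eq_card,
    Module.finrank_self] at h2
  omega

end

end SYS

/-- **XE-1.** -/
theorem t_ESYS : S_ESYS := by
  intro θ U J _ _ _ d hd i j hi hj hij
  refine ⟨fun α => ⟨⟨Module.finrank (ZMod 2) (SYS.spc θ d i α), ?_⟩, SYS.good_iff hd i α⟩,
    SYS.card_KK hd i j hi hj hij⟩
  rw [SYS.nk_eq]
  exact SYS.card_filter_sub _ (SYS.spc θ d i α) fun v => Iff.rfl

end Pool.Agent.NH3.XE
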