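import Pool.Agent.NH3.XE.LA
import Pool.Agent.NH3.XE.SYS
import Pool.Agent.NH3.XE.PRB
import Pool.Agent.NH3.XE.RAD
import Pool.Agent.NH3.XE.MOM
import Pool.Agent.NH3.XE.BOX
import Pool.Agent.NH3.XE.Key
import Pool.Agent.NH3.XE.HAL
import Pool.Agent.NH3.XE.BAD
import Pool.Agent.NH3.XE.Asy
import Pool.Agent.NH3.XE.Num
import Pool.Agent.NH3.XD.Fin
import Pool.Agent.NH4.XJ.PRB
import Pool.Agent.NH4.XJ.LOW

/-!
# The natural density of `4`-rank zero among the even discriminants, unconditionally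
-/

set_option autoImplicit false

open scoped Classical

namespace Pool.Agent.NH3.XE

open Filter Topology
open Pool.Agent.NH5.PR (eta)
open Pool.Agent.NH3.XD (cZ)

theorem f_ELA : S_ELA := t_ELA t_ESYS t_EPRB Pool.Agent.NH4.XJ.t_XPRB t_ERAD XD.t_ISO t_EMOM
  Pool.Agent.NH4.PJ.t_ABS Pool.Agent.NH4.PJ.t_LAW

theorem f_EDQ : S_EDQ := t_EASY Pool.Agent.NH5.PR.t_BIL Pool.Agent.Y356.CQ.t_EQ f_ELA
  Pool.Agent.NH5.PR.t_ETA t_EBOX t_EKEY XD.t_XCNT Pool.Agent.Y488.CX.t_SIE t_EHAL t_EBAD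
  Pool.Agent.Y405.CQ.t_MER XD.t_XFEW Pool.Agent.NH4.XJ.t_XJLOW

theorem f_EDEN : S_EDEN := t_ENS f_EDQ

/-- **The law for all imaginary quadratic fields in which `3` splits and `5` is inert.** -/
theorem f_law : Tendsto (fun X : ℕ => (cZ (fun D => FD D ∧ KrF D) X : ℝ) / (cZ FD X : ℝ)) atTop
    (𝓝 eta) := law_FD f_EDEN

/-- **The density of the good discriminants.** -/
theorem f_dens : Tendsto (fun X : ℕ => (cZ (fun D => FD D ∧ KrF D) X : ℝ) / X) atTop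
    (𝓝 (eta * (15 / (32 * Real.pi ^ 2)))) := dens_FD_Kr f_EDEN

/-- **The law with local conditions.** -/
theorem f_law_T {m : ℕ} (hm : 0 < m) (T : Finset ℤ) (h : ∃ D, FD D ∧ Int.gcd D m = 1 ∧ D % m ∈ T) :
    Tendsto (fun X : ℕ => (cZ (fun D => (FD D ∧ Int.gcd D m = 1 ∧ D % m ∈ T) ∧ KrF D) X : ℝ) /
      (cZ (fun D => FD D ∧ Int.gcd D m = 1 ∧ D % m ∈ T) X : ℝ)) atTop (𝓝 eta) ∧
    ∃ (c : ℝ) (X₀ : ℕ), 0 < c ∧ ∀ X : ℕ, X₀ ≤ X →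
      c * X ≤ (cZ (fun D => (FD D ∧ Int.gcd D m = 1 ∧ D % m ∈ T) ∧ KrF D) X : ℝ) :=
  law_F f_EDEN hm T h

end Pool.Agent.NH3.XE
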