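import Pool.Agent.NH3.XE.Stm
import Pool.Agent.NH3.XD.Gen
import Pool.Agent.XW.Defs

/-!
# Project XE: the kernel of the Redei matrix in terms of subsets
-/

set_option autoImplicit false

open scoped Classical

namespace Pool.Agent.NH3.XE

open Finset
open Pool.Agent.Y703.CQ (nr)
open Pool.Agent.Z700 (pr)
open Pool.Agent.NH3.XD (prod_jac)
open Pool.Agent.XW (Kr gen pe md)

/-- the sign of a bit -/
def sb (a : ZMod 2) : ℤ := if a = 0 then 1 else -1

theorem sb_add (a b : ZMod 2) : sb (a + b) = sb a * sb b := by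
  unfold sb
  revert a b
  decide

theorem sb_one {a : ZMod 2} : sb a = 1 ↔ a = 0 := by
  unfold sb
  split_ifs with h <;> simp [h]

theorem jac_pr {p : ℕ} (hp : p.Prime) (h2 : p ≠ 2) (T : Finset ℕ) (hT : ∀ q ∈ T, q.Prime ∧ q ≠ p) :
    jacobiSym ((∏ q ∈ T, q : ℕ) : ℤ) p = sb (∑ q ∈ T, nr p q) := prod_jac hp h2 T hT

/-- the bit of `δ` -/
def tb (δ : ℤ) : ZMod 2 := if δ = -4 then 0 else 1

theorem jac_de {δ : ℤ} (hδ : Pool.Agent.XW.Dt δ) {p : ℕ} (hp : p.Prime) (h2 : p ≠ 2) :
    jacobiSym ((δ.natAbs : ℕ) : ℤ) p = sb (nr p 2 * tb δ) := by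
  have h := jac_pr hp h2 {2} (by simpa using ⟨Nat.prime_two, h2.symm⟩)
  simp only [prod_singleton, sum_singleton] at h
  have hsq : jacobiSym ((2 : ℕ) : ℤ) p * jacobiSym ((2 : ℕ) : ℤ) p = 1 := by
    rw [h, ← sb_add]
    have : ∀ a : ZMod 2, a + a = 0 := by decide
    rw [this]
    rfl
  unfold tb
  rcases hδ with rfl | rfl | rfl
  · rw [if_pos rfl, mul_zero]
    have : (((-4 : ℤ).natAbs : ℕ) : ℤ) = ((2 : ℕ) : ℤ) * ((2 : ℕ) : ℤ) := by norm_num
    rw [this, jacobiSym.mul_left, hsq]
    rfl
  · rw [if_neg (by norm_num), mul_one]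
    have : (((8 : ℤ).natAbs : ℕ) : ℤ) = ((2 : ℕ) : ℤ) * ((2 : ℕ) : ℤ) * ((2 : ℕ) : ℤ) := by norm_num
    rw [this, jacobiSym.mul_left, jacobiSym.mul_left, hsq, one_mul, h]
  · rw [if_neg (by norm_num), mul_one]
    have : (((-8 : ℤ).natAbs : ℕ) : ℤ) = ((2 : ℕ) : ℤ) * ((2 : ℕ) : ℤ) * ((2 : ℕ) : ℤ) := by norm_num
    rw [this, jacobiSym.mul_left, jacobiSym.mul_left, hsq, one_mul, h]

theorem prod_div {T : Finset ℕ} {p : ℕ} (hp : p ∈ T) (h0 : 0 < p) (f : ℕ → ℕ) (hf : f p = p) :
    (∏ l ∈ T, f l) / p = ∏ l ∈ T.erase p, f l := by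
  rw [← mul_prod_erase T f hp, hf, Nat.mul_div_cancel_left _ h0]

theorem kr_iff_gd {δ : ℤ} (hδ : Pool.Agent.XW.Dt δ) {S : Finset ℕ} (hS : ∀ p ∈ S, p.Prime ∧ p ≠ 2) :
    Kr δ (insert 2 S) ↔ Gd (tb δ) S := by
  have h2S : (2 : ℕ) ∉ S := fun h => (hS 2 h).2 rfl
  have hNp : ∀ p ∈ insert 2 S, p.Prime := fun p hp => by
    rcases mem_insert.1 hp with rfl | h
    · exact Nat.prime_two
    · exact (hS p h).1
  have key : ∀ D ⊆ insert 2 S, ∀ p ∈ S, (gen δ (insert 2 S) D p = 1 ↔
      ∑ q ∈ S, nr p q * ((if q ∈ D then (1 : ZMod 2) else 0) + if p ∈ D then 1 else 0) +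
        nr p 2 * ((if 2 ∈ D then (1 : ZMod 2) else 0) + tb δ * if p ∈ D then 1 else 0) = 0) := by
    intro D hD p hp
    have hpp := (hS p hp).1
    have hp2 := (hS p hp).2
    -- the sum over `D`
    have hsD : ∑ q ∈ D.erase p, nr p q =
        ∑ q ∈ S.erase p, nr p q * (if q ∈ D then (1 : ZMod 2) else 0) +
          nr p 2 * (if 2 ∈ D then (1 : ZMod 2) else 0) := by
      have e1 : D.erase p = ((insert 2 S).erase p).filter (· ∈ D) := by
        ext q
        simp only [mem_erase, mem_filter]
        constructor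
        · rintro ⟨h1, h2⟩
          exact ⟨⟨h1, hD h2⟩, h2⟩
        · rintro ⟨⟨h1, _⟩, h2⟩
          exact ⟨h1, h2⟩
      rw [e1, sum_filter, erase_insert_of_ne hp2.symm, sum_insert (fun h => h2S (mem_of_mem_erase h)),
        add_comm]
      congr 1
      · refine sum_congr rfl fun q _ => ?_
        split_ifs <;> simp
      · split_ifs <;> simp
    have hpS : ∀ f : ℕ → ZMod 2, ∑ q ∈ S, nr p q * f q = ∑ q ∈ S.erase p, nr p q * f q := by
      intro f
      rw [← add_sum_erase S _ hp]
      have : nr p p = 0 := by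
        unfold nr
        rw [if_pos]
        rw [ZMod.natCast_self]
        exact ⟨0, by simp⟩
      rw [this, zero_mul, zero_add]
    have hne : ∀ T : Finset ℕ, (∀ q ∈ T, q.Prime) → ∀ q ∈ T.erase p, q.Prime ∧ q ≠ p :=
      fun T hT q hq => ⟨hT q (mem_of_mem_erase hq), ne_of_mem_erase hq⟩
    have hDp : ∀ q ∈ D, q.Prime := fun q hq => hNp q (hD hq)
    unfold gen
    by_cases h : p ∈ D
    · rw [if_pos h, prod_div h hpp.pos (fun l => l) rfl]
      have e2 : pe δ (insert 2 S) / p = δ.natAbs * ∏ l ∈ S.erase p, l := by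
        unfold pe
        rw [prod_div (mem_insert_of_mem hp) hpp.pos (md δ) (by unfold md; rw [if_neg hp2]),
          erase_insert_of_ne hp2.symm, prod_insert (fun h => h2S (mem_of_mem_erase h))]
        congr 1
        refine prod_congr rfl fun l hl => ?_
        unfold md
        rw [if_neg (hS l (mem_of_mem_erase hl)).2]
      rw [e2]
      push_cast
      rw [jacobiSym.mul_left, jacobiSym.mul_left]
      have e3 := jac_pr hpp hp2 (D.erase p) (hne D hDp)
      have e4 := jac_pr hpp hp2 (S.erase p) (hne S fun q hq => (hS q hq).1)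
      have e5 := jac_de hδ hpp hp2
      push_cast at e3 e4 e5
      rw [e3, e4, e5, ← sb_add, ← sb_add, sb_one, hpS, if_pos h, mul_one, hsD]
      have e6 : ∑ q ∈ S.erase p, nr p q * ((if q ∈ D then (1 : ZMod 2) else 0) + 1) =
          ∑ q ∈ S.erase p, nr p q * (if q ∈ D then (1 : ZMod 2) else 0) + ∑ q ∈ S.erase p, nr p q := by
        rw [← sum_add_distrib]
        refine sum_congr rfl fun q _ => ?_
        rw [mul_add, mul_one]
      rw [e6]
      have e7 : ∀ a b c d e : ZMod 2, a + c * d + (c * e + b) = a + b + c * (d + e) := fun a b c d e => by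
        ring
      rw [e7]
    · rw [if_neg h]
      have e3 := jac_pr hpp hp2 D (fun q hq => ⟨hDp q hq, fun hqp => h (hqp ▸ hq)⟩)
      have e4 : D.erase p = D := erase_eq_of_notMem h
      rw [e4] at hsD
      rw [e3, sb_one, hpS, if_neg h, mul_zero, add_zero, hsD]
      simp only [add_zero]
  constructor
  · intro h w x hx
    have h01 : ∀ a : ZMod 2, a = if a = 1 then 1 else 0 := by decide
    set D : Finset ℕ := (insert 2 S).filter fun t => (t = 2 ∧ w = 1) ∨ (t ≠ 2 ∧ x t = 1) with hD
    have hD2 : 2 ∈ D ↔ w = 1 := by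
      rw [hD, mem_filter]
      simp
    have hDS : ∀ p ∈ S, (p ∈ D ↔ x p = 1) := by
      intro p hp
      rw [hD, mem_filter]
      have := (hS p hp).2
      simp [this, hp]
    have h1 := h D (filter_subset _ _) fun p hp => by
      rw [erase_insert h2S] at hp
      rw [key D (filter_subset _ _) p hp]
      refine Eq.trans ?_ (hx p hp)
      congr 1
      · refine sum_congr rfl fun q hq => ?_
        congr 2
        · rw [h01 (x q)]
          simp only [hDS q hq]
        · rw [h01 (x p)]
          simp only [hDS p hp]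
      · congr 2
        · rw [h01 w]
          simp only [hD2]
        · rw [h01 (x p)]
          simp only [hDS p hp]
    rcases h1 with h1 | h1
    · refine ⟨0, ?_, fun p hp => ?_⟩
      · rw [mul_zero, h01 w, if_neg]
        rw [← hD2, h1]
        exact notMem_empty _
      · rw [h01 (x p), if_neg]
        rw [← hDS p hp, h1]
        exact notMem_empty _
    · refine ⟨1, ?_, fun p hp => ?_⟩
      · rw [mul_one]
        unfold tb
        split_ifs at h1 ⊢ with h4
        · rw [h01 w, if_neg]
          rw [← hD2, h1]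
          exact notMem_erase _ _
        · rw [← hD2, h1]
          exact mem_insert_self _ _
      · rw [← hDS p hp, h1]
        split_ifs
        · rw [erase_insert h2S]
          exact hp
        · exact mem_insert_of_mem hp
  · intro h D hD hg
    have h1 := h (if 2 ∈ D then 1 else 0) (fun q => if q ∈ D then 1 else 0) fun p hp =>
      (key D hD p hp).1 (hg p (by rw [erase_insert h2S]; exact hp))
    obtain ⟨c, h2, h3⟩ := h1
    have hc : ∀ a : ZMod 2, a = 0 ∨ a = 1 := by decide
    rcases hc c with rfl | rfl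
    · left
      rw [eq_empty_iff_forall_notMem]
      intro q hq
      rcases mem_insert.1 (hD hq) with rfl | hqS
      · rw [if_pos hq, mul_zero] at h2
        exact one_ne_zero h2
      · have := h3 q hqS
        rw [if_pos hq] at this
        exact one_ne_zero this
    · right
      have hSD : S ⊆ D := fun q hq => by
        have := h3 q hq
        by_contra hn
        rw [if_neg hn] at this
        exact zero_ne_one this
      rw [mul_one] at h2
      unfold tb at h2
      split_ifs with h4
      · rw [if_pos h4] at h2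
        rw [erase_insert h2S]
        refine Subset.antisymm (fun q hq => ?_) hSD
        rcases mem_insert.1 (hD hq) with rfl | hqS
        · rw [if_pos hq] at h2
          exact absurd h2 one_ne_zero
        · exact hqS
      · rw [if_neg h4] at h2
        have h5 : 2 ∈ D := by
          by_contra hn
          rw [if_neg hn] at h2
          exact zero_ne_one h2
        exact Subset.antisymm hD (insert_subset h5 hSD)

end Pool.Agent.NH3.XE
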